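import Pool.Agent.H41.RC.Sepf

/-!
# Bad lists and sizes
-/

set_option autoImplicit false

namespace Pool.Agent.H41.RC

open Pool.Agent.H92.SR

variable {n : ℕ}

theorem EE_ofFn (x : Fin n → ℕ) (k : ℕ) : EE (List.ofFn x) k = ∑ i, √(x i : ℝ) - k := by
  unfold EE
  rw [List.map_ofFn, List.sum_ofFn]
  rfl

/-- some threshold is closer than `2 ^ (-(1 + p))` -/
def badp (p : ℕ) (x : Fin n → ℕ) : Prop :=
  ∃ k : ℕ, |EE (List.ofFn x) k| * 2 ^ (1 + p) < 1

/-- some threshold is not decided at the precision of level `m` -/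
def bad (b m : ℕ) (x : Fin n → ℕ) : Prop := badp (b * 4 ^ m) x

theorem sum_lt (s : Finset (Fin n)) (N : Fin n → ℕ) :
    ∑ i ∈ s, N i + 1 ≤ 2 ^ (∑ i ∈ s, Nat.size (N i)) := by
  classical
  induction s using Finset.induction_on with
  | empty => simp
  | insert i s hi ih =>
    rw [Finset.sum_insert hi, Finset.sum_insert hi, pow_add]
    have h1 : N i + 1 ≤ 2 ^ Nat.size (N i) := Nat.lt_size_self (N i)
    have h2 := Nat.mul_le_mul h1 ih
    have h3 : N i + ∑ i ∈ s, N i + 1 ≤ (N i + 1) * (∑ i ∈ s, N i + 1) := by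
      have h4 : (N i + 1) * (∑ i ∈ s, N i + 1) =
          N i * ∑ i ∈ s, N i + (N i + ∑ i ∈ s, N i + 1) := by ring
      rw [h4]
      exact Nat.le_add_left _ _
    exact h3.trans h2

theorem sqrt_le_self (x : ℕ) : √(x : ℝ) ≤ x := by
  rcases Nat.eq_zero_or_pos x with h | h
  · subst h
    simp
  · rw [Real.sqrt_le_left (Nat.cast_nonneg x)]
    have : (1 : ℝ) ≤ x := by exact_mod_cast h
    nlinarith

theorem sqsum {A : Fin n → Finset ℕ} {N : Fin n → ℕ} (hN : ∀ i, ∀ x ∈ A i, x ≤ N i)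
    {x : Fin n → ℕ} (hx : x ∈ Fintype.piFinset A) :
    ∑ i, √(x i : ℝ) ≤ 2 ^ (∑ i, Nat.size (N i)) := by
  have h1 : ∑ i, √(x i : ℝ) ≤ ∑ i, (N i : ℝ) := by
    refine Finset.sum_le_sum fun i _ => (sqrt_le_self _).trans ?_
    exact_mod_cast hN i _ (Fintype.mem_piFinset.1 hx i)
  have h2 : ((∑ i, N i + 1 : ℕ) : ℝ) ≤ ((2 ^ (∑ i, Nat.size (N i)) : ℕ) : ℝ) := by
    exact_mod_cast sum_lt Finset.univ N
  push_cast at h2
  linarith

end Pool.Agent.H41.RC
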