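import Mathlib

/-!
# Small integral relations between integral vectors outside a set of coordinates

`Rel h S v`: the combination of the vectors `h j` with the coefficients `v j` vanishes outside `S`. If some integral combination
of the `h j` vanishes outside `S` but is not zero, then there is one with small coefficients (`circ`): a column of the adjugate
of the Gram matrix of a minimal family.
-/

set_option autoImplicit false

namespace Pool.Agent.H41.RC

open Finset Matrix

variable {κ ι : Type} [Fintype κ] [Fintype ι] [DecidableEq κ] [DecidableEq ι]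

/-- the combination vanishes outside `S` -/
def Rel (h : κ → ι → ℤ) (S : Finset ι) (v : κ → ℤ) : Prop := ∀ i ∉ S, ∑ j, v j * h j i = 0

theorem lin2 (h : κ → ι → ℤ) (x y : ℤ) (v w : κ → ℤ) (i : ι) :
    ∑ j, (x * v j - y * w j) * h j i = x * ∑ j, v j * h j i - y * ∑ j, w j * h j i := by
  rw [Finset.mul_sum, Finset.mul_sum, ← Finset.sum_sub_distrib]
  exact Finset.sum_congr rfl fun j _ => by ring

theorem circ_exists (h : κ → ι → ℤ) (S : Finset ι)
    (hv : ∃ v, Rel h S v ∧ ∃ i, ∑ j, v j * h j i ≠ 0) :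
    ∃ (K : Finset κ) (v : κ → ℤ) (j0 : κ), j0 ∈ K ∧ (∀ j ∉ K, v j = 0) ∧ v j0 ≠ 0 ∧ Rel h S v ∧
      (∃ i, ∑ j, v j * h j i ≠ 0) ∧
      ∀ w, Rel h S w → (∀ j ∉ K.erase j0, w j = 0) → w = 0 := by
  classical
  let P : ℕ → Prop := fun t => ∃ v, Rel h S v ∧ (∃ i, ∑ j, v j * h j i ≠ 0) ∧
    (univ.filter fun j => v j ≠ 0).card = t
  have hP : ∃ t, P t := by
    obtain ⟨v, h1, h2⟩ := hv
    exact ⟨_, v, h1, h2, rfl⟩
  have hmin : ∀ v, Rel h S v → (∃ i, ∑ j, v j * h j i ≠ 0) →
      Nat.find hP ≤ (univ.filter fun j => v j ≠ 0).card :=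
    fun v h1 h2 => Nat.find_min' hP ⟨v, h1, h2, rfl⟩
  obtain ⟨v, h1, h2, h3⟩ := Nat.find_spec hP
  set K : Finset κ := univ.filter fun j => v j ≠ 0 with hK
  have hKm : ∀ j, j ∈ K ↔ v j ≠ 0 := by
    intro j
    rw [hK, Finset.mem_filter]
    simp
  have hne : K.Nonempty := by
    rw [Finset.nonempty_iff_ne_empty]
    intro h0
    obtain ⟨i, hi⟩ := h2
    apply hi
    refine Finset.sum_eq_zero fun j _ => ?_
    have : v j = 0 := by
      by_contra hj
      have := (hKm j).2 hj
      rw [h0] at this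
      simp at this
    rw [this, zero_mul]
  obtain ⟨j0, hj0⟩ := hne
  refine ⟨K, v, j0, hj0, ?_, (hKm j0).1 hj0, h1, h2, ?_⟩
  · intro j hj
    by_contra h0
    exact hj ((hKm j).2 h0)
  intro w hw hws
  have hlt : ∀ (j1 : κ), j1 ∈ K → ∀ u : κ → ℤ, (∀ j ∉ K.erase j1, u j = 0) → Rel h S u →
      ¬ ∃ i, ∑ j, u j * h j i ≠ 0 := by
    intro j1 hj1 u hu hr hi
    have h4 := hmin u hr hi
    have h5 : (univ.filter fun j => u j ≠ 0) ⊆ K.erase j1 := by
      intro j hj
      rw [Finset.mem_filter] at hj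
      by_contra h6
      exact hj.2 (hu j h6)
    have h6 := (Finset.card_le_card h5).trans_lt (Finset.card_erase_lt_of_mem hj1)
    omega
  have hz : ∀ i, ∑ j, w j * h j i = 0 := by
    intro i
    by_contra hi
    exact hlt j0 hj0 w hws hw ⟨i, hi⟩
  by_contra hw0
  obtain ⟨j1, hj1⟩ := Function.ne_iff.1 hw0
  have hj1' : w j1 ≠ 0 := hj1
  have hj1K : j1 ∈ K := by
    by_contra h4
    exact hj1' (hws j1 fun h5 => h4 (Finset.mem_of_mem_erase h5))
  refine hlt j1 hj1K (fun j => w j1 * v j - v j1 * w j) ?_ ?_ ?_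
  · intro j hj
    rw [Finset.mem_erase, not_and_or, not_not] at hj
    rcases hj with rfl | hj
    · show w j * v j - v j * w j = 0
      ring
    · have h4 : v j = 0 := by
        by_contra h5
        exact hj ((hKm j).2 h5)
      have h5 : w j = 0 := hws j fun h6 => hj (Finset.mem_of_mem_erase h6)
      show w j1 * v j - v j1 * w j = 0
      rw [h4, h5]
      ring
  · intro i hi
    have := lin2 h (w j1) (v j1) v w i
    show ∑ j, (w j1 * v j - v j1 * w j) * h j i = 0
    rw [this, h1 i hi, hw i hi]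
    ring
  · obtain ⟨i, hi⟩ := h2
    refine ⟨i, ?_⟩
    show ∑ j, (w j1 * v j - v j1 * w j) * h j i ≠ 0
    rw [lin2, hz i, mul_zero, sub_zero]
    exact mul_ne_zero hj1' hi

theorem circ (h : κ → ι → ℤ) (S : Finset ι) {X : ℕ} (hb : ∀ j i, |h j i| ≤ (X : ℤ))
    (hv : ∃ v, Rel h S v ∧ ∃ i, ∑ j, v j * h j i ≠ 0) :
    ∃ (K : Finset κ) (l : κ → ℤ), K.card ≤ Fintype.card ι + 1 ∧ (∀ j ∉ K, l j = 0) ∧ Rel h S l ∧
      (∃ i, ∑ j, l j * h j i ≠ 0) ∧
      ∀ j, |l j| ≤ (K.card.factorial * (Fintype.card ι * X ^ 2 + 1) ^ K.card : ℕ) := by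
  classical
  obtain ⟨K, v, j0, hj0, hvK, hvj, hvr, ⟨i0, hi0⟩, hw⟩ := circ_exists h S hv
  -- extension by zero
  let ext : (K → ℤ) → κ → ℤ := fun u j => if hj : j ∈ K then u ⟨j, hj⟩ else 0
  have ext_mem : ∀ (u : K → ℤ) (a : K), ext u a = u a := by
    intro u a
    show (if hj : (a : κ) ∈ K then u ⟨a, hj⟩ else 0) = u a
    rw [dif_pos a.2]
  have ext_not : ∀ (u : K → ℤ) (j : κ), j ∉ K → ext u j = 0 := by
    intro u j hj
    show (if hj : j ∈ K then u ⟨j, hj⟩ else 0) = 0
    rw [dif_neg hj]
  have ext_sum : ∀ (u : K → ℤ) (i : ι), ∑ j, ext u j * h j i = ∑ a : K, u a * h a i := by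
    intro u i
    rw [← Finset.sum_subset (Finset.subset_univ K) (fun j _ hj => by rw [ext_not u j hj, zero_mul]),
      ← Finset.sum_coe_sort K]
    exact Finset.sum_congr rfl fun a _ => by rw [ext_mem]
  let G : Matrix K K ℤ := fun a b => ∑ i ∈ univ \ S, h a i * h b i
  have Gmul : ∀ (u : K → ℤ) (a : K), (G *ᵥ u) a =
      ∑ i ∈ univ \ S, h a i * ∑ b : K, u b * h b i := by
    intro u a
    show ∑ b : K, G a b * u b = _
    simp only [G, Finset.sum_mul, Finset.mul_sum]
    rw [Finset.sum_comm]
    exact Finset.sum_congr rfl fun i _ => Finset.sum_congr rfl fun b _ => by ring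
  have quad : ∀ u : K → ℤ, ∑ a : K, u a * (G *ᵥ u) a =
      ∑ i ∈ univ \ S, (∑ b : K, u b * h b i) ^ 2 := by
    intro u
    simp only [Gmul, Finset.mul_sum]
    rw [Finset.sum_comm]
    refine Finset.sum_congr rfl fun i _ => ?_
    rw [pow_two, Finset.sum_mul_sum]
    exact Finset.sum_congr rfl fun a _ => Finset.sum_congr rfl fun b _ => by ring
  have rel_of : ∀ u : K → ℤ, (∑ a : K, u a * (G *ᵥ u) a = 0) → Rel h S (ext u) := by
    intro u hu i hi
    rw [quad] at hu
    have h1 := (Finset.sum_eq_zero_iff_of_nonneg (fun i _ => sq_nonneg _)).1 hu i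
      (Finset.mem_sdiff.2 ⟨Finset.mem_univ i, hi⟩)
    rw [ext_sum]
    exact (pow_eq_zero_iff two_ne_zero).1 h1
  let J0 : K := ⟨j0, hj0⟩
  -- the determinant vanishes
  have hdet : G.det = 0 := by
    refine Matrix.exists_mulVec_eq_zero_iff.1 ⟨fun a : K => v a, ?_, ?_⟩
    · intro h0
      exact hvj (congrFun h0 J0)
    · funext a
      rw [Gmul]
      refine Finset.sum_eq_zero fun i hi => ?_
      have h1 : ∑ b : K, v b * h b i = 0 := by
        have h2 := hvr i (Finset.mem_sdiff.1 hi).2
        rw [← h2]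
        have h3 := Finset.sum_subset (Finset.subset_univ K) (f := fun j => v j * h j i)
          (fun j _ hj => by rw [hvK j hj, zero_mul])
        rw [← h3, ← Finset.sum_coe_sort K]
      rw [h1, mul_zero]
  let μ : K → ℤ := fun a => G.adjugate a J0
  have hGμ : G *ᵥ μ = 0 := by
    have h1 := Matrix.mul_adjugate G
    rw [hdet, zero_smul] at h1
    funext a
    have h2 := congrFun (congrFun h1 a) J0
    rw [Matrix.mul_apply] at h2
    exact h2
  have hμr : Rel h S (ext μ) := by
    apply rel_of
    rw [hGμ]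
    simp
  have hμ0 : μ J0 ≠ 0 := by
    intro h0
    have h1 : (G.updateRow J0 (Pi.single J0 1)).det = 0 := by
      rw [← Matrix.adjugate_apply]
      exact h0
    obtain ⟨w, hw0, hw1⟩ := Matrix.exists_mulVec_eq_zero_iff.2 h1
    have h2 : w J0 = 0 := by
      have h3 := congrFun hw1 J0
      have h4 : ((G.updateRow J0 (Pi.single J0 1)) *ᵥ w) J0 = w J0 := by
        show (G.updateRow J0 (Pi.single J0 1)) J0 ⬝ᵥ w = w J0
        rw [Matrix.updateRow_self]
        simp
      rw [h4] at h3
      exact h3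
    have h3 : ∀ a, a ≠ J0 → (G *ᵥ w) a = 0 := by
      intro a ha
      have h4 := congrFun hw1 a
      have h5 : ((G.updateRow J0 (Pi.single J0 1)) *ᵥ w) a = (G *ᵥ w) a := by
        show (G.updateRow J0 (Pi.single J0 1)) a ⬝ᵥ w = G a ⬝ᵥ w
        rw [Matrix.updateRow_ne ha]
      rw [h5] at h4
      exact h4
    have h4 : Rel h S (ext w) := by
      apply rel_of
      refine Finset.sum_eq_zero fun a _ => ?_
      by_cases ha : a = J0
      · rw [ha, h2, zero_mul]
      · rw [h3 a ha, mul_zero]
    have h5 := hw (ext w) h4 (by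
      intro j hj
      rw [Finset.mem_erase, not_and_or, not_not] at hj
      rcases hj with rfl | hj
      · have := ext_mem w J0
        rw [h2] at this
        exact this
      · exact ext_not w j hj)
    apply hw0
    funext a
    have := congrFun h5 a
    rw [ext_mem] at this
    exact this
  refine ⟨K, ext μ, ?_, ext_not μ, hμr, ?_, ?_⟩
  · have hli : LinearIndependent ℤ (fun j : K.erase j0 => h j) := by
      rw [Fintype.linearIndependent_iff]
      intro g hg
      let w : κ → ℤ := fun j => if hj : j ∈ K.erase j0 then g ⟨j, hj⟩ else 0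
      have hws : ∀ i, ∑ j, w j * h j i = 0 := by
        intro i
        rw [← Finset.sum_subset (Finset.subset_univ (K.erase j0)) (fun j _ hj => by
          show (if hj : j ∈ K.erase j0 then g ⟨j, hj⟩ else 0) * h j i = 0
          rw [dif_neg hj, zero_mul]), ← Finset.sum_coe_sort (K.erase j0)]
        have h1 := congrFun hg i
        rw [Finset.sum_apply] at h1
        rw [← show _ = (0 : ℤ) from h1]
        refine Finset.sum_congr rfl fun a _ => ?_
        show (if hj : (a : κ) ∈ K.erase j0 then g ⟨a, hj⟩ else 0) * h a i = _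
        rw [dif_pos a.2]
        rfl
      have h1 := hw w (fun i _ => hws i) (by
        intro j hj
        show (if hj : j ∈ K.erase j0 then g ⟨j, hj⟩ else 0) = 0
        rw [dif_neg hj])
      intro a
      have h2 := congrFun h1 a
      have h3 : w a = g a := by
        show (if hj : (a : κ) ∈ K.erase j0 then g ⟨a, hj⟩ else 0) = g a
        rw [dif_pos a.2]
      rw [h3] at h2
      exact h2
    have h1 := hli.fintype_card_le_finrank
    rw [Fintype.card_coe, Module.finrank_fintype_fun_eq_card, Finset.card_erase_of_mem hj0] at h1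
    omega
  · by_contra hno
    push Not at hno
    have h1 := hw (fun j => μ J0 * v j - v j0 * ext μ j) (by
      intro i hi
      show ∑ j, (μ J0 * v j - v j0 * ext μ j) * h j i = 0
      rw [lin2, hvr i hi, hμr i hi]
      ring) (by
      intro j hj
      rw [Finset.mem_erase, not_and_or, not_not] at hj
      rcases hj with rfl | hj
      · show μ J0 * v j - v j * ext μ j = 0
        have h2 : ext μ j = μ J0 := ext_mem μ J0
        rw [h2]
        ring
      · show μ J0 * v j - v j0 * ext μ j = 0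
        rw [hvK j hj, ext_not μ j hj]
        ring)
    have h2 : ∑ j, (μ J0 * v j - v j0 * ext μ j) * h j i0 = 0 := by
      refine Finset.sum_eq_zero fun j _ => ?_
      have := congrFun h1 j
      have h3 : μ J0 * v j - v j0 * ext μ j = 0 := this
      rw [h3, zero_mul]
    rw [lin2, hno i0, mul_zero, sub_zero] at h2
    rcases mul_eq_zero.1 h2 with h3 | h3
    · exact hμ0 h3
    · exact hi0 h3
  · intro j
    by_cases hj : j ∈ K
    · have h1 : ext μ j = μ ⟨j, hj⟩ := ext_mem μ ⟨j, hj⟩
      rw [h1]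
      show |G.adjugate ⟨j, hj⟩ J0| ≤ _
      rw [Matrix.adjugate_apply]
      have h2 := Matrix.det_le (A := G.updateRow J0 (Pi.single (⟨j, hj⟩ : K) 1))
        (abv := AbsoluteValue.abs) (x := ((Fintype.card ι * X ^ 2 + 1 : ℕ) : ℤ)) (by
        intro a b
        show |(G.updateRow J0 (Pi.single (⟨j, hj⟩ : K) 1)) a b| ≤ _
        by_cases ha : a = J0
        · rw [ha, Matrix.updateRow_self]
          by_cases hb' : b = ⟨j, hj⟩
          · rw [hb', Pi.single_eq_same]
            push_cast
            have : (0 : ℤ) ≤ (Fintype.card ι : ℤ) * (X : ℤ) ^ 2 := by positivity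
            rw [abs_one]
            linarith
          · rw [Pi.single_eq_of_ne hb', abs_zero]
            positivity
        · rw [Matrix.updateRow_ne ha]
          show |∑ i ∈ univ \ S, h a i * h b i| ≤ _
          have h3 : ∀ i ∈ univ \ S, |h a i * h b i| ≤ (X : ℤ) ^ 2 := by
            intro i _
            rw [abs_mul, pow_two]
            exact mul_le_mul (hb a i) (hb b i) (abs_nonneg _) (by positivity)
          refine (Finset.abs_sum_le_sum_abs _ _).trans ((Finset.sum_le_sum h3).trans ?_)
          rw [Finset.sum_const, nsmul_eq_mul]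
          push_cast
          have h4 : ((univ \ S).card : ℤ) ≤ (Fintype.card ι : ℤ) := by
            exact_mod_cast (Finset.card_le_univ _)
          have h5 : (0 : ℤ) ≤ (X : ℤ) ^ 2 := by positivity
          nlinarith)
      rw [Fintype.card_coe, nsmul_eq_mul] at h2
      have h3 : |(G.updateRow J0 (Pi.single (⟨j, hj⟩ : K) 1)).det| ≤
          (K.card.factorial : ℤ) * ((Fintype.card ι * X ^ 2 + 1 : ℕ) : ℤ) ^ K.card := h2
      refine h3.trans (le_of_eq ?_)
      push_cast
      ring
    · rw [ext_not μ j hj, abs_zero]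
      positivity

end Pool.Agent.H41.RC
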