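import Pool.Agent.H41.RC.Bad
import Pool.Agent.H8.SS.Ge

/-!
# The hard sublists of a list form a code

`Near a p S`: the sum of the square roots of the sublist `S` is closer than `2 ^ (-(1 + p))` to an integer. Two such
sublists whose symmetric difference lies in a set of coordinates of pairwise different square classes differ in many
coordinates (`near_far`).
-/

set_option autoImplicit false

namespace Pool.Agent.H41.RC

open Pool.Agent.H92.SR Pool.Agent.H92.SR.Tr Pool.Agent.H8.SS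

variable {n : ℕ}

/-- the sublist of the members with index in `S` -/
def sub (a : Fin n → ℕ) (S : Finset (Fin n)) : List ℕ :=
  ((List.finRange n).filter fun i => i ∈ S).map a

theorem sum_sub {M : Type} [AddCommMonoid M] (f : Fin n → M) (S : Finset (Fin n)) :
    (((List.finRange n).filter fun i => i ∈ S).map f).sum = ∑ i ∈ S, f i := by
  have h : ∀ l : List (Fin n), ((l.filter fun i => i ∈ S).map f).sum =
      (l.map fun i => if i ∈ S then f i else 0).sum := by
    intro l
    induction l with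
    | nil => simp
    | cons x l ih =>
      by_cases hx : x ∈ S
      · rw [List.filter_cons_of_pos (by simpa using hx), List.map_cons, List.map_cons,
          List.sum_cons, List.sum_cons, ih, if_pos hx]
      · rw [List.filter_cons_of_neg (by simpa using hx), List.map_cons, List.sum_cons, ih,
          if_neg hx, zero_add]
  rw [h, ← Fin.sum_univ_def, Finset.sum_ite_mem, Finset.univ_inter]

theorem EE_sub (a : Fin n → ℕ) (S : Finset (Fin n)) (k : ℕ) :
    EE (sub a S) k = ∑ i ∈ S, √(a i : ℝ) - k := by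
  unfold EE sub
  rw [List.map_map, sum_sub]
  rfl

theorem bsz_sub (a : Fin n → ℕ) (S : Finset (Fin n)) (k : ℕ) :
    bsz (sub a S) k ≤ n + ∑ i, Nat.size (a i) + Nat.size k := by
  unfold bsz sub
  rw [List.map_map, sum_sub, List.length_map]
  have h1 : ((List.finRange n).filter fun i => i ∈ S).length ≤ n :=
    (List.length_filter_le _ _).trans (le_of_eq List.length_finRange)
  have h2 : ∑ i ∈ S, (Nat.size ∘ a) i ≤ ∑ i, Nat.size (a i) :=
    Finset.sum_le_sum_of_subset (Finset.subset_univ S)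
  omega

/-- the sum of the sublist is close to an integer -/
def Near (a : Fin n → ℕ) (p : ℕ) (S : Finset (Fin n)) : Prop :=
  ∃ k : ℕ, |∑ i ∈ S, √(a i : ℝ) - k| * 2 ^ (1 + p) < 1

theorem near_far {a : Fin n → ℕ} {J : Finset (Fin n)} (h1 : ∀ i ∈ J, ¬ IsSquare (a i))
    (h2 : ∀ i ∈ J, ∀ j ∈ J, i ≠ j → ¬ IsSquare (a i * a j)) {m : ℕ} {S S' : Finset (Fin n)}
    (hS : Near a ((∑ i, Nat.size (a i) + 2) * 2 ^ (m + 1)) S)
    (hS' : Near a ((∑ i, Nat.size (a i) + 2) * 2 ^ (m + 1)) S')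
    (hJ : symmDiff S S' ⊆ J) (hm : (symmDiff S S').card ≤ m) : S = S' := by
  classical
  by_contra hne
  obtain ⟨k₁, hk₁⟩ := hS
  obtain ⟨k₂, hk₂⟩ := hS'
  have hsf1 : ∀ i ∈ J, sf (a i) ≠ 1 := by
    intro i hi h
    apply h1 i hi
    have h3 := (sf_spec (a i)).1
    rw [h, mul_one] at h3
    exact ⟨rt (a i), by rw [← pow_two, h3]⟩
  have hsf2 : ∀ i ∈ J, ∀ j ∈ J, i ≠ j → sf (a i) ≠ sf (a j) := by
    intro i hi j hj hij h
    apply h2 i hi j hj hij
    have h3 := (sf_spec (a i)).1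
    have h4 := (sf_spec (a j)).1
    refine ⟨rt (a i) * rt (a j) * sf (a j), ?_⟩
    calc a i * a j = (rt (a i) ^ 2 * sf (a i)) * (rt (a j) ^ 2 * sf (a j)) := by rw [h3, h4]
      _ = rt (a i) * rt (a j) * sf (a j) * (rt (a i) * rt (a j) * sf (a j)) := by
          rw [h]
          ring
  have h0 : ∀ i ∈ J, a i ≠ 0 := fun i hi h => h1 i hi (by rw [h]; exact ⟨0, rfl⟩)
  set F : Finset (Fin n) := symmDiff S S' with hF
  obtain ⟨j, hj⟩ : F.Nonempty := by
    rw [Finset.nonempty_iff_ne_empty]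
    intro h
    rw [hF] at h
    exact hne (symmDiff_eq_bot.1 h)
  have hjJ : j ∈ J := hJ hj
  set d : Fin n → ℕ := fun i => if i ∈ S then a i else 0 with hd
  set d' : Fin n → ℕ := fun i => if i ∈ S' then a i else 0 with hd'
  have hDs : ∀ c ∈ insert 1 (F.image fun i => sf (a i)), Squarefree c := by
    intro c hc
    rw [Finset.mem_insert, Finset.mem_image] at hc
    rcases hc with rfl | ⟨i, -, rfl⟩
    · exact squarefree_one
    · exact (sf_spec _).2
  have hDm : ∀ i ∈ F, d i ≠ 0 → sf (d i) ∈ insert 1 (F.image fun i => sf (a i)) := by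
    intro i hi h
    simp only [hd] at h ⊢
    split_ifs at h ⊢
    · exact Finset.mem_insert_of_mem (Finset.mem_image_of_mem _ hi)
    · exact absurd rfl h
  have hDm' : ∀ i ∈ F, d' i ≠ 0 → sf (d' i) ∈ insert 1 (F.image fun i => sf (a i)) := by
    intro i hi h
    simp only [hd'] at h ⊢
    split_ifs at h ⊢
    · exact Finset.mem_insert_of_mem (Finset.mem_image.2 ⟨i, hi, rfl⟩)
    · exact absurd rfl h
  have hcard : (insert 1 (F.image fun i => sf (a i))).card ≤ m + 1 :=
    (Finset.card_insert_le _ _).trans (Nat.succ_le_succ (Finset.card_image_le.trans hm))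
  have hoff : ∀ i ∈ F, i ≠ j → co (sf (a j)) (a i) = 0 := by
    intro i hi hij
    unfold co
    rw [if_neg (hsf2 i (hJ hi) j hjJ hij)]
  have hsum : (∑ i ∈ F, (co (sf (a j)) (d i) - co (sf (a j)) (d' i))) -
      (if sf (a j) = 1 then ((k₁ : ℤ) - k₂) else 0) ≠ 0 := by
    rw [if_neg (hsf1 j hjJ), sub_zero, Finset.sum_eq_single j]
    · have h3 : co (sf (a j)) (a j) ≠ 0 := by
        unfold co
        rw [if_pos rfl]
        have := rt_pos (h0 j hjJ)
        exact_mod_cast this.ne'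
      rw [hF, Finset.mem_symmDiff] at hj
      rcases hj with ⟨h4, h5⟩ | ⟨h4, h5⟩
      · simp only [hd, hd', if_pos h4, if_neg h5]
        rw [co_zero, sub_zero]
        exact h3
      · simp only [hd, hd', if_pos h4, if_neg h5]
        rw [co_zero, zero_sub]
        exact neg_ne_zero.2 h3
    · intro i hi hij
      simp only [hd, hd']
      split_ifs <;> simp [co_zero, hoff i hi hij]
    · intro h
      exact absurd hj h
  set V : ℝ := ∑ i ∈ S, √(a i : ℝ) with hV
  set V' : ℝ := ∑ i ∈ S', √(a i : ℝ) with hV'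
  set s0 : ℕ := ∑ i, Nat.size (a i) with hs0
  have hall : ∑ i, √(a i : ℝ) ≤ 2 ^ s0 :=
    sqsum (A := fun i => {a i}) (N := a)
      (fun i y hy => by rw [Finset.mem_singleton] at hy; rw [hy])
      (by rw [Fintype.mem_piFinset]; exact fun i => Finset.mem_singleton_self _)
  have hW : V ≤ 2 ^ s0 := (Finset.sum_le_sum_of_subset_of_nonneg (Finset.subset_univ _)
    fun i _ _ => Real.sqrt_nonneg _).trans hall
  have hW' : V' ≤ 2 ^ s0 := (Finset.sum_le_sum_of_subset_of_nonneg (Finset.subset_univ _)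
    fun i _ _ => Real.sqrt_nonneg _).trans hall
  have hV0 : 0 ≤ V := Finset.sum_nonneg fun i _ => Real.sqrt_nonneg _
  have hV0' : 0 ≤ V' := Finset.sum_nonneg fun i _ => Real.sqrt_nonneg _
  have hp1 : (1 : ℝ) ≤ 2 ^ (1 + (s0 + 2) * 2 ^ (m + 1)) := one_le_pow₀ (by norm_num)
  have ha1 : |V - k₁| < 1 := by
    have := mul_le_mul_of_nonneg_left hp1 (abs_nonneg (V - k₁))
    linarith
  have ha2 : |V' - k₂| < 1 := by
    have := mul_le_mul_of_nonneg_left hp1 (abs_nonneg (V' - k₂))
    linarith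
  rw [abs_lt] at ha1 ha2
  have hone : (1 : ℝ) ≤ 2 ^ s0 := one_le_pow₀ (by norm_num)
  have hpow : (2 : ℝ) ^ (s0 + 2) = 4 * 2 ^ s0 := by
    rw [pow_add]
    ring
  have hk0 : (0 : ℝ) ≤ k₁ := Nat.cast_nonneg _
  have hk0' : (0 : ℝ) ≤ k₂ := Nat.cast_nonneg _
  have hdV : ∑ i, √(d i : ℝ) = V := by
    have e : ∀ i, √(d i : ℝ) = if i ∈ S then √(a i : ℝ) else 0 := by
      intro i
      simp only [hd]
      split_ifs <;> simp
    simp only [e]
    rw [Finset.sum_ite_mem, Finset.univ_inter]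
  have hdV' : ∑ i, √(d' i : ℝ) = V' := by
    have e : ∀ i, √(d' i : ℝ) = if i ∈ S' then √(a i : ℝ) else 0 := by
      intro i
      simp only [hd']
      split_ifs <;> simp
    simp only [e]
    rw [Finset.sum_ite_mem, Finset.univ_inter]
  have hSb : ∑ i ∈ F, (√(d i : ℝ) + √(d' i : ℝ)) + |(((k₁ : ℤ) - k₂ : ℤ) : ℝ)| ≤
      2 ^ (s0 + 2) := by
    have h3 : ∑ i ∈ F, (√(d i : ℝ) + √(d' i : ℝ)) ≤ V + V' := by
      rw [Finset.sum_add_distrib, ← hdV, ← hdV']
      exact add_le_add
        (Finset.sum_le_sum_of_subset_of_nonneg (Finset.subset_univ _)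
          fun i _ _ => Real.sqrt_nonneg _)
        (Finset.sum_le_sum_of_subset_of_nonneg (Finset.subset_univ _)
          fun i _ _ => Real.sqrt_nonneg _)
    have h4 : |(((k₁ : ℤ) - k₂ : ℤ) : ℝ)| ≤ 2 ^ s0 + 1 := by
      push_cast
      rw [abs_le]
      constructor <;> linarith
    rw [hpow]
    linarith
  have key := sepf d d' ((k₁ : ℤ) - k₂) F (Finset.mem_insert_self _ _) hDs hDm hDm'
    ⟨sf (a j), Finset.mem_insert_of_mem (Finset.mem_image.2 ⟨j, hj, rfl⟩), hsum⟩
    (one_le_pow₀ (by norm_num)) hSb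
  have hval : ∑ i ∈ F, (√(d i : ℝ) - √(d' i : ℝ)) - (((k₁ : ℤ) - k₂ : ℤ) : ℝ) =
      (V - k₁) - (V' - k₂) := by
    have h3 : ∑ i ∈ F, (√(d i : ℝ) - √(d' i : ℝ)) = V - V' := by
      rw [← hdV, ← hdV', ← Finset.sum_sub_distrib]
      refine Finset.sum_subset (Finset.subset_univ _) fun i _ hi => ?_
      rw [hF, Finset.mem_symmDiff, not_or, not_and, not_and, not_not, not_not] at hi
      by_cases h : i ∈ S
      · simp only [hd, hd', if_pos h, if_pos (hi.1 h), sub_self]
      · have h' : i ∉ S' := fun h' => h (hi.2 h')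
        simp only [hd, hd', if_neg h, if_neg h', sub_self]
    rw [h3]
    push_cast
    ring
  rw [hval] at key
  have hexp : ((2 : ℝ) ^ (s0 + 2)) ^ (2 ^ (insert 1 (F.image fun i => sf (a i))).card - 1) ≤
      2 ^ ((s0 + 2) * 2 ^ (m + 1)) := by
    rw [← pow_mul]
    refine pow_le_pow_right₀ (by norm_num) ?_
    exact Nat.mul_le_mul_left _
      ((Nat.sub_le _ _).trans (Nat.pow_le_pow_right (by norm_num) hcard))
  have hlow : 1 ≤ |(V - k₁) - (V' - k₂)| * 2 ^ ((s0 + 2) * 2 ^ (m + 1)) :=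
    key.trans (mul_le_mul_of_nonneg_left hexp (abs_nonneg _))
  have hup : |(V - k₁) - (V' - k₂)| ≤ |V - k₁| + |V' - k₂| := abs_sub _ _
  rw [pow_add, pow_one] at hk₁ hk₂
  have hP : (0 : ℝ) < 2 ^ ((s0 + 2) * 2 ^ (m + 1)) := by positivity
  have hup' := mul_le_mul_of_nonneg_right hup hP.le
  nlinarith

/-- the anticode bound -/
theorem anticode {H : Finset (Finset (Fin n))} {J : Finset (Fin n)} {m : ℕ}
    (hH : ∀ S ∈ H, ∀ S' ∈ H, symmDiff S S' ⊆ J → (symmDiff S S').card ≤ m → S = S')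
    (E : Finset (Finset (Fin n))) (h1 : ∀ X ∈ E, X ⊆ J)
    (h2 : ∀ X ∈ E, ∀ Y ∈ E, (symmDiff X Y).card ≤ m) : H.card * E.card ≤ 2 ^ n := by
  rw [← Finset.card_product]
  have h3 : (2 : ℕ) ^ n = (Finset.univ : Finset (Finset (Fin n))).card := by
    rw [Finset.card_univ, Fintype.card_finset, Fintype.card_fin]
  rw [h3]
  refine Finset.card_le_card_of_injOn (fun z => symmDiff z.1 z.2)
    (fun z _ => Finset.mem_coe.2 (Finset.mem_univ _)) ?_
  rintro ⟨S, X⟩ hz ⟨S', Y⟩ hz' he
  rw [Finset.mem_coe, Finset.mem_product] at hz hz'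
  have he' : symmDiff S X = symmDiff S' Y := he
  have h4 : symmDiff S S' = symmDiff X Y := by
    ext i
    have hi := Finset.ext_iff.1 he' i
    simp only [Finset.mem_symmDiff] at hi ⊢
    tauto
  have h5 : symmDiff S S' ⊆ J := by
    rw [h4]
    intro i hi
    rw [Finset.mem_symmDiff] at hi
    rcases hi with hi | hi
    · exact h1 X hz.2 hi.1
    · exact h1 Y hz'.2 hi.1
  have h6 : S = S' := hH S hz.1 S' hz'.1 h5 (by rw [h4]; exact h2 X hz.2 Y hz'.2)
  subst h6
  have h7 : X = Y := symmDiff_right_injective S he'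
  rw [h7]

end Pool.Agent.H41.RC
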