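import Mathlib

/-!
# Plotkin's bound
-/

set_option autoImplicit false

namespace Pool.Agent.H41.RC

variable {n : ℕ}

/-- sets with pairwise symmetric differences inside `J` of more than `m` elements, `J` with at most `2 m + 1` elements -/
theorem plotkin0 {C : Finset (Finset (Fin n))} {J : Finset (Fin n)} {m : ℕ}
    (hC : ∀ S ∈ C, ∀ S' ∈ C, symmDiff S S' ⊆ J)
    (hm : ∀ S ∈ C, ∀ S' ∈ C, S ≠ S' → m < (symmDiff S S').card) (hJ : J.card ≤ 2 * m + 1) :
    C.card ≤ 2 * (m + 1) := by
  classical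
  set N : ℕ := C.card with hN
  -- the sum of the distances from below
  have h1 : N * (N - 1) * (m + 1) ≤ ∑ S ∈ C, ∑ S' ∈ C, (symmDiff S S').card := by
    calc N * (N - 1) * (m + 1) = ∑ _S ∈ C, (N - 1) * (m + 1) := by
          rw [Finset.sum_const, smul_eq_mul, mul_assoc]
      _ ≤ ∑ S ∈ C, ∑ S' ∈ C, (symmDiff S S').card := by
          refine Finset.sum_le_sum fun S hS => ?_
          calc (N - 1) * (m + 1) = ∑ _S' ∈ C.erase S, (m + 1) := by
                rw [Finset.sum_const, smul_eq_mul, Finset.card_erase_of_mem hS]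
            _ ≤ ∑ S' ∈ C.erase S, (symmDiff S S').card :=
                Finset.sum_le_sum fun S' hS' =>
                  hm S hS S' (Finset.mem_of_mem_erase hS') (Finset.ne_of_mem_erase hS').symm
            _ ≤ ∑ S' ∈ C, (symmDiff S S').card :=
                Finset.sum_le_sum_of_subset (Finset.erase_subset _ _)
  -- and from above
  have h2 : ∑ S ∈ C, ∑ S' ∈ C, (symmDiff S S').card =
      ∑ j ∈ J, ∑ S ∈ C, ∑ S' ∈ C, (if j ∈ symmDiff S S' then 1 else 0) := by
    have e : ∀ S ∈ C, ∀ S' ∈ C, (symmDiff S S').card =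
        ∑ j ∈ J, (if j ∈ symmDiff S S' then 1 else 0) := by
      intro S hS S' hS'
      rw [← Finset.card_filter]
      congr 1
      ext j
      rw [Finset.mem_filter]
      exact ⟨fun h => ⟨hC S hS S' hS' h, h⟩, fun h => h.2⟩
    rw [Finset.sum_congr rfl fun S hS => Finset.sum_congr rfl fun S' hS' => e S hS S' hS']
    rw [Finset.sum_comm]
    rw [Finset.sum_congr rfl fun S' _ => Finset.sum_comm]
    rw [Finset.sum_comm]
    exact Finset.sum_congr rfl fun j _ => Finset.sum_comm
  have h3 : ∀ j ∈ J, 2 * ∑ S ∈ C, ∑ S' ∈ C, (if j ∈ symmDiff S S' then 1 else 0) ≤ N * N := by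
    intro j _
    set u : ℕ := (C.filter fun S => j ∈ S).card with hu
    set v : ℕ := (C.filter fun S => j ∉ S).card with hv
    have huv : u + v = N := by
      rw [hu, hv, hN]
      exact Finset.card_filter_add_card_filter_not (s := C) (fun S => j ∈ S)
    have e1 : ∀ S ∈ C, ∑ S' ∈ C, (if j ∈ symmDiff S S' then 1 else 0) =
        if j ∈ S then v else u := by
      intro S _
      rw [← Finset.card_filter]
      by_cases h : j ∈ S
      · rw [if_pos h, hv]
        congr 1
        ext S'
        simp only [Finset.mem_filter, Finset.mem_symmDiff]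
        tauto
      · rw [if_neg h, hu]
        congr 1
        ext S'
        simp only [Finset.mem_filter, Finset.mem_symmDiff]
        tauto
    rw [Finset.sum_congr rfl e1, Finset.sum_ite, Finset.sum_const, Finset.sum_const, smul_eq_mul,
      smul_eq_mul, ← hu, ← hv, ← huv]
    nlinarith [sq_nonneg ((u : ℤ) - v), Nat.cast_nonneg (α := ℤ) u, mul_self_nonneg ((u : ℤ) - v)]
  have h4 : 2 * (N * (N - 1) * (m + 1)) ≤ (2 * m + 1) * (N * N) := by
    calc 2 * (N * (N - 1) * (m + 1)) ≤ 2 * ∑ S ∈ C, ∑ S' ∈ C, (symmDiff S S').card :=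
          Nat.mul_le_mul_left _ h1
      _ = ∑ j ∈ J, 2 * ∑ S ∈ C, ∑ S' ∈ C, (if j ∈ symmDiff S S' then 1 else 0) := by
          rw [h2, Finset.mul_sum]
      _ ≤ ∑ _j ∈ J, N * N := Finset.sum_le_sum h3
      _ = J.card * (N * N) := by rw [Finset.sum_const, smul_eq_mul]
      _ ≤ (2 * m + 1) * (N * N) := Nat.mul_le_mul_right _ hJ
  by_contra hlt
  push Not at hlt
  obtain ⟨M, hM⟩ : ∃ M, N = M + 1 := ⟨N - 1, by omega⟩
  rw [hM, Nat.add_sub_cancel] at h4
  rw [hM] at hlt
  have h5 : 2 * m + 1 < M := by omega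
  nlinarith

theorem plotkin {H : Finset (Finset (Fin n))} {J : Finset (Fin n)} {m : ℕ}
    (hH : ∀ S ∈ H, ∀ S' ∈ H, symmDiff S S' ⊆ J → (symmDiff S S').card ≤ m → S = S')
    (hJ : J.card ≤ 2 * m + 1) : H.card * 2 ^ J.card ≤ 2 * (m + 1) * 2 ^ n := by
  classical
  have h1 : H.card = ∑ X ∈ (Finset.univ \ J).powerset, (H.filter fun S => S \ J = X).card :=
    Finset.card_eq_sum_card_fiberwise fun S _ => by
      rw [Finset.mem_coe, Finset.mem_powerset]
      exact Finset.sdiff_subset_sdiff (Finset.subset_univ S) subset_rfl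
  have h2 : ∀ X ∈ (Finset.univ \ J).powerset,
      (H.filter fun S => S \ J = X).card ≤ 2 * (m + 1) := by
    intro X _
    have hsub : ∀ S ∈ H.filter (fun S => S \ J = X), ∀ S' ∈ H.filter (fun S => S \ J = X),
        symmDiff S S' ⊆ J := by
      intro S hS S' hS' i hi
      rw [Finset.mem_filter] at hS hS'
      by_contra hiJ
      have e := hS.2.trans hS'.2.symm
      have e2 := Finset.ext_iff.1 e i
      simp only [Finset.mem_sdiff, hiJ, not_false_eq_true, and_true] at e2
      rw [Finset.mem_symmDiff] at hi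
      tauto
    refine plotkin0 (J := J) hsub (fun S hS S' hS' hne => ?_) hJ
    by_contra h
    exact hne (hH S (Finset.mem_filter.1 hS).1 S' (Finset.mem_filter.1 hS').1
      (hsub S hS S' hS') (not_lt.1 h))
  have h3 : (Finset.univ \ J).powerset.card * 2 ^ J.card = 2 ^ n := by
    rw [Finset.card_powerset, Finset.card_univ_sdiff, Fintype.card_fin, ← pow_add]
    congr 1
    have := (Finset.card_le_univ J).trans (le_of_eq (Fintype.card_fin n))
    omega
  calc H.card * 2 ^ J.card ≤ (∑ _X ∈ (Finset.univ \ J).powerset, 2 * (m + 1)) * 2 ^ J.card := by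
        rw [h1]
        exact Nat.mul_le_mul_right _ (Finset.sum_le_sum h2)
    _ = 2 * (m + 1) * ((Finset.univ \ J).powerset.card * 2 ^ J.card) := by
        rw [Finset.sum_const, smul_eq_mul]
        ring
    _ = 2 * (m + 1) * 2 ^ n := by rw [h3]

end Pool.Agent.H41.RC
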