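import Pool.Agent.H41.RC.Code
import Pool.Agent.H41.RC.Plotkin

/-!
# The hard sublists of every list are few and far apart
-/

set_option autoImplicit false

namespace Pool.Agent.H41.RC

open Pool.Agent.H92.SR Pool.Agent.H92.SR.Tr Pool.Agent.H8.SS

theorem symm_gap {n : ℕ} {a : Fin n → ℕ} {p : ℕ} {S : Finset (Fin n)} {k : ℤ}
    (h : |∑ i ∈ S, √(a i : ℝ) - k| * 2 ^ (1 + p) < 1) : Near a p S := by
  have hp1 : (1 : ℝ) ≤ 2 ^ (1 + p) := one_le_pow₀ (by norm_num)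
  have h1 : |∑ i ∈ S, √(a i : ℝ) - k| < 1 := by
    have := mul_le_mul_of_nonneg_left hp1 (abs_nonneg (∑ i ∈ S, √(a i : ℝ) - k))
    linarith
  have h0 : 0 ≤ ∑ i ∈ S, √(a i : ℝ) := Finset.sum_nonneg fun i _ => Real.sqrt_nonneg _
  have hk : 0 ≤ k := by
    by_contra hk
    have h2 : (k : ℝ) ≤ -1 := by exact_mod_cast (by omega : k ≤ -1)
    rw [abs_lt] at h1
    linarith
  have h2 : (k : ℝ) = (k.toNat : ℝ) := by
    have h3 : (k.toNat : ℤ) = k := Int.toNat_of_nonneg hk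
    rw [← Int.cast_natCast, h3]
  exact ⟨k.toNat, by rw [← h2]; exact h⟩

open Classical in
theorem codeMain : ∃ (c : Prog) (T : List ℕ → ℤ → ℕ) (q : Polynomial ℕ) (Λ : ℕ), 1 ≤ Λ ∧
    (∀ (L : List ℕ) (k : ℤ),
      Eval c (encS L k) (bit (decide ((k : ℝ) ≤ (L.map fun a : ℕ => √(a : ℝ)).sum))) (T L k)) ∧
    ∀ (n : ℕ) (a : Fin n → ℕ) (J : Finset (Fin n)), (∀ i ∈ J, ¬ IsSquare (a i)) →
      (∀ i ∈ J, ∀ j ∈ J, i ≠ j → ¬ IsSquare (a i * a j)) →
      ∀ (m : ℕ) (H : Finset (Finset (Fin n))),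
        (∀ S ∈ H, ∃ k : ℤ, q.eval (n + ∑ i, Nat.size (a i) + Nat.size k.natAbs) * Λ ^ m <
            T (((List.finRange n).filter fun i => i ∈ S).map a) k ∨
          |∑ i ∈ S, √(a i : ℝ) - k| * 2 ^ (1 + (∑ i, Nat.size (a i) + 2) * 2 ^ (m + 1)) < 1) →
        (∀ S ∈ H, ∀ S' ∈ H, symmDiff S S' ⊆ J → (symmDiff S S').card ≤ m → S = S') ∧
        (∀ E : Finset (Finset (Fin n)), (∀ X ∈ E, X ⊆ J) →
          (∀ X ∈ E, ∀ Y ∈ E, (symmDiff X Y).card ≤ m) → H.card * E.card ≤ 2 ^ n) ∧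
        (J.card ≤ 2 * m + 1 → H.card * 2 ^ J.card ≤ 2 * (m + 1) * 2 ^ n) := by
  obtain ⟨c, T, q, hE, hT1, -⟩ := tim0
  obtain ⟨c', q', h'⟩ := ge0 c T hE
  choose T' hT' hE' using h'
  have hΛ : 1 ≤ 2 ^ q.natDegree := Nat.one_le_pow _ _ (by norm_num)
  have hev : ∀ x : ℕ, (q.comp (3 * Polynomial.X + 5)).eval x = q.eval (3 * x + 5) := by
    intro x
    simp [Polynomial.eval_comp]
  refine ⟨c', T', q.comp (3 * Polynomial.X + 5) + q', 2 ^ q.natDegree, hΛ, hE', ?_⟩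
  intro n a J h1 h2 m H hH
  -- hard implies near
  have hnear : ∀ S ∈ H, Near a ((∑ i, Nat.size (a i) + 2) * 2 ^ (m + 1)) S := by
    intro S hS
    obtain ⟨k, hk | hk⟩ := hH S hS
    · by_contra hn
      unfold Near at hn
      push Not at hn
      set s : ℕ := n + ∑ i, Nat.size (a i) + Nat.size k.natAbs with hs
      have h3 : bsz (sub a S) k.natAbs ≤ s := bsz_sub a S _
      have h4 : 1 ≤ |EE (sub a S) k.natAbs| *
          2 ^ (1 + (∑ i, Nat.size (a i) + 2) * 2 ^ (m + 1)) := by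
        rw [EE_sub]
        exact hn _
      have h5 := hT1 (sub a S) k.natAbs _ h4
      have h6 : 1 ≤ 2 ^ m := Nat.one_le_pow _ _ (by norm_num)
      have h7 : bsz (sub a S) k.natAbs + (1 + (∑ i, Nat.size (a i) + 2) * 2 ^ (m + 1)) ≤
          (3 * s + 5) * 2 ^ m := by
        have e1 : (∑ i, Nat.size (a i) + 2) * 2 ^ (m + 1) ≤ (s + 2) * 2 ^ (m + 1) :=
          Nat.mul_le_mul_right _ (by omega)
        have e2 : (s + 2) * 2 ^ (m + 1) = (2 * s + 4) * 2 ^ m := by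
          rw [pow_succ]
          ring
        have e3 : (3 * s + 5) * 2 ^ m = s * 2 ^ m + (2 * s + 4) * 2 ^ m + 2 ^ m := by ring
        have e4 : s * 1 ≤ s * 2 ^ m := Nat.mul_le_mul_left _ h6
        omega
      have h8 : T (sub a S) k.natAbs ≤
          (q.comp (3 * Polynomial.X + 5)).eval s * (2 ^ q.natDegree) ^ m := by
        rw [hev]
        refine (h5.trans (poly_mono q h7)).trans ?_
        refine (poly_scale q _ h6).trans (le_of_eq ?_)
        rw [← pow_mul, ← pow_mul, mul_comm m]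
      have h9 := hT' (sub a S) k
      have h10 : q'.eval (szs (sub a S) k) ≤ q'.eval s := poly_mono q' h3
      have h11 : q'.eval s ≤ q'.eval s * (2 ^ q.natDegree) ^ m :=
        Nat.le_mul_of_pos_right _ (pow_pos hΛ m)
      rw [Polynomial.eval_add, add_mul] at hk
      change _ < T' (sub a S) k at hk
      omega
    · exact symm_gap hk
  have hcode : ∀ S ∈ H, ∀ S' ∈ H, symmDiff S S' ⊆ J → (symmDiff S S').card ≤ m → S = S' :=
    fun S hS S' hS' => near_far h1 h2 (hnear S hS) (hnear S' hS')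
  exact ⟨hcode, fun E => anticode hcode E, fun hJ => plotkin hcode hJ⟩

end Pool.Agent.H41.RC
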