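import Pool.Agent.H41.RC.WMain

/-!
# Bad lists with a few random entries

Two bad lists which agree off `G` have the same square classes (other than that of the squares) on `G`. If the law of each
entry in `G` gives the squares and any `m` further square classes together a probability at most `θ`, `m` the number of
elements of `G`, the probability that the list is bad is at most `θ ^ m`.
-/

set_option autoImplicit false

namespace Pool.Agent.H41.RC

open Pool.Agent.H92.SR Pool.Agent.H92.SR.Tr Pool.Agent.H8.SS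

variable {n : ℕ}

open Classical in
/-- two bad lists which agree off `G` have the same classes on `G` -/
theorem bad_cls {N x x' : Fin n → ℕ} (hx : ∀ i, x i ≤ N i) (hx' : ∀ i, x' i ≤ N i)
    {G : Finset (Fin n)} (hG : ∀ i, i ∉ G → x i = x' i) {u : ℕ} (hu : 2 * G.card + 1 ≤ u)
    (hb : badp ((∑ i, Nat.size (N i) + 2) * 2 ^ u) x)
    (hb' : badp ((∑ i, Nat.size (N i) + 2) * 2 ^ u) x') {i : Fin n} (hi : i ∈ G)
    (h0 : x' i ≠ 0) (h1 : sf (x' i) ≠ 1) : ∃ j ∈ G, sf (x j) = sf (x' i) := by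
  by_contra hno
  push Not at hno
  obtain ⟨k₁, hk₁⟩ := hb
  obtain ⟨k₂, hk₂⟩ := hb'
  set d : ℕ := sf (x' i) with hd
  set D : Finset ℕ := insert 1 (G.image (fun i => sf (x i)) ∪ G.image fun i => sf (x' i))
    with hDdef
  have hDs : ∀ c ∈ D, Squarefree c := by
    intro c hc
    rw [hDdef, Finset.mem_insert, Finset.mem_union, Finset.mem_image, Finset.mem_image] at hc
    rcases hc with rfl | ⟨i, -, rfl⟩ | ⟨i, -, rfl⟩
    · exact squarefree_one
    · exact (sf_spec _).2
    · exact (sf_spec _).2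
  have hcard : D.card ≤ u := by
    refine le_trans ?_ hu
    refine (Finset.card_insert_le _ _).trans (Nat.succ_le_succ ?_)
    refine (Finset.card_union_le _ _).trans ?_
    have h2 := Finset.card_image_le (s := G) (f := fun i => sf (x i))
    have h3 := Finset.card_image_le (s := G) (f := fun i => sf (x' i))
    omega
  have hdD : d ∈ D := by
    rw [hDdef]
    exact Finset.mem_insert_of_mem (Finset.mem_union_right _
      (Finset.mem_image.2 ⟨i, hi, rfl⟩))
  have hsum : (∑ j ∈ G, (co d (x j) - co d (x' j))) -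
      (if d = 1 then ((k₁ : ℤ) - k₂) else 0) ≠ 0 := by
    rw [if_neg h1, sub_zero]
    have h2 : ∑ j ∈ G, (co d (x j) - co d (x' j)) = -∑ j ∈ G, co d (x' j) := by
      rw [← Finset.sum_neg_distrib]
      refine Finset.sum_congr rfl fun j hj => ?_
      have h3 : co d (x j) = 0 := by
        unfold co
        rw [if_neg (hno j hj)]
      rw [h3, zero_sub]
    rw [h2]
    have h3 : 0 < co d (x' i) := by
      unfold co
      rw [if_pos hd.symm]
      exact_mod_cast rt_pos h0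
    have h4 : co d (x' i) ≤ ∑ j ∈ G, co d (x' j) :=
      Finset.single_le_sum (f := fun j => co d (x' j)) (fun j _ => co_nonneg d (x' j)) hi
    omega
  rw [EE_ofFn] at hk₁ hk₂
  set V : ℝ := ∑ i, √(x i : ℝ) with hV
  set V' : ℝ := ∑ i, √(x' i : ℝ) with hV'
  set s0 : ℕ := ∑ i, Nat.size (N i) with hs0
  have hW : V ≤ 2 ^ s0 := sqsum' hx
  have hW' : V' ≤ 2 ^ s0 := sqsum' hx'
  have hV0 : 0 ≤ V := Finset.sum_nonneg fun i _ => Real.sqrt_nonneg _
  have hV0' : 0 ≤ V' := Finset.sum_nonneg fun i _ => Real.sqrt_nonneg _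
  have hp1 : (1 : ℝ) ≤ 2 ^ (1 + (s0 + 2) * 2 ^ u) := one_le_pow₀ (by norm_num)
  have ha1 : |V - k₁| < 1 := by
    have := mul_le_mul_of_nonneg_left hp1 (abs_nonneg (V - k₁))
    linarith
  have ha2 : |V' - k₂| < 1 := by
    have := mul_le_mul_of_nonneg_left hp1 (abs_nonneg (V' - k₂))
    linarith
  rw [abs_lt] at ha1 ha2
  have hone : (1 : ℝ) ≤ 2 ^ s0 := one_le_pow₀ (by norm_num)
  have hpow : (2 : ℝ) ^ (s0 + 2) = 4 * 2 ^ s0 := by
    rw [pow_add]
    ring
  have hk0 : (0 : ℝ) ≤ k₁ := Nat.cast_nonneg _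
  have hk0' : (0 : ℝ) ≤ k₂ := Nat.cast_nonneg _
  have hSb : ∑ j ∈ G, (√(x j : ℝ) + √(x' j : ℝ)) + |(((k₁ : ℤ) - k₂ : ℤ) : ℝ)| ≤
      2 ^ (s0 + 2) := by
    have h1 : ∑ j ∈ G, (√(x j : ℝ) + √(x' j : ℝ)) ≤ V + V' := by
      rw [Finset.sum_add_distrib]
      exact add_le_add
        (Finset.sum_le_sum_of_subset_of_nonneg (Finset.subset_univ _)
          fun i _ _ => Real.sqrt_nonneg _)
        (Finset.sum_le_sum_of_subset_of_nonneg (Finset.subset_univ _)
          fun i _ _ => Real.sqrt_nonneg _)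
    have h2 : |(((k₁ : ℤ) - k₂ : ℤ) : ℝ)| ≤ 2 ^ s0 + 1 := by
      push_cast
      rw [abs_le]
      constructor <;> linarith
    rw [hpow]
    linarith
  have key := sepf x x' ((k₁ : ℤ) - k₂) G (D := D) (Finset.mem_insert_self _ _) hDs
    (fun j hj _ => Finset.mem_insert_of_mem (Finset.mem_union_left _
      (Finset.mem_image.2 ⟨j, hj, rfl⟩)))
    (fun j hj _ => Finset.mem_insert_of_mem (Finset.mem_union_right _
      (Finset.mem_image.2 ⟨j, hj, rfl⟩)))
    ⟨d, hdD, hsum⟩ (one_le_pow₀ (by norm_num)) hSb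
  have hval : ∑ j ∈ G, (√(x j : ℝ) - √(x' j : ℝ)) - (((k₁ : ℤ) - k₂ : ℤ) : ℝ) =
      (V - k₁) - (V' - k₂) := by
    have h1 : ∑ j ∈ G, (√(x j : ℝ) - √(x' j : ℝ)) = V - V' := by
      rw [hV, hV', ← Finset.sum_sub_distrib]
      refine Finset.sum_subset (Finset.subset_univ _) fun j _ hj => ?_
      rw [hG j hj, sub_self]
    rw [h1]
    push_cast
    ring
  rw [hval] at key
  have hexp : ((2 : ℝ) ^ (s0 + 2)) ^ (2 ^ D.card - 1) ≤ 2 ^ ((s0 + 2) * 2 ^ u) := by
    rw [← pow_mul]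
    refine pow_le_pow_right₀ (by norm_num) ?_
    have h1 : 2 ^ D.card ≤ 2 ^ u := Nat.pow_le_pow_right (by norm_num) hcard
    exact Nat.mul_le_mul_left _ ((Nat.sub_le _ _).trans h1)
  have hlow : 1 ≤ |(V - k₁) - (V' - k₂)| * 2 ^ ((s0 + 2) * 2 ^ u) :=
    key.trans (mul_le_mul_of_nonneg_left hexp (abs_nonneg _))
  have hup : |(V - k₁) - (V' - k₂)| ≤ |V - k₁| + |V' - k₂| := abs_sub _ _
  rw [pow_add, pow_one] at hk₁ hk₂
  have hP : (0 : ℝ) < 2 ^ ((s0 + 2) * 2 ^ u) := by positivity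
  have hup' := mul_le_mul_of_nonneg_right hup hP.le
  nlinarith

/-- the lists with entries at most `N` -/
def lists (N : Fin n → ℕ) : Finset (Fin n → ℕ) := Fintype.piFinset fun i => Finset.range (N i + 1)

theorem mem_lists {N x : Fin n → ℕ} : x ∈ lists N ↔ ∀ i, x i ≤ N i := by
  unfold lists
  rw [Fintype.mem_piFinset]
  exact forall_congr' fun i => by rw [Finset.mem_range, Nat.lt_succ_iff]

/-- a square, or a square after multiplication by an element of `C` -/
def Sq (C : Finset ℕ) (a : ℕ) : Prop := IsSquare a ∨ ∃ c ∈ C, IsSquare (c * a)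

open Classical in
/-- given the other entries, the probability of `Sq C` at place `i` is at most `θ` for every set `C` of at most `m`
positive numbers -/
def Thin (N : Fin n → ℕ) (μ : (Fin n → ℕ) → ℝ) (m : ℕ) (θ : ℝ) (i : Fin n) : Prop :=
  ∀ x : Fin n → ℕ, (∀ j, x j ≤ N j) → ∀ C : Finset ℕ, 0 ∉ C → C.card ≤ m →
    ∑ a ∈ (Finset.range (N i + 1)).filter (fun a => Sq C a), μ (Function.update x i a) ≤
      θ * ∑ a ∈ Finset.range (N i + 1), μ (Function.update x i a)

theorem Thin.mono {N : Fin n → ℕ} {μ : (Fin n → ℕ) → ℝ} {m m' : ℕ} {θ : ℝ} {i : Fin n}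
    (h : Thin N μ m θ i) (hm : m' ≤ m) : Thin N μ m' θ i :=
  fun x hx C h0 hC => h x hx C h0 (hC.trans hm)

/-- the entries off `G` -/
def off (G : Finset (Fin n)) (x : Fin n → ℕ) (i : Fin n) : ℕ := if i ∈ G then 0 else x i

theorem off_update (G : Finset (Fin n)) (x : Fin n → ℕ) {i : Fin n} (hi : i ∈ G) (a : ℕ) :
    off G (Function.update x i a) = off G x := by
  funext j
  unfold off
  by_cases hj : j ∈ G
  · rw [if_pos hj, if_pos hj]
  · rw [if_neg hj, if_neg hj, Function.update_of_ne]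
    rintro rfl
    exact hj hi

/-- some list `y ≤ N` which agrees with `x` off `R` is bad -/
def BQ (N : Fin n → ℕ) (R : Finset (Fin n)) (p : ℕ) (x : Fin n → ℕ) : Prop :=
  ∃ y : Fin n → ℕ, (∀ i, y i ≤ N i) ∧ (∀ i, i ∉ R → y i = x i) ∧ badp p y

open Classical in
/-- the classes of the bad lists with given entries off `J` -/
theorem exC (N : Fin n → ℕ) (J R : Finset (Fin n)) (hJR : Disjoint J R) {u : ℕ}
    (hu : 2 * (J ∪ R).card + 1 ≤ u) (z : Fin n → ℕ) :
    ∃ C : Finset ℕ, 0 ∉ C ∧ C.card ≤ (J ∪ R).card ∧ ∀ x : Fin n → ℕ,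
      off J x = z → BQ N R ((∑ i, Nat.size (N i) + 2) * 2 ^ u) x → ∀ i ∈ J, Sq C (x i) := by
  by_cases h : ∃ x : Fin n → ℕ, off J x = z ∧ BQ N R ((∑ i, Nat.size (N i) + 2) * 2 ^ u) x
  · obtain ⟨x₀, hxz₀, y₀, hy₀, hR₀, hb₀⟩ := h
    refine ⟨(J ∪ R).image fun j => sf (y₀ j), ?_, Finset.card_image_le, ?_⟩
    · intro h
      rw [Finset.mem_image] at h
      obtain ⟨j, -, hj⟩ := h
      exact (sf_spec (y₀ j)).2.ne_zero hj
    · rintro x hxz ⟨y, hy, hR, hb⟩ i hi
      have hyi : y i = x i := hR i (Finset.disjoint_left.1 hJR hi)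
      by_cases h0 : x i = 0
      · left
        rw [h0]
        exact ⟨0, by simp⟩
      · by_cases h1 : sf (x i) = 1
        · left
          refine ⟨rt (x i), ?_⟩
          have h2 := (sf_spec (x i)).1
          rw [h1, mul_one, sq] at h2
          exact h2.symm
        · right
          have hout : ∀ j, j ∉ J ∪ R → y₀ j = y j := by
            intro j hj
            rw [Finset.mem_union, not_or] at hj
            rw [hR₀ j hj.2, hR j hj.2]
            have h2 := congrFun (hxz₀.trans hxz.symm) j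
            unfold off at h2
            rwa [if_neg hj.1, if_neg hj.1] at h2
          obtain ⟨j, hj, h2⟩ := bad_cls hy₀ hy hout hu hb₀ hb (Finset.mem_union_left _ hi)
            (by rw [hyi]; exact h0) (by rw [hyi]; exact h1)
          rw [hyi] at h2
          refine ⟨sf (x i), ?_, ?_⟩
          · rw [Finset.mem_image]
            exact ⟨j, hj, h2⟩
          · refine ⟨sf (x i) * rt (x i), ?_⟩
            have h3 := (sf_spec (x i)).1
            calc sf (x i) * x i = sf (x i) * (rt (x i) ^ 2 * sf (x i)) := by rw [h3]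
              _ = sf (x i) * rt (x i) * (sf (x i) * rt (x i)) := by ring
  · refine ⟨∅, Finset.notMem_empty 0, by simp, fun x hxz hxb => ?_⟩
    exact absurd ⟨x, hxz, hxb⟩ h

open Classical in
/-- the product bound, one coordinate after the other -/
theorem thin_prod (N : Fin n → ℕ) (μ : (Fin n → ℕ) → ℝ) {θ : ℝ} (hθ0 : 0 ≤ θ) (G : Finset (Fin n)) {m : ℕ}
    (hG : ∀ i ∈ G, Thin N μ m θ i) (C : (Fin n → ℕ) → Finset ℕ) (hC0 : ∀ z, 0 ∉ C z)
    (hCm : ∀ z, (C z).card ≤ m) (I : Finset (Fin n)) (hI : I ⊆ G) :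
    ∑ x ∈ (lists N).filter (fun x => ∀ i ∈ I, Sq (C (off G x)) (x i)), μ x ≤
      θ ^ I.card * ∑ x ∈ lists N, μ x := by
  induction I using Finset.induction_on with
  | empty => simp
  | insert i I hi ih =>
    have hiG : i ∈ G := hI (Finset.mem_insert_self _ _)
    rw [Finset.card_insert_of_notMem hi, pow_succ', mul_assoc]
    refine le_trans ?_ (mul_le_mul_of_nonneg_left
      (ih ((Finset.subset_insert _ _).trans hI)) hθ0)
    rw [Finset.sum_filter, Finset.sum_filter]
    unfold lists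
    rw [sum_split _ i, sum_split _ i, Finset.sum_comm, Finset.sum_comm (s := Finset.range (N i + 1)),
      Finset.mul_sum]
    refine Finset.sum_le_sum fun z hz => ?_
    have hz' : ∀ j, z j ≤ N j := by
      intro j
      rw [Fintype.mem_piFinset] at hz
      have := hz j
      by_cases h : j = i
      · subst h
        rw [Function.update_self, Finset.mem_singleton] at this
        omega
      · rw [Function.update_of_ne h, Finset.mem_range] at this
        omega
    have e1 : ∀ a : ℕ, (∀ j ∈ I, Sq (C (off G (Function.update z i a))) (Function.update z i a j)) ↔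
        ∀ j ∈ I, Sq (C (off G z)) (z j) := by
      intro a
      rw [off_update G z hiG]
      refine forall₂_congr fun j hj => ?_
      rw [Function.update_of_ne]
      rintro rfl
      exact hi hj
    have e2 : ∀ a : ℕ, (∀ j ∈ insert i I, Sq (C (off G (Function.update z i a)))
        (Function.update z i a j)) ↔ Sq (C (off G z)) a ∧ ∀ j ∈ I, Sq (C (off G z)) (z j) := by
      intro a
      rw [Finset.forall_mem_insert, e1 a, off_update G z hiG, Function.update_self]
    simp only [e1, e2]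
    by_cases h : ∀ j ∈ I, Sq (C (off G z)) (z j)
    · have e3 : (∀ j ∈ I, Sq (C (off G z)) (z j)) = True := eq_true h
      simp only [e3, and_true, if_true]
      have := hG i hiG z hz' (C (off G z)) (hC0 _) (hCm _)
      rw [Finset.sum_filter] at this
      exact this
    · have e3 : (∀ j ∈ I, Sq (C (off G z)) (z j)) = False := eq_false h
      simp only [e3, and_false, if_false, Finset.sum_const_zero, mul_zero]
      exact le_rfl

open Classical in
theorem cntJ (N : Fin n → ℕ) (μ : (Fin n → ℕ) → ℝ) (hμ : ∀ x ∈ lists N, 0 ≤ μ x)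
    {θ : ℝ} (hθ0 : 0 ≤ θ) (J R : Finset (Fin n)) (hJR : Disjoint J R) {m : ℕ}
    (hm : (J ∪ R).card ≤ m) (hG : ∀ i ∈ J, Thin N μ m θ i) {u : ℕ} (hu : 2 * m + 1 ≤ u) :
    ∑ x ∈ (lists N).filter (fun x => BQ N R ((∑ i, Nat.size (N i) + 2) * 2 ^ u) x), μ x ≤
      θ ^ J.card * ∑ x ∈ lists N, μ x := by
  have hex := exC N J R hJR (u := u) (by omega)
  choose C hC0 hCm hC using hex
  refine le_trans (Finset.sum_le_sum_of_subset_of_nonneg ?_ ?_)
    (thin_prod N μ hθ0 J hG C hC0 (fun z => (hCm z).trans hm) J subset_rfl)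
  · intro x hx
    rw [Finset.mem_filter] at hx ⊢
    exact ⟨hx.1, hC _ x rfl hx.2⟩
  · intro x hx _
    exact hμ x (Finset.mem_filter.1 hx).1

/-- some list `y ≤ N` at distance at most `ρ` from `x` is bad of level `m` -/
def PF (N : Fin n → ℕ) (ρ m : ℕ) (x : Fin n → ℕ) : Prop :=
  ∃ y : Fin n → ℕ, (∀ i, y i ≤ N i) ∧ (dif x y).card ≤ ρ ∧
    bad (2 * (∑ i, Nat.size (N i) + 2)) m y

open Classical in
theorem cntP (N : Fin n → ℕ) (μ : (Fin n → ℕ) → ℝ) (hμ : ∀ x ∈ lists N, 0 ≤ μ x)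
    (hμ1 : ∑ x ∈ lists N, μ x = 1) {θ : ℝ} (hθ0 : 0 ≤ θ) {g : ℕ} (hθg : θ ^ g ≤ 1 / 2)
    (G : Finset (Fin n)) (ρ m : ℕ) (hm : m + ρ * (g * Nat.size n + 1) ≤ G.card)
    (hG : ∀ i ∈ G, Thin N μ (m + ρ * (g * Nat.size n + 1)) θ i) :
    ∑ x ∈ (lists N).filter (fun x => PF N ρ (m + ρ * (g * Nat.size n + 1)) x), μ x ≤ θ ^ m := by
  set m' : ℕ := m + ρ * (g * Nat.size n) with hm'
  have em : m + ρ * (g * Nat.size n + 1) = m' + ρ := by
    rw [hm']
    ring
  rw [em] at hm hG
  rw [em]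
  have hex : ∀ R : Finset (Fin n), ∃ J : Finset (Fin n), R.card ≤ ρ →
      J ⊆ G \ R ∧ J.card = m' := by
    intro R
    by_cases h : R.card ≤ ρ
    · have h1 := Finset.le_card_sdiff R G
      obtain ⟨J, h1, h2⟩ := Finset.exists_subset_card_eq (s := G \ R) (n := m') (by omega)
      exact ⟨J, fun _ => ⟨h1, h2⟩⟩
    · exact ⟨∅, fun h' => absurd h' h⟩
  choose JR hJR using hex
  set S : Finset (Finset (Fin n)) := Finset.univ.filter fun R => R.card ≤ ρ with hSdef
  have hScard : S.card ≤ (n + 1) ^ ρ := card_small ρ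
  have hub := union_bound (lists N) S (fun x => PF N ρ (m' + ρ) x)
    (fun R x => BQ N R ((∑ i, Nat.size (N i) + 2) * 2 ^ (2 * (m' + ρ) + 1)) x) μ hμ (by
      intro x _ hx
      obtain ⟨y, hyN, hyR, hyb⟩ := hx
      refine ⟨dif x y, ?_, y, hyN, fun i hi => ?_, ?_⟩
      · rw [hSdef, Finset.mem_filter]
        exact ⟨Finset.mem_univ _, hyR⟩
      · by_contra h3
        exact hi (mem_dif.2 h3)
      · unfold bad at hyb
        have e2 : (∑ i, Nat.size (N i) + 2) * 2 ^ (2 * (m' + ρ) + 1) =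
            2 * (∑ i, Nat.size (N i) + 2) * 4 ^ (m' + ρ) := by
          rw [pow_succ, pow_mul]
          norm_num
          ring
        rw [e2]
        exact hyb)
  have hone : ∀ R ∈ S, ∑ x ∈ (lists N).filter (fun x =>
      BQ N R ((∑ i, Nat.size (N i) + 2) * 2 ^ (2 * (m' + ρ) + 1)) x), μ x ≤ θ ^ m' := by
    intro R hR
    rw [hSdef, Finset.mem_filter] at hR
    obtain ⟨hJ1, hJ2⟩ := hJR R hR.2
    have hd : Disjoint (JR R) R :=
      Finset.disjoint_left.2 fun j hj => (Finset.mem_sdiff.1 (hJ1 hj)).2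
    have h := cntJ N μ hμ hθ0 (JR R) R hd (m := m' + ρ)
      ((Finset.card_union_le _ _).trans (by have := hR.2; omega))
      (fun i hi => hG i (Finset.mem_sdiff.1 (hJ1 hi)).1) (u := 2 * (m' + ρ) + 1) le_rfl
    rwa [hμ1, mul_one, hJ2] at h
  have htot : ∑ x ∈ (lists N).filter (fun x => PF N ρ (m' + ρ) x), μ x ≤
      ((n + 1 : ℕ) : ℝ) ^ ρ * θ ^ m' := by
    refine hub.trans ((Finset.sum_le_sum hone).trans ?_)
    rw [Finset.sum_const, nsmul_eq_mul]
    refine mul_le_mul_of_nonneg_right ?_ (pow_nonneg hθ0 _)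
    exact_mod_cast hScard
  have hpw : ((n + 1 : ℕ) : ℝ) ^ ρ * θ ^ (ρ * (g * Nat.size n)) ≤ 1 := by
    have h1 : ((n + 1 : ℕ) : ℝ) ≤ 2 ^ Nat.size n := by
      exact_mod_cast (show n + 1 ≤ 2 ^ Nat.size n from Nat.lt_size_self n)
    have h2 : ((n + 1 : ℕ) : ℝ) * θ ^ (g * Nat.size n) ≤ 1 := by
      have h3 : θ ^ (g * Nat.size n) ≤ (1 / 2) ^ Nat.size n := by
        rw [pow_mul]
        exact pow_le_pow_left₀ (pow_nonneg hθ0 _) hθg _
      calc ((n + 1 : ℕ) : ℝ) * θ ^ (g * Nat.size n)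
          ≤ 2 ^ Nat.size n * (1 / 2) ^ Nat.size n :=
            mul_le_mul h1 h3 (pow_nonneg hθ0 _) (by positivity)
        _ = 1 := by
            rw [← mul_pow]
            norm_num
    have h4 : ((n + 1 : ℕ) : ℝ) ^ ρ * θ ^ (ρ * (g * Nat.size n)) =
        (((n + 1 : ℕ) : ℝ) * θ ^ (g * Nat.size n)) ^ ρ := by
      rw [mul_pow, ← pow_mul]
      congr 2
      ring
    rw [h4]
    exact pow_le_one₀ (by positivity) h2
  refine htot.trans ?_
  have h5 : ((n + 1 : ℕ) : ℝ) ^ ρ * θ ^ m' =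
      θ ^ m * (((n + 1 : ℕ) : ℝ) ^ ρ * θ ^ (ρ * (g * Nat.size n))) := by
    rw [hm', pow_add]
    ring
  rw [h5]
  exact (mul_le_mul_of_nonneg_left hpw (pow_nonneg hθ0 _)).trans (le_of_eq (mul_one _))

open Classical in
/-- `avgW` with a separate worst case -/
theorem avgF {α : Type} (B : Finset α) (W f : α → ℝ) (bd : ℕ → α → Prop) {Q Q' L : ℝ}
    (hQ : 0 ≤ Q) (hQ' : 0 ≤ Q') (hL : 1 ≤ L) (hW : ∀ a ∈ B, 0 ≤ W a) (hW1 : ∑ a ∈ B, W a = 1)
    {M : ℕ} {p : ℕ → ℝ}
    (h1 : ∀ a ∈ B, ∀ m ≤ M, ¬ bd m a → f a ≤ Q * L ^ m) (h2 : ∀ a ∈ B, f a ≤ Q')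
    (h3 : ∀ m ≤ M, ∑ a ∈ B.filter (bd m), W a ≤ p m) :
    ∑ a ∈ B, W a * f a ≤ Q * (1 + ∑ m ∈ Finset.range M, L ^ (m + 1) * p m) + Q' * p M := by
  have hL0 : 0 < L := by linarith
  have hp : ∀ a ∈ B, f a ≤ Q * (1 + ∑ m ∈ Finset.range M, (if bd m a then L ^ (m + 1) else 0)) +
      (if bd M a then Q' else 0) := by
    intro a ha
    have hnn : ∀ m ∈ Finset.range M, (0 : ℝ) ≤ if bd m a then L ^ (m + 1) else 0 := by
      intro m _
      split_ifs
      · positivity
      · exact le_rfl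
    have hnn' : (0 : ℝ) ≤ if bd M a then Q' else 0 := by
      split_ifs
      · exact hQ'
      · exact le_rfl
    have hs := Finset.sum_nonneg hnn
    by_cases hex : ∃ m, m ≤ M ∧ ¬ bd m a
    · have h4 := Nat.find_spec hex
      have h5 := h1 a ha _ h4.1 h4.2
      refine (h5.trans (mul_le_mul_of_nonneg_left ?_ hQ)).trans (le_add_of_nonneg_right hnn')
      rcases Nat.eq_zero_or_pos (Nat.find hex) with h6 | h6
      · rw [h6, pow_zero]
        linarith
      · have h7 : bd (Nat.find hex - 1) a := by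
          by_contra h8
          exact Nat.find_min hex (Nat.sub_lt h6 one_pos) ⟨by omega, h8⟩
        have h8 : Nat.find hex - 1 ∈ Finset.range M := by
          rw [Finset.mem_range]
          omega
        have h9 := Finset.single_le_sum hnn h8
        simp only [h7, if_true] at h9
        rw [Nat.sub_add_cancel h6] at h9
        linarith
    · push Not at hex
      have h4 := hex M le_rfl
      rw [if_pos h4]
      have h5 : 0 ≤ Q * (1 + ∑ m ∈ Finset.range M, (if bd m a then L ^ (m + 1) else 0)) :=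
        mul_nonneg hQ (by linarith)
      have h6 := h2 a ha
      linarith
  have hsum : ∑ a ∈ B, W a * f a ≤ ∑ a ∈ B, (Q * (W a + ∑ m ∈ Finset.range M,
      L ^ (m + 1) * (if bd m a then W a else 0)) + Q' * (if bd M a then W a else 0)) := by
    refine Finset.sum_le_sum fun a ha => ?_
    refine (mul_le_mul_of_nonneg_left (hp a ha) (hW a ha)).trans (le_of_eq ?_)
    have e1 : ∀ m, L ^ (m + 1) * (if bd m a then W a else 0) =
        W a * (if bd m a then L ^ (m + 1) else 0) := by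
      intro m
      split_ifs <;> ring
    have e2 : Q' * (if bd M a then W a else 0) = W a * (if bd M a then Q' else 0) := by
      split_ifs <;> ring
    rw [e2]
    simp only [e1]
    rw [← Finset.mul_sum]
    ring
  refine hsum.trans ?_
  rw [Finset.sum_add_distrib, ← Finset.mul_sum, ← Finset.mul_sum]
  refine add_le_add (mul_le_mul_of_nonneg_left ?_ hQ) (mul_le_mul_of_nonneg_left ?_ hQ')
  · rw [Finset.sum_add_distrib, hW1, Finset.sum_comm]
    refine add_le_add le_rfl (Finset.sum_le_sum fun m hm => ?_)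
    rw [← Finset.mul_sum, ← Finset.sum_filter]
    exact mul_le_mul_of_nonneg_left (h3 m (Finset.mem_range.1 hm).le) (by positivity)
  · rw [← Finset.sum_filter]
    exact h3 M le_rfl

open Classical in
theorem mainF : ∃ (c : Prog) (T : List ℕ → ℤ → ℕ) (q : Polynomial ℕ) (Λ : ℕ), 1 ≤ Λ ∧
    (∀ (L : List ℕ) (k : ℤ),
      Eval c (encS L k) (bit (decide ((k : ℝ) ≤ (L.map fun a : ℕ => √(a : ℝ)).sum))) (T L k)) ∧
    ∀ (n : ℕ) (N : Fin n → ℕ) (μ : (Fin n → ℕ) → ℝ), (∀ x ∈ lists N, 0 ≤ μ x) →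
      ∑ x ∈ lists N, μ x = 1 → ∀ θ : ℝ, 0 ≤ θ → ∀ (G : Finset (Fin n)) (ρ : ℕ),
      (∀ g m : ℕ, θ ^ g ≤ 1 / 2 → m + ρ * (g * Nat.size n + 1) ≤ G.card →
        (∀ i ∈ G, Thin N μ (m + ρ * (g * Nat.size n + 1)) θ i) →
        ∑ x ∈ (lists N).filter (fun x => ∃ (y : Fin n → ℕ) (k : ℤ), (∀ i, y i ≤ N i) ∧
          (Finset.univ.filter fun i => y i ≠ x i).card ≤ ρ ∧
          q.eval (n + ∑ i, Nat.size (N i) + Nat.size k.natAbs) *
            Λ ^ (m + ρ * (g * Nat.size n + 1)) < T (List.ofFn y) k), μ x ≤ θ ^ m) ∧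
      ((∀ i ∈ G, Thin N μ G.card θ i) → 2 * Λ * θ ≤ 1 →
        ∀ (B : ℕ) (y : (Fin n → ℕ) → Fin n → ℕ) (κ : (Fin n → ℕ) → ℤ),
        (∀ x ∈ lists N, (∀ i, y x i ≤ N i) ∧ (Finset.univ.filter fun i => y x i ≠ x i).card ≤ ρ ∧
          Nat.size (κ x).natAbs ≤ B) →
        ∑ x ∈ lists N, μ x * (T (List.ofFn (y x)) (κ x) : ℝ) ≤
          (q.eval (n + ∑ i, Nat.size (N i) + B) : ℕ) * ((Λ : ℝ) ^ (ρ * (Nat.size n + 1)) +
            (Λ : ℝ) ^ n * θ ^ (G.card - ρ * (Nat.size n + 1)))) := by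
  obtain ⟨c, T, q, Λ, hΛ, hE, h1, h2⟩ := tmz
  have hΛ0 : 0 < Λ := hΛ
  have hΛr : (1 : ℝ) ≤ Λ := by exact_mod_cast hΛ
  set q' : Polynomial ℕ := q * Polynomial.C (Λ * (1 + 3 * Λ)) with hq'
  have hev : ∀ y : ℕ, q'.eval y = q.eval y * (Λ * (1 + 3 * Λ)) := by
    intro y
    rw [hq', Polynomial.eval_mul, Polynomial.eval_C]
  have hle : ∀ y : ℕ, q.eval y ≤ q'.eval y := by
    intro y
    rw [hev]
    exact Nat.le_mul_of_pos_right _ (Nat.mul_pos hΛ0 (by omega))
  have hgood : ∀ (n : ℕ) (N : Fin n → ℕ) (ρ M : ℕ) (x y : Fin n → ℕ), (∀ i, y i ≤ N i) →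
      (dif x y).card ≤ ρ → ¬ PF N ρ M x → ∀ k : ℤ, T (List.ofFn y) k ≤
        q.eval (n + ∑ i, Nat.size (N i) + Nat.size k.natAbs) * Λ ^ M :=
    fun n N ρ M x y hy hd hne k => h1 n N y hy M (fun hb => hne ⟨y, hy, hd, hb⟩) k
  refine ⟨c, T, q', Λ, hΛ, hE, ?_⟩
  intro n N μ hμ hμ1 θ hθ0 G ρ
  refine ⟨?_, ?_⟩
  · intro g m hθg hm hG
    refine le_trans (Finset.sum_le_sum_of_subset_of_nonneg ?_ ?_)
      (cntP N μ hμ hμ1 hθ0 hθg G ρ m hm hG)
    · intro x hx
      rw [Finset.mem_filter] at hx ⊢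
      refine ⟨hx.1, ?_⟩
      by_contra hb
      obtain ⟨y, k, hy, hd, hk⟩ := hx.2
      have h3 := hgood n N ρ _ x y hy hd hb k
      have h4 := Nat.mul_le_mul_right (Λ ^ (m + ρ * (g * Nat.size n + 1)))
        (hle (n + ∑ i, Nat.size (N i) + Nat.size k.natAbs))
      omega
    · intro x hx _
      exact hμ x (Finset.mem_filter.1 hx).1
  · intro hG hΛθ B y κ hκ
    have hQ : ∀ x ∈ lists N, q.eval (n + ∑ i, Nat.size (N i) + Nat.size (κ x).natAbs) ≤
        q.eval (n + ∑ i, Nat.size (N i) + B) := fun x hx =>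
      poly_mono q (Nat.add_le_add_left (hκ x hx).2.2 _)
    have hθ2 : θ ^ 1 ≤ 1 / 2 := by
      rw [pow_one]
      have := mul_le_mul_of_nonneg_right hΛr hθ0
      linarith
    have hv1 : ρ * (1 * Nat.size n + 1) = ρ * (Nat.size n + 1) := by rw [one_mul]
    set v : ℕ := ρ * (Nat.size n + 1) with hv
    set Q : ℕ := q.eval (n + ∑ i, Nat.size (N i) + B) with hQdef
    have h3 := avgF (lists N) μ (fun x => (T (List.ofFn (y x)) (κ x) : ℝ))
      (fun m x => PF N ρ (m + v) x)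
      (Q := ((Q * Λ ^ v : ℕ) : ℝ)) (Q' := ((Q * Λ ^ (n + 1) : ℕ) : ℝ))
      (L := (Λ : ℝ)) (M := G.card - v) (p := fun m => θ ^ m) (Nat.cast_nonneg _)
      (Nat.cast_nonneg _) hΛr hμ hμ1 ?_ ?_ ?_
    · refine h3.trans ?_
      have h4 : 1 + ∑ m ∈ Finset.range (G.card - v), (Λ : ℝ) ^ (m + 1) * θ ^ m ≤
          1 + 3 * (Λ : ℝ) := by
        have h5 := geo hΛr hθ0 hΛθ (G.card - v)
        have h6 : (0 : ℝ) ≤ (Λ : ℝ) ^ (G.card - v) * θ ^ (G.card - v) := by positivity
        linarith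
      have h5 := mul_le_mul_of_nonneg_left h4 (Nat.cast_nonneg (α := ℝ) (Q * Λ ^ v))
      refine (add_le_add_left h5 _).trans ?_
      have h6 : ((q'.eval (n + ∑ i, Nat.size (N i) + B) : ℕ) : ℝ) =
          (Q : ℝ) * (Λ * (1 + 3 * Λ)) := by
        rw [hev]
        push_cast
        rfl
      rw [h6]
      push_cast
      have hQ0 : (0 : ℝ) ≤ Q := Nat.cast_nonneg _
      have hv0 : (0 : ℝ) ≤ (Λ : ℝ) ^ v := by positivity
      have hθM : (0 : ℝ) ≤ θ ^ (G.card - v) := pow_nonneg hθ0 _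
      have hn0 : (0 : ℝ) ≤ (Λ : ℝ) ^ n := by positivity
      have a1 : (Q : ℝ) * (Λ : ℝ) ^ v * (1 + 3 * Λ) ≤
          Q * (Λ : ℝ) ^ v * (1 + 3 * Λ) * Λ := by
        refine le_mul_of_one_le_right ?_ hΛr
        positivity
      have a2 : (Q : ℝ) * (Λ : ℝ) ^ (n + 1) * θ ^ (G.card - v) ≤
          Q * (Λ : ℝ) ^ (n + 1) * θ ^ (G.card - v) * (1 + 3 * Λ) := by
        refine le_mul_of_one_le_right ?_ (by linarith)
        positivity
      calc _ ≤ Q * (Λ : ℝ) ^ v * (1 + 3 * Λ) * Λ +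
            Q * (Λ : ℝ) ^ (n + 1) * θ ^ (G.card - v) * (1 + 3 * Λ) := add_le_add a1 a2
        _ = _ := by
            rw [pow_succ]
            ring
    · intro x hx m _ hb
      have h4 := hgood n N ρ (m + v) x (y x) (hκ x hx).1 (hκ x hx).2.1 hb (κ x)
      have h5 : T (List.ofFn (y x)) (κ x) ≤ Q * Λ ^ v * Λ ^ m := by
        refine h4.trans ?_
        rw [mul_assoc, ← pow_add, Nat.add_comm m v]
        exact Nat.mul_le_mul (hQ x hx) le_rfl
      exact_mod_cast h5
    · intro x hx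
      have h5 : T (List.ofFn (y x)) (κ x) ≤ Q * Λ ^ (n + 1) := by
        refine (h2 n N (y x) (hκ x hx).1 (insert 1 (Finset.univ.image fun i => sf (y x i)))
          (Finset.mem_insert_self _ _) ?_ ?_ (n + 1) ?_ (κ x)).trans ?_
        · intro d hd
          rw [Finset.mem_insert, Finset.mem_image] at hd
          rcases hd with rfl | ⟨i, -, rfl⟩
          · exact squarefree_one
          · exact (sf_spec _).2
        · intro i _
          exact Finset.mem_insert_of_mem (Finset.mem_image_of_mem _ (Finset.mem_univ _))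
        · refine (Finset.card_insert_le _ _).trans ?_
          have h6 := Finset.card_image_le (s := (Finset.univ : Finset (Fin n)))
            (f := fun i => sf (y x i))
          rw [Finset.card_univ, Fintype.card_fin] at h6
          omega
        · exact Nat.mul_le_mul (hQ x hx) le_rfl
      exact_mod_cast h5
    · intro m hm
      rcases Nat.lt_or_ge G.card v with hlt | hge
      · have hm0 : m = 0 := by omega
        subst hm0
        rw [pow_zero, ← hμ1]
        exact Finset.sum_le_sum_of_subset_of_nonneg (Finset.filter_subset _ _)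
          fun x hx _ => hμ x hx
      · have h6 := cntP N μ hμ hμ1 hθ0 hθ2 G ρ m (by rw [hv1]; omega)
          (fun i hi => (hG i hi).mono (by rw [hv1]; omega))
        rwa [hv1] at h6

open Classical in
/-- given the other entries, entry `i` is uniform in a window of at least `w` consecutive positive numbers -/
def Win (N : Fin n → ℕ) (μ : (Fin n → ℕ) → ℝ) (w : ℕ) (i : Fin n) : Prop :=
  ∀ x : Fin n → ℕ, (∀ j, x j ≤ N j) → ∃ (A W : ℕ) (s : ℝ), w ≤ W ∧ A + W ≤ N i ∧ 0 ≤ s ∧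
    ∀ a ≤ N i, μ (Function.update x i a) = if a ∈ Finset.Ioc A (A + W) then s else 0

open Classical in
theorem thin_win {N : Fin n → ℕ} {μ : (Fin n → ℕ) → ℝ} {w m : ℕ} {i : Fin n}
    (h : Win N μ w i) (hm : m + 1 ≤ w) : Thin N μ m (4 * √((m + 1 : ℝ) / w)) i := by
  intro x hx C h0 hC
  obtain ⟨A, W, s, hwW, hAN, hs, hμ⟩ := h x hx
  have hw0 : (0 : ℝ) < w := by exact_mod_cast (by omega : 0 < w)
  have hwW' : (w : ℝ) ≤ W := by exact_mod_cast hwW
  have hW0 : (0 : ℝ) < W := hw0.trans_le hwW'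
  have hm0 : (0 : ℝ) ≤ m := Nat.cast_nonneg _
  have hsub : (Finset.range (N i + 1)).filter (fun a => a ∈ Finset.Ioc A (A + W)) =
      Finset.Ioc A (A + W) := by
    ext a
    rw [Finset.mem_filter, Finset.mem_range, Finset.mem_Ioc]
    constructor
    · exact fun h => h.2
    · exact fun h => ⟨by omega, h⟩
  have e1 : ∑ a ∈ Finset.range (N i + 1), μ (Function.update x i a) = W * s := by
    rw [Finset.sum_congr rfl fun a ha => hμ a (by rw [Finset.mem_range] at ha; omega),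
      ← Finset.sum_filter, hsub, Finset.sum_const, nsmul_eq_mul, Nat.card_Ioc,
      Nat.add_sub_cancel_left]
  have e2 : ∑ a ∈ (Finset.range (N i + 1)).filter (fun a => Sq C a),
      μ (Function.update x i a) =
      (((Finset.range (N i + 1)).filter (fun a => Sq C a ∧
        a ∈ Finset.Ioc A (A + W))).card : ℝ) * s := by
    rw [Finset.sum_congr rfl fun a ha => hμ a (by
      rw [Finset.mem_filter, Finset.mem_range] at ha; omega),
      ← Finset.sum_filter, Finset.filter_filter, Finset.sum_const, nsmul_eq_mul]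
  rw [e1, e2]
  -- the count
  set D : Finset ℕ := insert 1 (C.image sf) with hD
  have hD0 : 0 ∉ D := by
    rw [hD, Finset.mem_insert, Finset.mem_image]
    rintro (h | ⟨c, -, hc⟩)
    · exact absurd h (by norm_num)
    · exact (sf_spec c).2.ne_zero hc
  have hDc : D.card ≤ m + 1 :=
    (Finset.card_insert_le _ _).trans (Nat.succ_le_succ (Finset.card_image_le.trans hC))
  have hcnt := cnt A (W := W) (m := m + 1) (by omega) (by omega) hD0 hDc
  have h5 : ((((Finset.range (N i + 1)).filter (fun a => Sq C a ∧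
      a ∈ Finset.Ioc A (A + W))).card : ℕ) : ℝ) ≤ 4 * √(((m + 1 : ℕ) : ℝ) * W) := by
    refine le_trans ?_ hcnt
    rw [Nat.cast_le]
    refine Finset.card_le_card ?_
    intro a ha
    rw [Finset.mem_filter] at ha ⊢
    obtain ⟨-, hs, ha⟩ := ha
    refine ⟨ha, ?_⟩
    have ha0 : a ≠ 0 := by
      rw [Finset.mem_Ioc] at ha
      omega
    have hform : sf a ∈ D := by
      rcases hs with ⟨r, hr⟩ | ⟨c, hcC, hr⟩
      · rw [hD, sf_eq ha0 one_ne_zero (by rw [mul_one]; exact ⟨r, hr⟩), Finset.mem_insert]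
        left
        have h7 := (sf_spec 1).1
        exact Nat.eq_one_of_mul_eq_one_left h7
      · have hc0 : c ≠ 0 := by
          rintro rfl
          exact h0 hcC
        rw [hD, sf_eq ha0 hc0 (by rw [mul_comm]; exact hr), Finset.mem_insert]
        right
        exact Finset.mem_image_of_mem _ hcC
    exact ⟨sf a, hform, rt a, ((sf_spec a).1).symm⟩
  have h6 : 4 * √(((m + 1 : ℕ) : ℝ) * W) ≤ 4 * √((m + 1 : ℝ) / w) * W := by
    have h7 : √(((m + 1 : ℕ) : ℝ) * W) ≤ √((m + 1 : ℝ) / w) * W := by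
      apply Real.sqrt_le_iff.2
      refine ⟨by positivity, ?_⟩
      rw [mul_pow, Real.sq_sqrt (by positivity)]
      push_cast
      rw [div_mul_eq_mul_div, le_div_iff₀ hw0]
      have h8 := mul_le_mul_of_nonneg_left hwW' (show (0 : ℝ) ≤ (m + 1) * W by positivity)
      calc ((m : ℝ) + 1) * (W : ℝ) * w ≤ ((m : ℝ) + 1) * W * W := h8
        _ = ((m : ℝ) + 1) * (W : ℝ) ^ 2 := by ring
    have := mul_le_mul_of_nonneg_left h7 (show (0 : ℝ) ≤ 4 by norm_num)
    linarith
  calc _ ≤ (4 * √((m + 1 : ℝ) / w) * W) * s := mul_le_mul_of_nonneg_right (h5.trans h6) hs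
    _ = _ := by ring

end Pool.Agent.H41.RC
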