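import Pool.Agent.H41.RC.Bad

/-!
# The running time: good lists and lists with few square classes
-/

set_option autoImplicit false

namespace Pool.Agent.H41.RC

open Pool.Agent.H92.SR Pool.Agent.H92.SR.Tr

theorem bsz_ofFn {n : ℕ} {N x : Fin n → ℕ} (h : ∀ i, x i ≤ N i) (k : ℕ) :
    bsz (List.ofFn x) k ≤ n + ∑ i, Nat.size (N i) + Nat.size k := by
  unfold bsz
  rw [List.length_ofFn, List.map_ofFn, List.sum_ofFn]
  have h1 : ∑ i, (Nat.size ∘ x) i ≤ ∑ i, Nat.size (N i) :=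
    Finset.sum_le_sum fun i _ => Nat.size_le_size (h i)
  omega

theorem sqsum' {n : ℕ} {N x : Fin n → ℕ} (h : ∀ i, x i ≤ N i) :
    ∑ i, √(x i : ℝ) ≤ 2 ^ (∑ i, Nat.size (N i)) :=
  sqsum (A := fun i => {x i}) (N := N)
    (fun i y hy => by rw [Finset.mem_singleton] at hy; rw [hy]; exact h i)
    (by rw [Fintype.mem_piFinset]; exact fun i => Finset.mem_singleton_self _)

theorem few_sep {n : ℕ} {N x : Fin n → ℕ} (h : ∀ i, x i ≤ N i) {D : Finset ℕ} (h1 : 1 ∈ D)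
    (hD : ∀ c ∈ D, Squarefree c) (hx : ∀ i, x i ≠ 0 → sf (x i) ∈ D) {m : ℕ}
    (hm : D.card ≤ 2 * m) (k : ℕ) (hsq : ¬ ∀ a ∈ List.ofFn x, IsSquare a) :
    1 ≤ |EE (List.ofFn x) k| * 2 ^ ((∑ i, Nat.size (N i) + Nat.size k + 1) * 4 ^ m) := by
  push Not at hsq
  obtain ⟨a, ha, hna⟩ := hsq
  obtain ⟨i, rfl⟩ := List.mem_ofFn.1 ha
  have h0 : x i ≠ 0 := fun h0 => hna ⟨0, by rw [h0]⟩
  have hs1 : sf (x i) ≠ 1 := by
    intro h2
    apply hna
    have h3 := (sf_spec (x i)).1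
    rw [h2, mul_one] at h3
    exact ⟨rt (x i), by rw [← pow_two, h3]⟩
  have hsum : (∑ j, (co (sf (x i)) (x j) - co (sf (x i)) ((fun _ : Fin n => 0) j))) -
      (if sf (x i) = 1 then (k : ℤ) else 0) ≠ 0 := by
    rw [if_neg hs1, sub_zero]
    have h2 : 0 < ∑ j, (co (sf (x i)) (x j) - co (sf (x i)) ((fun _ : Fin n => 0) j)) := by
      refine Finset.sum_pos' (fun j _ => ?_) ⟨i, Finset.mem_univ _, ?_⟩
      · rw [co_zero, sub_zero]
        exact co_nonneg _ _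
      · rw [co_zero, sub_zero]
        unfold co
        rw [if_pos rfl]
        exact_mod_cast rt_pos h0
    exact h2.ne'
  have hb : ∑ j, (√(x j : ℝ) + √(((fun _ : Fin n => 0) j : ℕ) : ℝ)) + |((k : ℤ) : ℝ)| ≤
      2 ^ (∑ i, Nat.size (N i) + Nat.size k + 1) := by
    have h2 : ∑ j, (√(x j : ℝ) + √(((fun _ : Fin n => 0) j : ℕ) : ℝ)) = ∑ j, √(x j : ℝ) := by
      refine Finset.sum_congr rfl fun j _ => ?_
      simp
    rw [h2]
    have h3 := sqsum' h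
    have h4 : |((k : ℤ) : ℝ)| ≤ 2 ^ Nat.size k := by
      rw [Int.cast_natCast, abs_of_nonneg (Nat.cast_nonneg k)]
      exact_mod_cast (Nat.lt_size_self k).le
    have h5 : (2 : ℝ) ^ (∑ i, Nat.size (N i)) ≤ 2 ^ (∑ i, Nat.size (N i) + Nat.size k) :=
      pow_le_pow_right₀ (by norm_num) (by omega)
    have h6 : (2 : ℝ) ^ Nat.size k ≤ 2 ^ (∑ i, Nat.size (N i) + Nat.size k) :=
      pow_le_pow_right₀ (by norm_num) (by omega)
    rw [pow_succ]
    linarith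
  have key := sepf x (fun _ : Fin n => 0) (k : ℤ) Finset.univ h1 hD (fun i _ => hx i)
    (fun i _ h => absurd rfl h) ⟨_, hx i h0, hsum⟩ (one_le_pow₀ (by norm_num)) hb
  have hval : ∑ j, (√(x j : ℝ) - √(((fun _ : Fin n => 0) j : ℕ) : ℝ)) - ((k : ℤ) : ℝ) =
      EE (List.ofFn x) k := by
    rw [EE_ofFn]
    congr 1
    refine Finset.sum_congr rfl fun j _ => ?_
    simp
  rw [hval] at key
  refine key.trans (mul_le_mul_of_nonneg_left ?_ (abs_nonneg _))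
  rw [← pow_mul]
  refine pow_le_pow_right₀ (by norm_num) (Nat.mul_le_mul_left _ ?_)
  refine (Nat.sub_le _ _).trans ((Nat.pow_le_pow_right (by norm_num) hm).trans (le_of_eq ?_))
  rw [pow_mul]
  norm_num

open Classical in
theorem tms : ∃ (c : Prog) (T : List ℕ → ℕ → ℕ) (q : Polynomial ℕ) (Λ : ℕ), 1 ≤ Λ ∧
    (∀ L k, Eval c (encI L k) (bit (decide (EE L k ≤ 0))) (T L k)) ∧
    (∀ (n : ℕ) (N x : Fin n → ℕ), (∀ i, x i ≤ N i) → ∀ m : ℕ,
      ¬ bad (2 * (∑ i, Nat.size (N i) + 2)) m x → ∀ k : ℕ,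
      T (List.ofFn x) k ≤ q.eval (n + ∑ i, Nat.size (N i) + Nat.size k) * Λ ^ m) ∧
    ∀ (n : ℕ) (N x : Fin n → ℕ), (∀ i, x i ≤ N i) → ∀ D : Finset ℕ, 1 ∈ D →
      (∀ c ∈ D, Squarefree c) → (∀ i, x i ≠ 0 → sf (x i) ∈ D) → ∀ m : ℕ, D.card ≤ 2 * m →
      ∀ k : ℕ, T (List.ofFn x) k ≤ q.eval (n + ∑ i, Nat.size (N i) + Nat.size k) * Λ ^ m := by
  obtain ⟨c, T, q, hE, hT1, hT2⟩ := tim0
  have hΛ : 1 ≤ 4 ^ q.natDegree := Nat.one_le_pow _ _ (by norm_num)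
  have hev : ∀ x : ℕ, (q.comp (3 * Polynomial.X + 5)).eval x = q.eval (3 * x + 5) := by
    intro x
    simp [Polynomial.eval_comp]
  have hkey : ∀ (L : List ℕ) (k s m y : ℕ), bsz L k ≤ s → 1 ≤ |EE L k| * 2 ^ y →
      y ≤ 1 + (2 * s + 4) * 4 ^ m →
      T L k ≤ (q.comp (3 * Polynomial.X + 5)).eval s * (4 ^ q.natDegree) ^ m := by
    intro L k s m y hs hx hy
    have h1 := hT1 L k y hx
    have h4 : 1 ≤ 4 ^ m := Nat.one_le_pow _ _ (by norm_num)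
    have h2 : bsz L k + y ≤ (3 * s + 5) * 4 ^ m := by
      have h5 : s * 1 ≤ s * 4 ^ m := Nat.mul_le_mul_left _ h4
      have h6 : (3 * s + 5) * 4 ^ m = s * 4 ^ m + (2 * s + 4) * 4 ^ m + 4 ^ m := by ring
      omega
    rw [hev]
    refine (h1.trans (poly_mono q h2)).trans ?_
    refine (poly_scale q _ h4).trans (le_of_eq ?_)
    rw [← pow_mul, ← pow_mul, mul_comm m]
  refine ⟨c, T, q.comp (3 * Polynomial.X + 5), 4 ^ q.natDegree, hΛ, hE, ?_, ?_⟩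
  · intro n N x hN m hb k
    unfold bad badp at hb
    push Not at hb
    refine hkey _ _ _ m _ (bsz_ofFn hN k) (hb k) ?_
    refine Nat.add_le_add_left (Nat.mul_le_mul_right _ ?_) _
    omega
  · intro n N x hN D h1 hD hx m hm k
    by_cases hsq : ∀ a ∈ List.ofFn x, IsSquare a
    · rw [hev]
      refine (hT2 _ k hsq).trans ((poly_mono q ?_).trans (Nat.le_mul_of_pos_right _ (pow_pos hΛ m)))
      have := bsz_ofFn hN k
      omega
    · refine hkey _ _ _ m _ (bsz_ofFn hN k) (few_sep hN h1 hD hx hm k hsq) ?_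
      have h2 : (∑ i, Nat.size (N i) + Nat.size k + 1) * 4 ^ m ≤
          (2 * (n + ∑ i, Nat.size (N i) + Nat.size k) + 4) * 4 ^ m :=
        Nat.mul_le_mul_right _ (by omega)
      omega

end Pool.Agent.H41.RC
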