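import Pool.Agent.H41.RC.Circ
import Pool.Agent.H41.RC.Tms

/-!
# The hard coefficient vectors of a list span a subspace with large minimum distance
-/

set_option autoImplicit false

namespace Pool.Agent.H41.RC

open Pool.Agent.H92.SR

variable {n : ℕ}

theorem sep_int {a : Fin n → ℕ} {J : Finset (Fin n)} (h1 : ∀ i ∈ J, ¬ IsSquare (a i))
    (h2 : ∀ i ∈ J, ∀ j ∈ J, i ≠ j → ¬ IsSquare (a i * a j)) {y : Fin n → ℤ} {m : ℕ}
    (hy : ∀ i, y i ≠ 0 → i ∈ J) (hm : (Finset.univ.filter fun i => y i ≠ 0).card ≤ m)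
    (hne : ∃ i, y i ≠ 0) (k : ℤ) {S : ℝ} (hS1 : 1 ≤ S)
    (hS : ∑ i, |(y i : ℝ)| * √(a i : ℝ) + |(k : ℝ)| ≤ S) :
    1 ≤ |∑ i, (y i : ℝ) * √(a i : ℝ) - k| * S ^ (2 ^ (m + 1) - 1) := by
  classical
  have hsf1 : ∀ i ∈ J, sf (a i) ≠ 1 := by
    intro i hi h
    apply h1 i hi
    have h3 := (sf_spec (a i)).1
    rw [h, mul_one] at h3
    exact ⟨rt (a i), by rw [← pow_two, h3]⟩
  have hsf2 : ∀ i ∈ J, ∀ j ∈ J, i ≠ j → sf (a i) ≠ sf (a j) := by
    intro i hi j hj hij h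
    apply h2 i hi j hj hij
    have h3 := (sf_spec (a i)).1
    have h4 := (sf_spec (a j)).1
    refine ⟨rt (a i) * rt (a j) * sf (a j), ?_⟩
    calc a i * a j = (rt (a i) ^ 2 * sf (a i)) * (rt (a j) ^ 2 * sf (a j)) := by rw [h3, h4]
      _ = rt (a i) * rt (a j) * sf (a j) * (rt (a i) * rt (a j) * sf (a j)) := by
          rw [h]
          ring
  have h0 : ∀ i ∈ J, a i ≠ 0 := fun i hi h => h1 i hi (by rw [h]; exact ⟨0, rfl⟩)
  set F : Finset (Fin n) := Finset.univ.filter fun i => y i ≠ 0 with hF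
  have hFm : ∀ i, i ∈ F ↔ y i ≠ 0 := by
    intro i
    rw [hF, Finset.mem_filter]
    simp
  obtain ⟨j, hj⟩ := hne
  have hjF : j ∈ F := (hFm j).2 hj
  have hjJ : j ∈ J := hy j hj
  set D : Finset ℕ := insert 1 (F.image fun i => sf (a i)) with hD
  have h1D : 1 ∈ D := Finset.mem_insert_self _ _
  have hFD : ∀ i ∈ F, sf (a i) ∈ D := fun i hi =>
    Finset.mem_insert_of_mem (Finset.mem_image.2 ⟨i, hi, rfl⟩)
  have hDs : ∀ c ∈ D, Squarefree c := by
    intro c hc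
    rw [hD, Finset.mem_insert, Finset.mem_image] at hc
    rcases hc with rfl | ⟨i, -, rfl⟩
    · exact squarefree_one
    · exact (sf_spec _).2
  have hcard : D.card ≤ m + 1 :=
    (Finset.card_insert_le _ _).trans (Nat.succ_le_succ (Finset.card_image_le.trans hm))
  -- the coefficients
  set C : ℕ → ℤ := fun c => (∑ i ∈ F, y i * co c (a i)) - (if c = 1 then k else 0) with hC
  have hsum : ∀ f : Fin n → ℝ, ∑ i, |(y i : ℝ)| * f i = ∑ i ∈ F, |(y i : ℝ)| * f i := by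
    intro f
    refine (Finset.sum_subset (Finset.subset_univ F) fun i _ hi => ?_).symm
    have : y i = 0 := by
      by_contra h
      exact hi ((hFm i).2 h)
    rw [this]
    simp
  have hsum' : ∑ i, (y i : ℝ) * √(a i : ℝ) = ∑ i ∈ F, (y i : ℝ) * √(a i : ℝ) := by
    refine (Finset.sum_subset (Finset.subset_univ F) fun i _ hi => ?_).symm
    have : y i = 0 := by
      by_contra h
      exact hi ((hFm i).2 h)
    rw [this]
    simp
  have e3 : (k : ℝ) = ∑ c ∈ D, (if c = 1 then (k : ℝ) else 0) * √(c : ℝ) := by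
    rw [Finset.sum_eq_single 1]
    · simp
    · intro c _ hc
      rw [if_neg hc, zero_mul]
    · intro h
      exact absurd h1D h
  have e4 : |(k : ℝ)| = ∑ c ∈ D, (if c = 1 then |(k : ℝ)| else 0) * √(c : ℝ) := by
    rw [Finset.sum_eq_single 1]
    · simp
    · intro c _ hc
      rw [if_neg hc, zero_mul]
    · intro h
      exact absurd h1D h
  have e2 : ∀ i ∈ F, √(a i : ℝ) = ∑ c ∈ D, (co c (a i) : ℝ) * √(c : ℝ) :=
    fun i hi => sqrt_co fun _ => hFD i hi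
  have e1 : ∑ i, (y i : ℝ) * √(a i : ℝ) - k = ∑ c ∈ D, (C c : ℝ) * √(c : ℝ) := by
    rw [hsum']
    calc ∑ i ∈ F, (y i : ℝ) * √(a i : ℝ) - k
        = ∑ c ∈ D, ∑ i ∈ F, ((y i : ℝ) * (co c (a i) : ℝ)) * √(c : ℝ) -
          ∑ c ∈ D, (if c = 1 then (k : ℝ) else 0) * √(c : ℝ) := by
          rw [← e3, Finset.sum_comm]
          congr 1
          refine Finset.sum_congr rfl fun i hi => ?_
          conv_lhs => rw [e2 i hi, Finset.mul_sum]
          exact Finset.sum_congr rfl fun c _ => by ring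
      _ = _ := by
          rw [← Finset.sum_sub_distrib]
          refine Finset.sum_congr rfl fun c _ => ?_
          rw [← Finset.sum_mul, ← sub_mul]
          simp only [hC]
          by_cases h : c = 1
          · rw [if_pos h, if_pos h]
            push_cast
            rfl
          · rw [if_neg h, if_neg h]
            push_cast
            rfl
  have e6 : ∑ c ∈ D, |(C c : ℝ)| * √(c : ℝ) ≤ S := by
    refine le_trans ?_ hS
    rw [e4, hsum]
    have e7 : ∑ i ∈ F, |(y i : ℝ)| * √(a i : ℝ) =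
        ∑ c ∈ D, ∑ i ∈ F, (|(y i : ℝ)| * (co c (a i) : ℝ)) * √(c : ℝ) := by
      rw [Finset.sum_comm]
      refine Finset.sum_congr rfl fun i hi => ?_
      conv_lhs => rw [e2 i hi, Finset.mul_sum]
      exact Finset.sum_congr rfl fun c _ => by ring
    rw [e7, ← Finset.sum_add_distrib]
    refine Finset.sum_le_sum fun c _ => ?_
    rw [← Finset.sum_mul, ← add_mul]
    refine mul_le_mul_of_nonneg_right ?_ (Real.sqrt_nonneg _)
    have e8 : |((∑ i ∈ F, y i * co c (a i) : ℤ) : ℝ)| ≤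
        ∑ i ∈ F, |(y i : ℝ)| * (co c (a i) : ℝ) := by
      push_cast
      refine (Finset.abs_sum_le_sum_abs _ _).trans (Finset.sum_le_sum fun i _ => ?_)
      have a1 : (0 : ℝ) ≤ co c (a i) := by exact_mod_cast co_nonneg c (a i)
      rw [abs_mul, abs_of_nonneg a1]
    simp only [hC]
    by_cases h : c = 1
    · rw [if_pos h, if_pos h, Int.cast_sub]
      exact (abs_sub _ _).trans (add_le_add e8 le_rfl)
    · rw [if_neg h, if_neg h, sub_zero, add_zero]
      exact e8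
  have hCj : C (sf (a j)) ≠ 0 := by
    simp only [hC]
    rw [if_neg (hsf1 j hjJ), sub_zero, Finset.sum_eq_single j]
    · refine mul_ne_zero hj ?_
      unfold co
      rw [if_pos rfl]
      exact_mod_cast (rt_pos (h0 j hjJ)).ne'
    · intro i hi hij
      unfold co
      rw [if_neg (hsf2 i (hy i ((hFm i).1 hi)) j hjJ hij), mul_zero]
    · intro h
      exact absurd hjF h
  have key := sep1 hDs ⟨sf (a j), hFD j hjF, hCj⟩ hS1 e6
  rw [← e1] at key
  refine key.trans (mul_le_mul_of_nonneg_left ?_ (abs_nonneg _))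
  refine pow_le_pow_right₀ hS1 (Nat.sub_le_sub_right ?_ 1)
  exact Nat.pow_le_pow_right (by norm_num) hcard

/-- the sum with coefficients `z` is close to an integer -/
def NearZ (a : Fin n → ℕ) (P : ℕ) (z : Fin n → ℤ) : Prop :=
  ∃ k : ℤ, |∑ i, (z i : ℝ) * √(a i : ℝ) - k| * 2 ^ P < 1

/-- the bits of a small combination -/
def Lb (n B : ℕ) : ℕ := n + (n + 1) * (2 * n + 2 * B)

/-- the bits of precision -/
def Wb (n B s : ℕ) : ℕ := Lb n B + B + s + 2

/-- the hard vectors -/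
def hardSet (a : Fin n → ℕ) (P B : ℕ) : Set (Fin n → ℚ) :=
  {v | ∃ z : Fin n → ℤ, (∀ i, |z i| ≤ 2 ^ B) ∧ NearZ a P z ∧ v = fun i => (z i : ℚ)}

theorem NearZ.mono {a : Fin n → ℕ} {P P' : ℕ} {z : Fin n → ℤ} (h : NearZ a P' z) (hP : P ≤ P') :
    NearZ a P z := by
  obtain ⟨k, hk⟩ := h
  refine ⟨k, lt_of_le_of_lt ?_ hk⟩
  exact mul_le_mul_of_nonneg_left (pow_le_pow_right₀ (by norm_num) hP) (abs_nonneg _)

theorem hardSet_mono {a : Fin n → ℕ} {P P' B : ℕ} (hP : P ≤ P') :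
    hardSet a P' B ⊆ hardSet a P B := by
  rintro v ⟨z, h1, h2, h3⟩
  exact ⟨z, h1, h2.mono hP, h3⟩

theorem fac_bound {n c B : ℕ} (hc : c ≤ n + 1) :
    c * (c.factorial * (n * (2 ^ B) ^ 2 + 1) ^ c) ≤ 2 ^ Lb n B := by
  have h1 : n + 1 ≤ 2 ^ n := Nat.lt_two_pow_self
  have h2 : c ≤ 2 ^ n := hc.trans h1
  have h3 : c.factorial ≤ 2 ^ (n * (n + 1)) := by
    calc c.factorial ≤ (n + 1).factorial := Nat.factorial_le hc
      _ ≤ (n + 1) ^ (n + 1) := Nat.factorial_le_pow _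
      _ ≤ (2 ^ n) ^ (n + 1) := Nat.pow_le_pow_left h1 _
      _ = 2 ^ (n * (n + 1)) := by rw [← pow_mul]
  have h4 : n * (2 ^ B) ^ 2 + 1 ≤ 2 ^ (n + 2 * B) := by
    have e : (2 ^ B) ^ 2 = 2 ^ (2 * B) := by rw [← pow_mul, mul_comm]
    rw [e, pow_add]
    have h5 : 1 ≤ 2 ^ (2 * B) := Nat.one_le_pow _ _ (by norm_num)
    nlinarith
  have h6 : (n * (2 ^ B) ^ 2 + 1) ^ c ≤ 2 ^ ((n + 2 * B) * (n + 1)) := by
    calc (n * (2 ^ B) ^ 2 + 1) ^ c ≤ (2 ^ (n + 2 * B)) ^ c := Nat.pow_le_pow_left h4 _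
      _ ≤ (2 ^ (n + 2 * B)) ^ (n + 1) :=
          Nat.pow_le_pow_right (Nat.one_le_pow _ _ (by norm_num)) hc
      _ = 2 ^ ((n + 2 * B) * (n + 1)) := by rw [← pow_mul]
  calc c * (c.factorial * (n * (2 ^ B) ^ 2 + 1) ^ c)
      ≤ 2 ^ n * (2 ^ (n * (n + 1)) * 2 ^ ((n + 2 * B) * (n + 1))) :=
        Nat.mul_le_mul h2 (Nat.mul_le_mul h3 h6)
    _ = 2 ^ Lb n B := by
        unfold Lb
        rw [← pow_add, ← pow_add]
        congr 1
        ring

theorem span_far {a : Fin n → ℕ} {J : Finset (Fin n)} (h1 : ∀ i ∈ J, ¬ IsSquare (a i))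
    (h2 : ∀ i ∈ J, ∀ j ∈ J, i ≠ j → ¬ IsSquare (a i * a j)) {m B : ℕ} {y : Fin n → ℚ}
    (hy : y ∈ Submodule.span ℚ
      (hardSet a (Wb n B (∑ i, Nat.size (a i)) * 2 ^ (m + 1)) B)) (hy0 : y ≠ 0)
    (hyJ : ∀ i ∉ J, y i = 0) : m < (Finset.univ.filter fun i => y i ≠ 0).card := by
  classical
  by_contra hcon
  rw [not_lt] at hcon
  set s0 : ℕ := ∑ i, Nat.size (a i) with hs0
  set W : ℕ := Wb n B s0 with hW
  set P : ℕ := W * 2 ^ (m + 1) with hP
  set S : Finset (Fin n) := Finset.univ.filter fun i => y i ≠ 0 with hS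
  have hSm : ∀ i, i ∉ S → y i = 0 := by
    intro i hi
    by_contra h
    exact hi (Finset.mem_filter.2 ⟨Finset.mem_univ i, h⟩)
  obtain ⟨p, f, g, hfg⟩ := Submodule.mem_span_set'.1 hy
  have hg : ∀ j : Fin p, ∃ z : Fin n → ℤ, (∀ i, |z i| ≤ 2 ^ B) ∧ NearZ a P z ∧
      ((g j : Fin n → ℚ) = fun i => (z i : ℚ)) := fun j => (g j).2
  choose z hzB hzN hzg using hg
  have hk : ∀ j, ∃ k : ℤ, |∑ i, (z j i : ℝ) * √(a i : ℝ) - k| * 2 ^ P < 1 := hzN
  choose k hk using hk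
  -- integral coefficients
  obtain ⟨N, hN0, hNv⟩ : ∃ N : ℕ, N ≠ 0 ∧ ∀ j, ∃ v : ℤ, (v : ℚ) = N * f j := by
    refine ⟨∏ j, (f j).den, Finset.prod_ne_zero_iff.2 fun j _ => (f j).den_nz, fun j => ?_⟩
    obtain ⟨c, hc⟩ := Finset.dvd_prod_of_mem (fun j => (f j).den) (Finset.mem_univ j)
    refine ⟨c * (f j).num, ?_⟩
    rw [hc]
    push_cast
    have h3 : (f j) * (f j).den = (f j).num := Rat.mul_den_eq_num (f j)
    rw [← h3]
    ring
  choose v hv using hNv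
  let h : Fin p → Fin n → ℤ := fun j i => z j i
  have hcomb : ∀ i, ((∑ j, v j * h j i : ℤ) : ℚ) = N * y i := by
    intro i
    have h3 : y i = ∑ j, f j * (z j i : ℚ) := by
      rw [← hfg, Finset.sum_apply]
      refine Finset.sum_congr rfl fun j _ => ?_
      rw [Pi.smul_apply, hzg j, smul_eq_mul]
    rw [h3, Finset.mul_sum]
    push_cast
    refine Finset.sum_congr rfl fun j _ => ?_
    rw [hv j]
    show (N : ℚ) * f j * ((z j i : ℤ) : ℚ) = _
    ring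
  have hN0' : (N : ℚ) ≠ 0 := Nat.cast_ne_zero.2 hN0
  have hrel : Rel h S v := by
    intro i hi
    have h3 := hcomb i
    rw [hSm i hi, mul_zero] at h3
    exact_mod_cast h3
  have hnon : ∃ i, ∑ j, v j * h j i ≠ 0 := by
    obtain ⟨i, hi⟩ := Function.ne_iff.1 hy0
    refine ⟨i, fun h3 => ?_⟩
    have h4 := hcomb i
    rw [h3, Int.cast_zero] at h4
    have hi' : y i ≠ 0 := hi
    exact (mul_ne_zero hN0' hi') h4.symm
  have hhb : ∀ j i, |h j i| ≤ ((2 ^ B : ℕ) : ℤ) := by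
    intro j i
    have h3 := hzB j i
    push_cast
    exact h3
  obtain ⟨K, l, hKc, hlK, hlr, hln, hlb⟩ := circ h S hhb ⟨v, hrel, hnon⟩
  rw [Fintype.card_fin] at hKc
  rw [Fintype.card_fin] at hlb
  -- the small combination
  set u : Fin n → ℤ := fun i => ∑ j, l j * h j i with hu
  have huS : ∀ i, u i ≠ 0 → i ∈ S := by
    intro i hi
    by_contra h3
    exact hi (hlr i h3)
  have huJ : ∀ i, u i ≠ 0 → i ∈ J := by
    intro i hi
    have h3 := huS i hi
    rw [hS, Finset.mem_filter] at h3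
    by_contra h4
    exact h3.2 (hyJ i h4)
  have hum : (Finset.univ.filter fun i => u i ≠ 0).card ≤ m := by
    refine (Finset.card_le_card ?_).trans hcon
    intro i hi
    rw [Finset.mem_filter] at hi
    exact huS i hi.2
  set kk : ℤ := ∑ j, l j * k j with hkk
  have hlsum : (∑ j, |(l j : ℝ)|) ≤ 2 ^ Lb n B := by
    have h3 : ∑ j, |(l j : ℝ)| = ∑ j ∈ K, |(l j : ℝ)| := by
      refine (Finset.sum_subset (Finset.subset_univ K) fun j _ hj => ?_).symm
      rw [hlK j hj]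
      simp
    rw [h3]
    have h4 : ∀ j ∈ K, |(l j : ℝ)| ≤
        ((K.card.factorial * (n * (2 ^ B) ^ 2 + 1) ^ K.card : ℕ) : ℝ) := by
      intro j _
      have h5 := hlb j
      have h6 : ((|l j| : ℤ) : ℝ) ≤
          (((K.card.factorial * (n * (2 ^ B) ^ 2 + 1) ^ K.card : ℕ) : ℤ) : ℝ) := by
        exact_mod_cast h5
      rw [Int.cast_abs, Int.cast_natCast] at h6
      exact h6
    refine (Finset.sum_le_sum h4).trans ?_
    rw [Finset.sum_const, nsmul_eq_mul]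
    have h7 := fac_bound (B := B) hKc
    exact_mod_cast h7
  have hdiff : ∑ i, (u i : ℝ) * √(a i : ℝ) - kk =
      ∑ j, (l j : ℝ) * (∑ i, (z j i : ℝ) * √(a i : ℝ) - k j) := by
    simp only [hu, hkk]
    push_cast
    simp only [mul_sub, Finset.sum_sub_distrib, Finset.mul_sum, Finset.sum_mul]
    rw [Finset.sum_comm]
    congr 1
    refine Finset.sum_congr rfl fun j _ => Finset.sum_congr rfl fun i _ => ?_
    show (l j : ℝ) * ((z j i : ℤ) : ℝ) * √(a i : ℝ) = _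
    ring
  have hclose : |∑ i, (u i : ℝ) * √(a i : ℝ) - kk| * 2 ^ P ≤ 2 ^ Lb n B := by
    rw [hdiff]
    have h3 := Finset.abs_sum_le_sum_abs
      (fun j => (l j : ℝ) * (∑ i, (z j i : ℝ) * √(a i : ℝ) - k j)) Finset.univ
    have h4 : (0 : ℝ) ≤ 2 ^ P := by positivity
    refine (mul_le_mul_of_nonneg_right h3 h4).trans (le_trans ?_ hlsum)
    rw [Finset.sum_mul]
    refine Finset.sum_le_sum fun j _ => ?_
    rw [abs_mul, mul_assoc]
    exact mul_le_of_le_one_right (abs_nonneg _) (hk j).le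
  -- sizes
  have hcoef : ∀ i, |(u i : ℝ)| ≤ 2 ^ (Lb n B + B) := by
    intro i
    simp only [hu]
    push_cast
    refine (Finset.abs_sum_le_sum_abs _ _).trans ?_
    rw [pow_add]
    refine le_trans ?_ (mul_le_mul_of_nonneg_right hlsum (by positivity))
    rw [Finset.sum_mul]
    refine Finset.sum_le_sum fun j _ => ?_
    rw [abs_mul]
    refine mul_le_mul_of_nonneg_left ?_ (abs_nonneg _)
    have h3 := hhb j i
    have h4 : ((|h j i| : ℤ) : ℝ) ≤ (((2 ^ B : ℕ) : ℤ) : ℝ) := by exact_mod_cast h3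
    rw [Int.cast_abs] at h4
    push_cast at h4
    exact h4
  have hsq : ∑ i, √(a i : ℝ) ≤ 2 ^ s0 := sqsum' (N := a) fun i => le_rfl
  have hU : ∑ i, |(u i : ℝ)| * √(a i : ℝ) ≤ 2 ^ (Lb n B + B + s0) := by
    rw [pow_add _ (Lb n B + B) s0]
    refine le_trans ?_ (mul_le_mul_of_nonneg_left hsq (by positivity))
    rw [Finset.mul_sum]
    exact Finset.sum_le_sum fun i _ => mul_le_mul_of_nonneg_right (hcoef i) (Real.sqrt_nonneg _)
  have hLP : Lb n B + 1 ≤ P := by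
    have e1 : Lb n B + 1 ≤ W := by
      rw [hW]
      unfold Wb
      omega
    have e2 : W * 1 ≤ P := Nat.mul_le_mul_left _ (Nat.one_le_pow _ _ (by norm_num))
    omega
  have hlt1 : |∑ i, (u i : ℝ) * √(a i : ℝ) - kk| ≤ 1 := by
    by_contra h3
    rw [not_le] at h3
    have h4 : (2 : ℝ) ^ Lb n B < 2 ^ P := pow_lt_pow_right₀ (by norm_num) (by omega)
    have h5 : (0 : ℝ) < 2 ^ P := by positivity
    nlinarith
  have hkabs : |(kk : ℝ)| ≤ 2 ^ (Lb n B + B + s0) + 1 := by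
    have h3 : |∑ i, (u i : ℝ) * √(a i : ℝ)| ≤ 2 ^ (Lb n B + B + s0) := by
      refine (Finset.abs_sum_le_sum_abs _ _).trans (le_trans (le_of_eq ?_) hU)
      refine Finset.sum_congr rfl fun i _ => ?_
      rw [abs_mul, abs_of_nonneg (Real.sqrt_nonneg _)]
    have h4 : |(kk : ℝ)| ≤ |∑ i, (u i : ℝ) * √(a i : ℝ)| +
        |∑ i, (u i : ℝ) * √(a i : ℝ) - kk| := by
      have := abs_sub (∑ i, (u i : ℝ) * √(a i : ℝ)) (∑ i, (u i : ℝ) * √(a i : ℝ) - kk)
      have e : ∑ i, (u i : ℝ) * √(a i : ℝ) - (∑ i, (u i : ℝ) * √(a i : ℝ) - kk) = kk := by ring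
      rw [e] at this
      exact this
    linarith
  have hSb : ∑ i, |(u i : ℝ)| * √(a i : ℝ) + |(kk : ℝ)| ≤ 2 ^ W := by
    have e : (2 : ℝ) ^ W = 4 * 2 ^ (Lb n B + B + s0) := by
      rw [hW]
      unfold Wb
      rw [pow_add]
      ring
    have h3 : (1 : ℝ) ≤ 2 ^ (Lb n B + B + s0) := one_le_pow₀ (by norm_num)
    rw [e]
    linarith
  have key := sep_int h1 h2 huJ hum hln kk (one_le_pow₀ (by norm_num)) hSb
  -- contradiction
  have h3 : (2 : ℝ) ^ P ≤ 2 ^ (Lb n B) * (2 ^ W) ^ (2 ^ (m + 1) - 1) := by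
    have h4 : (2 : ℝ) ^ P * 1 ≤ 2 ^ P * (|∑ i, (u i : ℝ) * √(a i : ℝ) - kk| *
        (2 ^ W) ^ (2 ^ (m + 1) - 1)) := mul_le_mul_of_nonneg_left key (by positivity)
    have h5 : |∑ i, (u i : ℝ) * √(a i : ℝ) - kk| * 2 ^ P * (2 ^ W) ^ (2 ^ (m + 1) - 1) ≤
        2 ^ (Lb n B) * (2 ^ W) ^ (2 ^ (m + 1) - 1) :=
      mul_le_mul_of_nonneg_right hclose (by positivity)
    calc (2 : ℝ) ^ P = 2 ^ P * 1 := (mul_one _).symm
      _ ≤ _ := h4
      _ = |∑ i, (u i : ℝ) * √(a i : ℝ) - kk| * 2 ^ P * (2 ^ W) ^ (2 ^ (m + 1) - 1) := by ring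
      _ ≤ _ := h5
  rw [← pow_mul, ← pow_add] at h3
  have h4 : P ≤ Lb n B + W * (2 ^ (m + 1) - 1) := by
    by_contra h5
    rw [not_le] at h5
    exact absurd h3 (not_le.2 (pow_lt_pow_right₀ (by norm_num) h5))
  have h5 : 1 ≤ 2 ^ (m + 1) := Nat.one_le_pow _ _ (by norm_num)
  have h6 : W * (2 ^ (m + 1) - 1) + W = P := by
    rw [hP]
    have e : 2 ^ (m + 1) = 2 ^ (m + 1) - 1 + 1 := by omega
    conv_rhs => rw [e, mul_add, mul_one]
  have h7 : Lb n B < W := by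
    rw [hW]
    unfold Wb
    omega
  omega

end Pool.Agent.H41.RC
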