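import Pool.Agent.H41.RC.Few

/-!
# Isolation of the hard instances

Two instances with a tiny value `∑ √(x i) - k` such that the entries in which they differ have at most `2 M` square classes
(for instance such that they differ in at most `M` places) have the same value.
-/

set_option autoImplicit false

namespace Pool.Agent.H41.RC

open Pool.Agent.H92.SR Pool.Agent.H92.SR.Tr Pool.Agent.H8.SS

variable {n : ℕ}

theorem sf_mem_of_sq {D : Finset ℕ} (h0 : 0 ∉ D) {a : ℕ} (ha : a ≠ 0) (h : Sq D a) :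
    sf a ∈ insert 1 (D.image sf) := by
  rcases h with h | ⟨c, hc, h⟩
  · rw [sf_eq ha one_ne_zero (by rw [mul_one]; exact h), Finset.mem_insert]
    left
    exact Nat.eq_one_of_mul_eq_one_left (sf_spec 1).1
  · have hc0 : c ≠ 0 := by
      rintro rfl
      exact h0 hc
    rw [sf_eq ha hc0 (by rw [mul_comm]; exact h), Finset.mem_insert]
    right
    exact Finset.mem_image_of_mem _ hc

open Classical in
/-- two instances with tiny values whose differing entries have few classes have the same value -/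
theorem iso {N x y : Fin n → ℕ} (hx : ∀ i, x i ≤ N i) (hy : ∀ i, y i ≤ N i) {M : ℕ}
    {D : Finset ℕ} (h0 : 0 ∉ D) (hD : D.card ≤ 2 * M)
    (hxy : ∀ i, x i ≠ y i → Sq D (x i) ∧ Sq D (y i)) {k₁ k₂ : ℕ}
    (hk₁ : |∑ i, √(x i : ℝ) - k₁| * 2 ^ (1 + 2 * (∑ i, Nat.size (N i) + 2) * 4 ^ M) < 1)
    (hk₂ : |∑ i, √(y i : ℝ) - k₂| * 2 ^ (1 + 2 * (∑ i, Nat.size (N i) + 2) * 4 ^ M) < 1) :
    ∑ i, √(x i : ℝ) - k₁ = ∑ i, √(y i : ℝ) - k₂ := by
  set G : Finset (Fin n) := Finset.univ.filter fun i => x i ≠ y i with hGdef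
  have hG : ∀ i, i ∉ G → x i = y i := by
    intro i hi
    by_contra h
    exact hi (Finset.mem_filter.2 ⟨Finset.mem_univ _, h⟩)
  have hGm : ∀ i ∈ G, x i ≠ y i := fun i hi => (Finset.mem_filter.1 hi).2
  set E : Finset ℕ := insert 1 (D.image sf) with hE
  have hEs : ∀ c ∈ E, Squarefree c := by
    intro c hc
    rw [hE, Finset.mem_insert, Finset.mem_image] at hc
    rcases hc with rfl | ⟨d, -, rfl⟩
    · exact squarefree_one
    · exact (sf_spec _).2
  have hcard : E.card ≤ 2 * M + 1 :=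
    (Finset.card_insert_le _ _).trans (Nat.succ_le_succ (Finset.card_image_le.trans hD))
  have hxE : ∀ i ∈ G, x i ≠ 0 → sf (x i) ∈ E := fun i hi h =>
    sf_mem_of_sq h0 h (hxy i (hGm i hi)).1
  have hyE : ∀ i ∈ G, y i ≠ 0 → sf (y i) ∈ E := fun i hi h =>
    sf_mem_of_sq h0 h (hxy i (hGm i hi)).2
  set V : ℝ := ∑ i, √(x i : ℝ) with hV
  set V' : ℝ := ∑ i, √(y i : ℝ) with hV'
  have hval : ∑ j ∈ G, (√(x j : ℝ) - √(y j : ℝ)) = V - V' := by
    rw [hV, hV', ← Finset.sum_sub_distrib]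
    refine Finset.sum_subset (Finset.subset_univ _) fun j _ hj => ?_
    rw [hG j hj, sub_self]
  by_cases hsum : ∃ c ∈ E, (∑ j ∈ G, (co c (x j) - co c (y j))) -
      (if c = 1 then ((k₁ : ℤ) - k₂) else 0) ≠ 0
  · exfalso
    set s0 : ℕ := ∑ i, Nat.size (N i) with hs0
    have hW : V ≤ 2 ^ s0 := sqsum' hx
    have hW' : V' ≤ 2 ^ s0 := sqsum' hy
    have hV0 : 0 ≤ V := Finset.sum_nonneg fun i _ => Real.sqrt_nonneg _
    have hV0' : 0 ≤ V' := Finset.sum_nonneg fun i _ => Real.sqrt_nonneg _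
    set P : ℕ := 2 * (s0 + 2) * 4 ^ M with hPdef
    have hp1 : (1 : ℝ) ≤ 2 ^ (1 + P) := one_le_pow₀ (by norm_num)
    have ha1 : |V - k₁| < 1 := by
      have := mul_le_mul_of_nonneg_left hp1 (abs_nonneg (V - k₁))
      linarith
    have ha2 : |V' - k₂| < 1 := by
      have := mul_le_mul_of_nonneg_left hp1 (abs_nonneg (V' - k₂))
      linarith
    rw [abs_lt] at ha1 ha2
    have hone : (1 : ℝ) ≤ 2 ^ s0 := one_le_pow₀ (by norm_num)
    have hpow : (2 : ℝ) ^ (s0 + 2) = 4 * 2 ^ s0 := by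
      rw [pow_add]
      ring
    have hk0 : (0 : ℝ) ≤ k₁ := Nat.cast_nonneg _
    have hk0' : (0 : ℝ) ≤ k₂ := Nat.cast_nonneg _
    have hSb : ∑ j ∈ G, (√(x j : ℝ) + √(y j : ℝ)) + |(((k₁ : ℤ) - k₂ : ℤ) : ℝ)| ≤
        2 ^ (s0 + 2) := by
      have h1 : ∑ j ∈ G, (√(x j : ℝ) + √(y j : ℝ)) ≤ V + V' := by
        rw [Finset.sum_add_distrib]
        exact add_le_add
          (Finset.sum_le_sum_of_subset_of_nonneg (Finset.subset_univ _)
            fun i _ _ => Real.sqrt_nonneg _)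
          (Finset.sum_le_sum_of_subset_of_nonneg (Finset.subset_univ _)
            fun i _ _ => Real.sqrt_nonneg _)
      have h2 : |(((k₁ : ℤ) - k₂ : ℤ) : ℝ)| ≤ 2 ^ s0 + 1 := by
        push_cast
        rw [abs_le]
        constructor <;> linarith
      rw [hpow]
      linarith
    have key := sepf x y ((k₁ : ℤ) - k₂) G (D := E) (Finset.mem_insert_self _ _) hEs
      hxE hyE hsum (one_le_pow₀ (by norm_num)) hSb
    have hval' : ∑ j ∈ G, (√(x j : ℝ) - √(y j : ℝ)) - (((k₁ : ℤ) - k₂ : ℤ) : ℝ) =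
        (V - k₁) - (V' - k₂) := by
      rw [hval]
      push_cast
      ring
    rw [hval'] at key
    have hexp : ((2 : ℝ) ^ (s0 + 2)) ^ (2 ^ E.card - 1) ≤ 2 ^ P := by
      rw [← pow_mul]
      refine pow_le_pow_right₀ (by norm_num) ?_
      have h1 : 2 ^ E.card ≤ 2 ^ (2 * M + 1) := Nat.pow_le_pow_right (by norm_num) hcard
      have e2 : P = (s0 + 2) * 2 ^ (2 * M + 1) := by
        rw [hPdef, pow_succ, pow_mul]
        norm_num
        ring
      rw [e2]
      exact Nat.mul_le_mul_left _ ((Nat.sub_le _ _).trans h1)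
    have hlow : 1 ≤ |(V - k₁) - (V' - k₂)| * 2 ^ P :=
      key.trans (mul_le_mul_of_nonneg_left hexp (abs_nonneg _))
    have hup : |(V - k₁) - (V' - k₂)| ≤ |V - k₁| + |V' - k₂| := abs_sub _ _
    rw [pow_add, pow_one] at hk₁ hk₂
    have hP : (0 : ℝ) < 2 ^ P := by positivity
    have hup' := mul_le_mul_of_nonneg_right hup hP.le
    nlinarith
  · push Not at hsum
    have hfin : V - V' = (((k₁ : ℤ) - k₂ : ℤ) : ℝ) := by
      rw [← hval]
      have e2 : ∀ i ∈ G, √(x i : ℝ) - √(y i : ℝ) =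
          ∑ c ∈ E, ((co c (x i) : ℝ) - (co c (y i) : ℝ)) * √(c : ℝ) := by
        intro i hi
        rw [sqrt_co (hxE i hi), sqrt_co (hyE i hi), ← Finset.sum_sub_distrib]
        refine Finset.sum_congr rfl fun c _ => ?_
        ring
      rw [Finset.sum_congr rfl e2, Finset.sum_comm]
      have e3 : ∀ c ∈ E, ∑ i ∈ G, ((co c (x i) : ℝ) - (co c (y i) : ℝ)) * √(c : ℝ) =
          (if c = 1 then (((k₁ : ℤ) - k₂ : ℤ) : ℝ) else 0) := by
        intro c hc
        have h1 := hsum c hc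
        have h2 : ∑ j ∈ G, (co c (x j) - co c (y j)) =
            (if c = 1 then ((k₁ : ℤ) - k₂) else 0) := by linarith
        have h3 : ∑ j ∈ G, ((co c (x j) : ℝ) - (co c (y j) : ℝ)) =
            (((if c = 1 then ((k₁ : ℤ) - k₂) else 0) : ℤ) : ℝ) := by
          rw [← h2]
          push_cast
          rfl
        rw [← Finset.sum_mul, h3]
        by_cases hc1 : c = 1
        · rw [if_pos hc1, if_pos hc1, hc1]
          simp
        · rw [if_neg hc1, if_neg hc1]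
          simp
      rw [Finset.sum_congr rfl e3, Finset.sum_ite_eq', if_pos (Finset.mem_insert_self _ _)]
    push_cast at hfin
    linarith

/-- two different naturals whose square roots differ by an integer are squares -/
theorem isSquare_of_sub {a b : ℕ} (hab : a ≠ b) {z : ℤ} (h : √(a : ℝ) - √(b : ℝ) = z) :
    IsSquare a ∧ IsSquare b := by
  have key : ∀ {a b : ℕ} {z : ℤ}, a ≠ b → √(a : ℝ) - √(b : ℝ) = z → IsSquare b := by
    intro a b z hab h
    by_contra hb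
    have hirr : Irrational √(b : ℝ) := irrational_sqrt_natCast_iff.2 hb
    have hz : (z : ℝ) ≠ 0 := by
      intro hz
      rw [hz] at h
      have h1 : √(a : ℝ) = √(b : ℝ) := by linarith
      have h2 : (a : ℝ) = b := (Real.sqrt_inj (Nat.cast_nonneg _) (Nat.cast_nonneg _)).1 h1
      exact hab (by exact_mod_cast h2)
    have h1 : √(a : ℝ) = z + √(b : ℝ) := by linarith
    have h2 : (a : ℝ) = z ^ 2 + 2 * z * √(b : ℝ) + b := by
      have h3 : √(a : ℝ) ^ 2 = a := Real.sq_sqrt (Nat.cast_nonneg _)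
      have h4 : √(b : ℝ) ^ 2 = b := Real.sq_sqrt (Nat.cast_nonneg _)
      rw [← h3, h1]
      calc ((z : ℝ) + √(b : ℝ)) ^ 2 = z ^ 2 + 2 * z * √(b : ℝ) + √(b : ℝ) ^ 2 := by ring
        _ = _ := by rw [h4]
    have h3 : √(b : ℝ) = ((((a : ℤ) - z ^ 2 - b : ℤ) / (2 * z : ℤ) : ℚ) : ℝ) := by
      push_cast
      rw [eq_div_iff (by simpa using hz)]
      linarith
    exact hirr ⟨_, h3.symm⟩
  refine ⟨?_, key hab h⟩
  refine key hab.symm (z := -z) ?_
  push_cast
  linarith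

/-- for negative thresholds the program of `ge0` is fast -/
theorem pre_neg (L : List ℕ) {k : ℤ} (hk : k < 0) : pre (encS L k) = node leaf (bit true) := by
  have e : pre (encS L k) = if bit (decide (k < 0)) = leaf then
      if ltb (fst (sums (encL L) leaf)) (snd (sums (encL L) leaf)) = true then
        node one (encI L k.natAbs)
      else
        if ltb (fst (sums (encL L) leaf)) (encN k.natAbs) = true then node leaf (bit false)
        else node leaf (bit true)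
    else node leaf (bit true) := rfl
  rw [e, decide_eq_true hk, if_neg (by simp [bit])]

open Classical in
/-- `ge0` with the information that the slow case needs a threshold `k ≥ 0` -/
theorem ge0' (c : Prog) (T : List ℕ → ℕ → ℕ)
    (hc : ∀ L k, Eval c (encI L k) (bit (decide (EE L k ≤ 0))) (T L k)) :
    ∃ (c' : Prog) (q : Polynomial ℕ), ∀ (L : List ℕ) (k : ℤ), ∃ t,
      (t ≤ q.eval (szs L k) ∨ (0 ≤ k ∧ t ≤ T L k.natAbs + q.eval (szs L k))) ∧
      Eval c' (encS L k) (bit (decide ((k : ℝ) ≤ (L.map fun a : ℕ => √(a : ℝ)).sum))) t := by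
  obtain ⟨s, hs⟩ := FP_pre.size_bound
  obtain ⟨c1, q1, h1⟩ := FP_pre
  obtain ⟨c2, q2, h2⟩ := FP_ng
  refine ⟨Prog.comp (Prog.cond Prog.id (Prog.comp c2 c)) c1,
    (q1 + 4 * s + Polynomial.X + 10).comp (8 * Polynomial.X + 12) + Polynomial.C (q2.eval 3),
    fun L k => ?_⟩
  obtain ⟨t1, ht1, he1⟩ := h1 (encS L k)
  have hsz := size_encS L k
  have m1 : q1.eval (size (encS L k)) ≤ q1.eval (8 * szs L k + 12) := poly_mono q1 hsz
  have m2 : size (pre (encS L k)) ≤ s.eval (8 * szs L k + 12) := (hs _).trans (poly_mono s hsz)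
  have e3 : (((q1 + 4 * s + Polynomial.X + 10).comp (8 * Polynomial.X + 12) +
      Polynomial.C (q2.eval 3)).eval (szs L k)) = q1.eval (8 * szs L k + 12) +
      4 * s.eval (8 * szs L k + 12) + (8 * szs L k + 12) + 10 + q2.eval 3 := by
    simp [Polynomial.eval_comp]
  rcases pre_spec L k with h | ⟨h, hd⟩
  · rw [h] at he1 m2
    have he2 : Eval (Prog.cond Prog.id (Prog.comp c2 c))
        (node leaf (bit (decide ((k : ℝ) ≤ (L.map fun a : ℕ => √(a : ℝ)).sum))))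
        (bit (decide ((k : ℝ) ≤ (L.map fun a : ℕ => √(a : ℝ)).sum))) _ :=
      Eval.condNil rfl (Eval.id _)
    refine ⟨_, Or.inl ?_, Eval.comp he1 he2⟩
    rw [e3]
    simp only [snd, size] at m2 ⊢
    omega
  · have hk : 0 ≤ k := by
      by_contra hk
      rw [pre_neg L (not_le.1 hk)] at h
      injection h with h3 h4
      exact absurd h3 (by simp [one])
    rw [h] at he1 m2
    obtain ⟨t2, ht2, he2⟩ := h2 (bit (decide (EE L k.natAbs ≤ 0)))
    rw [ng_bit, ← hd] at he2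
    have he3 : Eval (Prog.cond Prog.id (Prog.comp c2 c)) (node one (encI L k.natAbs))
        (bit (decide ((k : ℝ) ≤ (L.map fun a : ℕ => √(a : ℝ)).sum))) _ :=
      Eval.condNode (by simp [fst, one]) (Eval.comp (hc L k.natAbs) he2)
    refine ⟨_, Or.inr ⟨hk, ?_⟩, Eval.comp he1 he3⟩
    rw [e3]
    have m3 : q2.eval (size (bit (decide (EE L k.natAbs ≤ 0)))) ≤ q2.eval 3 :=
      poly_mono q2 (size_bit_le _)
    simp only [snd, size] at m2 ⊢
    omega

open Classical in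
/-- `tmz` for single instances -/
theorem tmi : ∃ (c : Prog) (T : List ℕ → ℤ → ℕ) (q : Polynomial ℕ) (Λ : ℕ), 1 ≤ Λ ∧
    (∀ (L : List ℕ) (k : ℤ),
      Eval c (encS L k) (bit (decide ((k : ℝ) ≤ (L.map fun a : ℕ => √(a : ℝ)).sum))) (T L k)) ∧
    (∀ (n : ℕ) (N x : Fin n → ℕ), (∀ i, x i ≤ N i) → ∀ (m : ℕ) (k : ℤ),
      q.eval (n + ∑ i, Nat.size (N i) + Nat.size k.natAbs) * Λ ^ m < T (List.ofFn x) k →
      ∃ k₁ : ℕ, (k₁ : ℤ) = k ∧
        |∑ i, √(x i : ℝ) - k₁| * 2 ^ (1 + 2 * (∑ i, Nat.size (N i) + 2) * 4 ^ m) < 1) ∧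
    ∀ (n : ℕ) (N x : Fin n → ℕ), (∀ i, x i ≤ N i) → ∀ D : Finset ℕ, 1 ∈ D →
      (∀ c ∈ D, Squarefree c) → (∀ i, x i ≠ 0 → sf (x i) ∈ D) → ∀ m : ℕ, D.card ≤ 2 * m →
      ∀ k : ℤ, T (List.ofFn x) k ≤
        q.eval (n + ∑ i, Nat.size (N i) + Nat.size k.natAbs) * Λ ^ m := by
  obtain ⟨c, T, q, hE, hT1, hT2⟩ := tim0
  have hΛ : 1 ≤ 4 ^ q.natDegree := Nat.one_le_pow _ _ (by norm_num)
  have hev : ∀ x : ℕ, (q.comp (3 * Polynomial.X + 5)).eval x = q.eval (3 * x + 5) := by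
    intro x
    simp [Polynomial.eval_comp]
  have hkey : ∀ (L : List ℕ) (k s m y : ℕ), bsz L k ≤ s → 1 ≤ |EE L k| * 2 ^ y →
      y ≤ 1 + (2 * s + 4) * 4 ^ m →
      T L k ≤ (q.comp (3 * Polynomial.X + 5)).eval s * (4 ^ q.natDegree) ^ m := by
    intro L k s m y hs hx hy
    have h1 := hT1 L k y hx
    have h4 : 1 ≤ 4 ^ m := Nat.one_le_pow _ _ (by norm_num)
    have h2 : bsz L k + y ≤ (3 * s + 5) * 4 ^ m := by
      have h5 : s * 1 ≤ s * 4 ^ m := Nat.mul_le_mul_left _ h4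
      have h6 : (3 * s + 5) * 4 ^ m = s * 4 ^ m + (2 * s + 4) * 4 ^ m + 4 ^ m := by ring
      omega
    rw [hev]
    refine (h1.trans (poly_mono q h2)).trans ?_
    refine (poly_scale q _ h4).trans (le_of_eq ?_)
    rw [← pow_mul, ← pow_mul, mul_comm m]
  have hgap : ∀ (n : ℕ) (N x : Fin n → ℕ), (∀ i, x i ≤ N i) → ∀ m k : ℕ,
      (q.comp (3 * Polynomial.X + 5)).eval (n + ∑ i, Nat.size (N i) + Nat.size k) *
        (4 ^ q.natDegree) ^ m < T (List.ofFn x) k →
      |∑ i, √(x i : ℝ) - k| * 2 ^ (1 + 2 * (∑ i, Nat.size (N i) + 2) * 4 ^ m) < 1 := by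
    intro n N x hN m k h
    by_contra hb
    rw [not_lt, ← EE_ofFn] at hb
    have h3 := hkey _ _ _ m _ (bsz_ofFn hN k) hb (by
      refine Nat.add_le_add_left (Nat.mul_le_mul_right _ ?_) _
      omega)
    omega
  have hfew : ∀ (n : ℕ) (N x : Fin n → ℕ), (∀ i, x i ≤ N i) → ∀ D : Finset ℕ, 1 ∈ D →
      (∀ c ∈ D, Squarefree c) → (∀ i, x i ≠ 0 → sf (x i) ∈ D) → ∀ m : ℕ, D.card ≤ 2 * m →
      ∀ k : ℕ, T (List.ofFn x) k ≤
        (q.comp (3 * Polynomial.X + 5)).eval (n + ∑ i, Nat.size (N i) + Nat.size k) *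
          (4 ^ q.natDegree) ^ m := by
    intro n N x hN D h1 hD hx m hm k
    by_cases hsq : ∀ a ∈ List.ofFn x, IsSquare a
    · rw [hev]
      refine (hT2 _ k hsq).trans ((poly_mono q ?_).trans
        (Nat.le_mul_of_pos_right _ (pow_pos hΛ m)))
      have := bsz_ofFn hN k
      omega
    · refine hkey _ _ _ m _ (bsz_ofFn hN k) (few_sep hN h1 hD hx hm k hsq) ?_
      have h2 : (∑ i, Nat.size (N i) + Nat.size k + 1) * 4 ^ m ≤
          (2 * (n + ∑ i, Nat.size (N i) + Nat.size k) + 4) * 4 ^ m :=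
        Nat.mul_le_mul_right _ (by omega)
      omega
  obtain ⟨c', q', h'⟩ := ge0' c T hE
  choose T' hT' hE' using h'
  refine ⟨c', T', q.comp (3 * Polynomial.X + 5) + q', 4 ^ q.natDegree, hΛ, hE', ?_, ?_⟩
  · intro n N x hN m k h
    have h4 : q'.eval (szs (List.ofFn x) k) ≤
        q'.eval (n + ∑ i, Nat.size (N i) + Nat.size k.natAbs) := poly_mono q' (bsz_ofFn hN _)
    have h5 : q'.eval (n + ∑ i, Nat.size (N i) + Nat.size k.natAbs) ≤
        q'.eval (n + ∑ i, Nat.size (N i) + Nat.size k.natAbs) * (4 ^ q.natDegree) ^ m :=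
      Nat.le_mul_of_pos_right _ (pow_pos hΛ m)
    rw [Polynomial.eval_add, add_mul] at h
    rcases hT' (List.ofFn x) k with h3 | ⟨h3, h6⟩
    · omega
    · exact ⟨k.natAbs, Int.natAbs_of_nonneg h3, hgap n N x hN m k.natAbs (by omega)⟩
  · intro n N x hN D h1 hD hx m hm k
    have h3 := hfew n N x hN D h1 hD hx m hm k.natAbs
    have h4 : q'.eval (szs (List.ofFn x) k) ≤
        q'.eval (n + ∑ i, Nat.size (N i) + Nat.size k.natAbs) := poly_mono q' (bsz_ofFn hN _)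
    have h5 : q'.eval (n + ∑ i, Nat.size (N i) + Nat.size k.natAbs) ≤
        q'.eval (n + ∑ i, Nat.size (N i) + Nat.size k.natAbs) * (4 ^ q.natDegree) ^ m :=
      Nat.le_mul_of_pos_right _ (pow_pos hΛ m)
    rw [Polynomial.eval_add, add_mul]
    rcases hT' (List.ofFn x) k with h6 | ⟨-, h6⟩ <;> omega

/-- the instance `(y, k)` is `M`-hard (for the program with the time `T`, the polynomial `q` and the constant `Λ`): the
time is more than `q(s + |k|) Λ ^ M`, `s = n + ∑ |N i|` -/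
def Hard (T : List ℕ → ℤ → ℕ) (q : Polynomial ℕ) (Λ : ℕ) (N : Fin n → ℕ) (M : ℕ)
    (y : Fin n → ℕ) (k : ℤ) : Prop :=
  q.eval (n + ∑ i, Nat.size (N i) + Nat.size k.natAbs) * Λ ^ M < T (List.ofFn y) k

open Classical in
theorem mainG : ∃ (c : Prog) (T : List ℕ → ℤ → ℕ) (q : Polynomial ℕ) (Λ : ℕ), 1 ≤ Λ ∧
    (∀ (L : List ℕ) (k : ℤ),
      Eval c (encS L k) (bit (decide ((k : ℝ) ≤ (L.map fun a : ℕ => √(a : ℝ)).sum))) (T L k)) ∧
    (∀ (n : ℕ) (N : Fin n → ℕ) (M : ℕ) (x y : Fin n → ℕ) (k l : ℤ), (∀ i, x i ≤ N i) →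
      (∀ i, y i ≤ N i) → Hard T q Λ N M x k → Hard T q Λ N M y l →
      ((Finset.univ.filter fun i => x i ≠ y i).card ≤ M →
        ∑ i, √(x i : ℝ) - k = ∑ i, √(y i : ℝ) - l) ∧
      (∀ D : Finset ℕ, 0 ∉ D → D.card ≤ 2 * M → (∀ i, x i ≠ y i → Sq D (x i) ∧ Sq D (y i)) →
        ∑ i, √(x i : ℝ) - k = ∑ i, √(y i : ℝ) - l) ∧
      (1 ≤ M → ∀ i, x i ≠ y i → (∀ j, j ≠ i → x j = y j) → IsSquare (x i) ∧ IsSquare (y i))) ∧
    ∀ (n : ℕ) (N : Fin n → ℕ) (μ : (Fin n → ℕ) → ℝ), (∀ x ∈ lists N, 0 ≤ μ x) →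
      ∑ x ∈ lists N, μ x = 1 → ∀ θ : ℝ, 0 ≤ θ → ∀ (G : Finset (Fin n)) (ρ : ℕ),
      (∀ g m : ℕ, θ ^ g ≤ 1 / 2 → m + ρ * (g * Nat.size n + 1) ≤ G.card →
        (∀ i ∈ G, Thin N μ (m + ρ * (g * Nat.size n + 1)) θ i) →
        ∑ x ∈ (lists N).filter (fun x => ∃ (y : Fin n → ℕ) (k : ℤ), (∀ i, y i ≤ N i) ∧
          (Finset.univ.filter fun i => y i ≠ x i).card ≤ ρ ∧
          Hard T q Λ N (m + ρ * (g * Nat.size n + 1)) y k), μ x ≤ θ ^ m) ∧
      ((∀ i ∈ G, Thin N μ G.card θ i) → 2 * Λ * θ ≤ 1 →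
        ∀ (B : ℕ) (y : (Fin n → ℕ) → Fin n → ℕ) (κ : (Fin n → ℕ) → ℤ),
        (∀ x ∈ lists N, (∀ i, y x i ≤ N i) ∧ (Finset.univ.filter fun i => y x i ≠ x i).card ≤ ρ ∧
          Nat.size (κ x).natAbs ≤ B) →
        ∑ x ∈ lists N, μ x * (T (List.ofFn (y x)) (κ x) : ℝ) ≤
          (q.eval (n + ∑ i, Nat.size (N i) + B) : ℕ) * ((Λ : ℝ) ^ (ρ * (Nat.size n + 1)) +
            (Λ : ℝ) ^ n * θ ^ (G.card - ρ * (Nat.size n + 1)))) := by
  obtain ⟨c, T, q, Λ, hΛ, hE, h1, h2⟩ := tmi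
  have hΛ0 : 0 < Λ := hΛ
  have hΛr : (1 : ℝ) ≤ Λ := by exact_mod_cast hΛ
  set q' : Polynomial ℕ := q * Polynomial.C (Λ * (1 + 3 * Λ)) with hq'
  have hev : ∀ y : ℕ, q'.eval y = q.eval y * (Λ * (1 + 3 * Λ)) := by
    intro y
    rw [hq', Polynomial.eval_mul, Polynomial.eval_C]
  have hle : ∀ y : ℕ, q.eval y ≤ q'.eval y := by
    intro y
    rw [hev]
    exact Nat.le_mul_of_pos_right _ (Nat.mul_pos hΛ0 (by omega))
  have hhard : ∀ (n : ℕ) (N : Fin n → ℕ) (M : ℕ) (x : Fin n → ℕ) (k : ℤ), (∀ i, x i ≤ N i) →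
      Hard T q' Λ N M x k → ∃ k₁ : ℕ, (k₁ : ℤ) = k ∧
        |∑ i, √(x i : ℝ) - k₁| * 2 ^ (1 + 2 * (∑ i, Nat.size (N i) + 2) * 4 ^ M) < 1 := by
    intro n N M x k hx hk
    refine h1 n N x hx M k (lt_of_le_of_lt ?_ hk)
    exact Nat.mul_le_mul_right _ (hle _)
  have hbad : ∀ (n : ℕ) (N : Fin n → ℕ) (M : ℕ) (x : Fin n → ℕ) (k : ℤ), (∀ i, x i ≤ N i) →
      Hard T q' Λ N M x k → bad (2 * (∑ i, Nat.size (N i) + 2)) M x := by
    intro n N M x k hx hk
    obtain ⟨k₁, -, h3⟩ := hhard n N M x k hx hk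
    refine ⟨k₁, ?_⟩
    rw [EE_ofFn]
    exact h3
  have hiso : ∀ (n : ℕ) (N : Fin n → ℕ) (M : ℕ) (x y : Fin n → ℕ) (k l : ℤ),
      (∀ i, x i ≤ N i) → (∀ i, y i ≤ N i) → Hard T q' Λ N M x k → Hard T q' Λ N M y l →
      ∀ D : Finset ℕ, 0 ∉ D → D.card ≤ 2 * M → (∀ i, x i ≠ y i → Sq D (x i) ∧ Sq D (y i)) →
        ∑ i, √(x i : ℝ) - k = ∑ i, √(y i : ℝ) - l := by
    intro n N M x y k l hx hy hbx hby D h0 hD hxy
    obtain ⟨k₁, rfl, h3⟩ := hhard n N M x k hx hbx
    obtain ⟨k₂, rfl, h4⟩ := hhard n N M y l hy hby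
    exact_mod_cast iso hx hy h0 hD hxy h3 h4
  have hdist : ∀ (n : ℕ) (N : Fin n → ℕ) (M : ℕ) (x y : Fin n → ℕ) (k l : ℤ),
      (∀ i, x i ≤ N i) → (∀ i, y i ≤ N i) → Hard T q' Λ N M x k → Hard T q' Λ N M y l →
      (Finset.univ.filter fun i => x i ≠ y i).card ≤ M →
        ∑ i, √(x i : ℝ) - k = ∑ i, √(y i : ℝ) - l := by
    intro n N M x y k l hx hy hbx hby hM
    refine hiso n N M x y k l hx hy hbx hby
      (((Finset.univ.filter fun i => x i ≠ y i).image x ∪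
        (Finset.univ.filter fun i => x i ≠ y i).image y).erase 0) (by simp) ?_ ?_
    · refine Finset.card_erase_le.trans ((Finset.card_union_le _ _).trans ?_)
      have h3 := Finset.card_image_le (s := Finset.univ.filter fun i => x i ≠ y i) (f := x)
      have h4 := Finset.card_image_le (s := Finset.univ.filter fun i => x i ≠ y i) (f := y)
      omega
    · intro i hi
      have hmem : i ∈ Finset.univ.filter fun i => x i ≠ y i :=
        Finset.mem_filter.2 ⟨Finset.mem_univ _, hi⟩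
      constructor
      · by_cases h : x i = 0
        · left
          rw [h]
          exact ⟨0, by simp⟩
        · right
          exact ⟨x i, Finset.mem_erase.2 ⟨h, Finset.mem_union_left _
            (Finset.mem_image_of_mem x hmem)⟩, x i, rfl⟩
      · by_cases h : y i = 0
        · left
          rw [h]
          exact ⟨0, by simp⟩
        · right
          exact ⟨y i, Finset.mem_erase.2 ⟨h, Finset.mem_union_right _
            (Finset.mem_image_of_mem y hmem)⟩, y i, rfl⟩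
  refine ⟨c, T, q', Λ, hΛ, hE, ?_, ?_⟩
  · intro n N M x y k l hx hy hbx hby
    refine ⟨hdist n N M x y k l hx hy hbx hby, hiso n N M x y k l hx hy hbx hby, ?_⟩
    intro hM i hi hj
    have hz := hdist n N M x y k l hx hy hbx hby (by
      refine le_trans (Finset.card_le_one.2 ?_) hM
      intro a ha b hb
      have h3 : ∀ a, a ∈ Finset.univ.filter (fun i => x i ≠ y i) → a = i := by
        intro a ha
        by_contra h
        exact (Finset.mem_filter.1 ha).2 (hj a h)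
      rw [h3 a ha, h3 b hb])
    have hz2 : ∑ j, (√(x j : ℝ) - √(y j : ℝ)) = √(x i : ℝ) - √(y i : ℝ) := by
      rw [Finset.sum_eq_single i]
      · intro j _ hji
        rw [hj j hji, sub_self]
      · intro h
        exact absurd (Finset.mem_univ i) h
    rw [Finset.sum_sub_distrib] at hz2
    refine isSquare_of_sub hi (z := k - l) ?_
    push_cast
    linarith
  intro n N μ hμ hμ1 θ hθ0 G ρ
  have hPF : ∀ (M : ℕ) (x y : Fin n → ℕ), (∀ i, y i ≤ N i) →
      (dif x y).card ≤ ρ → ¬ PF N ρ M x → ∀ k : ℤ, T (List.ofFn y) k ≤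
        q.eval (n + ∑ i, Nat.size (N i) + Nat.size k.natAbs) * Λ ^ M :=
    fun M x y hy hd hne k => by
      by_contra hlt
      obtain ⟨k₁, -, h3⟩ := h1 n N y hy M k (not_le.1 hlt)
      refine hne ⟨y, hy, hd, k₁, ?_⟩
      rw [EE_ofFn]
      exact h3
  refine ⟨?_, ?_⟩
  · intro g m hθg hm hG
    refine le_trans (Finset.sum_le_sum_of_subset_of_nonneg ?_ ?_)
      (cntP N μ hμ hμ1 hθ0 hθg G ρ m hm hG)
    · intro x hx
      rw [Finset.mem_filter] at hx ⊢
      obtain ⟨hx, y, k, hy, hd, hh⟩ := hx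
      exact ⟨hx, y, hy, hd, hbad n N _ y k hy hh⟩
    · intro x hx _
      exact hμ x (Finset.mem_filter.1 hx).1
  · intro hG hΛθ B y κ hκ
    have hQ : ∀ x ∈ lists N, q.eval (n + ∑ i, Nat.size (N i) + Nat.size (κ x).natAbs) ≤
        q.eval (n + ∑ i, Nat.size (N i) + B) := fun x hx =>
      poly_mono q (Nat.add_le_add_left (hκ x hx).2.2 _)
    have hθ2 : θ ^ 1 ≤ 1 / 2 := by
      rw [pow_one]
      have := mul_le_mul_of_nonneg_right hΛr hθ0
      linarith
    have hv1 : ρ * (1 * Nat.size n + 1) = ρ * (Nat.size n + 1) := by rw [one_mul]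
    set v : ℕ := ρ * (Nat.size n + 1) with hv
    set Q : ℕ := q.eval (n + ∑ i, Nat.size (N i) + B) with hQdef
    have h3 := avgF (lists N) μ (fun x => (T (List.ofFn (y x)) (κ x) : ℝ))
      (fun m x => PF N ρ (m + v) x)
      (Q := ((Q * Λ ^ v : ℕ) : ℝ)) (Q' := ((Q * Λ ^ (n + 1) : ℕ) : ℝ))
      (L := (Λ : ℝ)) (M := G.card - v) (p := fun m => θ ^ m) (Nat.cast_nonneg _)
      (Nat.cast_nonneg _) hΛr hμ hμ1 ?_ ?_ ?_
    · refine h3.trans ?_
      have h4 : 1 + ∑ m ∈ Finset.range (G.card - v), (Λ : ℝ) ^ (m + 1) * θ ^ m ≤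
          1 + 3 * (Λ : ℝ) := by
        have h5 := geo hΛr hθ0 hΛθ (G.card - v)
        have h6 : (0 : ℝ) ≤ (Λ : ℝ) ^ (G.card - v) * θ ^ (G.card - v) := by positivity
        linarith
      have h5 := mul_le_mul_of_nonneg_left h4 (Nat.cast_nonneg (α := ℝ) (Q * Λ ^ v))
      refine (add_le_add_left h5 _).trans ?_
      have h6 : ((q'.eval (n + ∑ i, Nat.size (N i) + B) : ℕ) : ℝ) =
          (Q : ℝ) * (Λ * (1 + 3 * Λ)) := by
        rw [hev]
        push_cast
        rfl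
      rw [h6]
      push_cast
      have hQ0 : (0 : ℝ) ≤ Q := Nat.cast_nonneg _
      have hv0 : (0 : ℝ) ≤ (Λ : ℝ) ^ v := by positivity
      have hθM : (0 : ℝ) ≤ θ ^ (G.card - v) := pow_nonneg hθ0 _
      have hn0 : (0 : ℝ) ≤ (Λ : ℝ) ^ n := by positivity
      have a1 : (Q : ℝ) * (Λ : ℝ) ^ v * (1 + 3 * Λ) ≤
          Q * (Λ : ℝ) ^ v * (1 + 3 * Λ) * Λ := by
        refine le_mul_of_one_le_right ?_ hΛr
        positivity
      have a2 : (Q : ℝ) * (Λ : ℝ) ^ (n + 1) * θ ^ (G.card - v) ≤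
          Q * (Λ : ℝ) ^ (n + 1) * θ ^ (G.card - v) * (1 + 3 * Λ) := by
        refine le_mul_of_one_le_right ?_ (by linarith)
        positivity
      calc _ ≤ Q * (Λ : ℝ) ^ v * (1 + 3 * Λ) * Λ +
            Q * (Λ : ℝ) ^ (n + 1) * θ ^ (G.card - v) * (1 + 3 * Λ) := add_le_add a1 a2
        _ = _ := by
            rw [pow_succ]
            ring
    · intro x hx m _ hb
      have h4 := hPF (m + v) x (y x) (hκ x hx).1 (hκ x hx).2.1 hb (κ x)
      have h5 : T (List.ofFn (y x)) (κ x) ≤ Q * Λ ^ v * Λ ^ m := by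
        refine h4.trans ?_
        rw [mul_assoc, ← pow_add, Nat.add_comm m v]
        exact Nat.mul_le_mul (hQ x hx) le_rfl
      exact_mod_cast h5
    · intro x hx
      have h5 : T (List.ofFn (y x)) (κ x) ≤ Q * Λ ^ (n + 1) := by
        refine (h2 n N (y x) (hκ x hx).1 (insert 1 (Finset.univ.image fun i => sf (y x i)))
          (Finset.mem_insert_self _ _) ?_ ?_ (n + 1) ?_ (κ x)).trans ?_
        · intro d hd
          rw [Finset.mem_insert, Finset.mem_image] at hd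
          rcases hd with rfl | ⟨i, -, rfl⟩
          · exact squarefree_one
          · exact (sf_spec _).2
        · intro i _
          exact Finset.mem_insert_of_mem (Finset.mem_image_of_mem _ (Finset.mem_univ _))
        · refine (Finset.card_insert_le _ _).trans ?_
          have h6 := Finset.card_image_le (s := (Finset.univ : Finset (Fin n)))
            (f := fun i => sf (y x i))
          rw [Finset.card_univ, Fintype.card_fin] at h6
          omega
        · exact Nat.mul_le_mul (hQ x hx) le_rfl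
      exact_mod_cast h5
    · intro m hm
      rcases Nat.lt_or_ge G.card v with hlt | hge
      · have hm0 : m = 0 := by omega
        subst hm0
        rw [pow_zero, ← hμ1]
        exact Finset.sum_le_sum_of_subset_of_nonneg (Finset.filter_subset _ _)
          fun x hx _ => hμ x hx
      · have h6 := cntP N μ hμ hμ1 hθ0 hθ2 G ρ m (by rw [hv1]; omega)
          (fun i hi => (hG i hi).mono (by rw [hv1]; omega))
        rwa [hv1] at h6

end Pool.Agent.H41.RC
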