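import Pool.Agent.H41.RC.Rep
import Pool.Agent.H41.RC.Hyp

/-!
# The rank of the square classes
-/

set_option autoImplicit false

namespace Pool.Agent.H41.RC

open Pool.Agent.H92.SR

variable {n : ℕ}

/-- the square classes of the `a i`, `i` in `S`, are generated by at most `m` members of `J` -/
def Rk (a : Fin n → ℕ) (J : Finset (Fin n)) (m : ℕ) (S : Finset (Fin n)) : Prop :=
  ∃ K ⊆ J, K.card ≤ m ∧ ∀ i ∈ S, ∃ U ⊆ K, IsSquare (a i * ∏ l ∈ U, a l)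

theorem Rk.mono {a : Fin n → ℕ} {J : Finset (Fin n)} {m : ℕ} {S S' : Finset (Fin n)}
    (h : Rk a J m S) (hS : S' ⊆ S) : Rk a J m S' := by
  obtain ⟨K, h1, h2, h3⟩ := h
  exact ⟨K, h1, h2, fun i hi => h3 i (hS hi)⟩

theorem Rk.of_card {a : Fin n → ℕ} {J : Finset (Fin n)} {m : ℕ} {S : Finset (Fin n)}
    (h : S ⊆ J) (hm : S.card ≤ m) : Rk a J m S :=
  ⟨S, h, hm, fun i hi => ⟨{i}, Finset.singleton_subset_iff.2 hi, ⟨a i, by simp⟩⟩⟩

theorem sep_rk {a : Fin n → ℕ} {J : Finset (Fin n)} (h1 : ∀ i ∈ J, ¬ IsSquare (a i))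
    (h2 : ∀ i ∈ J, ∀ j ∈ J, i ≠ j → ¬ IsSquare (a i * a j)) {y : Fin n → ℤ} {m : ℕ}
    (hy : ∀ i, y i ≠ 0 → i ∈ J) (hr : Rk a J m (Finset.univ.filter fun i => y i ≠ 0))
    (hne : ∃ i, y i ≠ 0) (k : ℤ) {S : ℝ} (hS1 : 1 ≤ S)
    (hS : ∑ i, |(y i : ℝ)| * √(a i : ℝ) + |(k : ℝ)| ≤ S) :
    1 ≤ |∑ i, (y i : ℝ) * √(a i : ℝ) - k| * (2 ^ (∑ i, Nat.size (a i)) * S) ^ (2 ^ m) := by
  classical
  obtain ⟨K, hKJ, hKm, hU⟩ := hr
  have h0 : ∀ i ∈ J, a i ≠ 0 := fun i hi h => h1 i hi (by rw [h]; exact ⟨0, rfl⟩)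
  set P0 : ℕ := ∏ l ∈ K, a l with hP0
  have hP1 : 1 ≤ P0 := Nat.one_le_iff_ne_zero.2 (Finset.prod_ne_zero_iff.2 fun l hl => h0 l (hKJ hl))
  have hP2 : P0 ≤ 2 ^ (∑ i, Nat.size (a i)) := by
    calc P0 ≤ ∏ l ∈ K, 2 ^ Nat.size (a l) :=
          Finset.prod_le_prod' fun l _ => (Nat.lt_size_self (a l)).le
      _ = 2 ^ (∑ l ∈ K, Nat.size (a l)) := Finset.prod_pow_eq_pow_sum _ _ _
      _ ≤ 2 ^ (∑ i, Nat.size (a i)) := Nat.pow_le_pow_right (by norm_num)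
          (Finset.sum_le_sum_of_subset (Finset.subset_univ K))
  have hP1' : (1 : ℝ) ≤ P0 := by exact_mod_cast hP1
  have hP2' : (P0 : ℝ) ≤ 2 ^ (∑ i, Nat.size (a i)) := by exact_mod_cast hP2
  set Q : List ℕ := K.toList.map a with hQ
  have hQl : Q.length = K.card := by rw [hQ, List.length_map, Finset.length_toList]
  -- the single roots
  have hone : ∀ i, y i ≠ 0 → Rep Q ((P0 : ℝ) * √(a i : ℝ)) ((P0 : ℝ) * √(a i : ℝ)) := by
    intro i hi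
    obtain ⟨U, hUK, w, hw⟩ := hU i (Finset.mem_filter.2 ⟨Finset.mem_univ i, hi⟩)
    set R : ℝ := ∏ l ∈ U, √(a l : ℝ) with hR
    have hR0 : 0 ≤ R := Finset.prod_nonneg fun l _ => Real.sqrt_nonneg _
    have hR2 : R * R = ((∏ l ∈ U, a l : ℕ) : ℝ) := by
      rw [hR, ← Finset.prod_mul_distrib]
      push_cast
      exact Finset.prod_congr rfl fun l _ => Real.mul_self_sqrt (Nat.cast_nonneg _)
    have hw2 : √(a i : ℝ) * R = w := by
      have e1 : (√(a i : ℝ) * R) ^ 2 = (w : ℝ) ^ 2 := by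
        have e2 : ((a i * ∏ l ∈ U, a l : ℕ) : ℝ) = ((w * w : ℕ) : ℝ) := by rw [hw]
        rw [Nat.cast_mul, Nat.cast_mul, ← hR2] at e2
        have e3 : √(a i : ℝ) * √(a i : ℝ) = a i := Real.mul_self_sqrt (Nat.cast_nonneg _)
        calc (√(a i : ℝ) * R) ^ 2 = (√(a i : ℝ) * √(a i : ℝ)) * (R * R) := by ring
          _ = (a i : ℝ) * (R * R) := by rw [e3]
          _ = (w : ℝ) * w := e2
          _ = (w : ℝ) ^ 2 := by ring
      exact (sq_eq_sq₀ (mul_nonneg (Real.sqrt_nonneg _) hR0) (Nat.cast_nonneg w)).1 e1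
    have hP3 : (P0 : ℝ) = ((∏ l ∈ K \ U, a l : ℕ) : ℝ) * (R * R) := by
      rw [hR2, ← Nat.cast_mul, hP0, Finset.prod_sdiff hUK]
    have hval : (P0 : ℝ) * √(a i : ℝ) = (((∏ l ∈ K \ U, a l) * w : ℕ) : ℝ) * R := by
      rw [hP3, Nat.cast_mul, ← hw2]
      ring
    have hRr : Rep Q R R := by
      have h3 := rep_prod a U K.toList
      have e : (K.toList.map fun i => if i ∈ U then √(a i : ℝ) else 1).prod = R := by
        rw [Finset.prod_map_toList, Finset.prod_ite_mem, Finset.inter_eq_right.2 hUK]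
      rw [e] at h3
      exact h3
    have hc := rep_int (((∏ l ∈ K \ U, a l) * w : ℕ) : ℤ) Q
    rw [Int.cast_natCast, abs_of_nonneg (Nat.cast_nonneg _)] at hc
    rw [hval]
    exact rep_mul hc hRr
  have hX : Rep Q (∑ i, (y i : ℝ) * ((P0 : ℝ) * √(a i : ℝ)) + -((P0 : ℝ) * k))
      (∑ i, |(y i : ℝ)| * ((P0 : ℝ) * √(a i : ℝ)) + |((P0 : ℝ) * k)|) := by
    refine rep_add (rep_sum Finset.univ fun i _ => ?_) (rep_neg ?_)
    · by_cases hi : y i = 0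
      · rw [hi]
        simpa using rep_zero Q
      · exact rep_mul (rep_int (y i) Q) (hone i hi)
    · have := rep_int ((P0 : ℤ) * k) Q
      push_cast at this
      exact this
  have hXv : ∑ i, (y i : ℝ) * ((P0 : ℝ) * √(a i : ℝ)) + -((P0 : ℝ) * k) =
      P0 * (∑ i, (y i : ℝ) * √(a i : ℝ) - k) := by
    rw [mul_sub, Finset.mul_sum, ← sub_eq_add_neg]
    congr 1
    exact Finset.sum_congr rfl fun i _ => by ring
  have hXt : ∑ i, |(y i : ℝ)| * ((P0 : ℝ) * √(a i : ℝ)) + |((P0 : ℝ) * k)| ≤ P0 * S := by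
    have e : ∑ i, |(y i : ℝ)| * ((P0 : ℝ) * √(a i : ℝ)) + |((P0 : ℝ) * k)| =
        P0 * (∑ i, |(y i : ℝ)| * √(a i : ℝ) + |(k : ℝ)|) := by
      rw [mul_add, Finset.mul_sum, abs_mul, abs_of_nonneg (Nat.cast_nonneg P0)]
      congr 1
      exact Finset.sum_congr rfl fun i _ => by ring
    rw [e]
    exact mul_le_mul_of_nonneg_left hS (Nat.cast_nonneg _)
  rw [hXv] at hX
  have hnz : ∑ i, (y i : ℝ) * √(a i : ℝ) - k ≠ 0 := by
    intro h3
    have h4 := sep_int h1 h2 hy (le_refl _) hne k hS1 hS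
    rw [h3] at h4
    simp at h4
    linarith
  have hPS : (1 : ℝ) ≤ P0 * S := by nlinarith
  have key := rep_sep (rep_mono hX hXt) (mul_ne_zero (by positivity) hnz) hPS
  rw [hQl, abs_mul, abs_of_nonneg (Nat.cast_nonneg P0)] at key
  have h2m : 1 ≤ 2 ^ m := Nat.one_le_pow _ _ (by norm_num)
  have hexp : ((P0 : ℝ) * S) ^ (2 ^ K.card - 1) ≤ (P0 * S) ^ (2 ^ m - 1) :=
    pow_le_pow_right₀ hPS (Nat.sub_le_sub_right (Nat.pow_le_pow_right (by norm_num) hKm) 1)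
  have hA : (0 : ℝ) ≤ |∑ i, (y i : ℝ) * √(a i : ℝ) - k| := abs_nonneg _
  have hPle : (P0 : ℝ) ≤ P0 * S := by nlinarith
  have hfin : ((P0 : ℝ) * S) ^ (2 ^ m) ≤ (2 ^ (∑ i, Nat.size (a i)) * S) ^ (2 ^ m) :=
    pow_le_pow_left₀ (by positivity) (mul_le_mul_of_nonneg_right hP2' (by linarith)) _
  calc (1 : ℝ) ≤ (P0 : ℝ) * |∑ i, (y i : ℝ) * √(a i : ℝ) - k| *
        ((P0 : ℝ) * S) ^ (2 ^ K.card - 1) := key
    _ ≤ (P0 : ℝ) * |∑ i, (y i : ℝ) * √(a i : ℝ) - k| * (P0 * S) ^ (2 ^ m - 1) :=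
        mul_le_mul_of_nonneg_left hexp (by positivity)
    _ = |∑ i, (y i : ℝ) * √(a i : ℝ) - k| * ((P0 : ℝ) * (P0 * S) ^ (2 ^ m - 1)) := by ring
    _ ≤ |∑ i, (y i : ℝ) * √(a i : ℝ) - k| * (((P0 : ℝ) * S) * (P0 * S) ^ (2 ^ m - 1)) :=
        mul_le_mul_of_nonneg_left (mul_le_mul_of_nonneg_right hPle (by positivity)) hA
    _ = |∑ i, (y i : ℝ) * √(a i : ℝ) - k| * ((P0 : ℝ) * S) ^ (2 ^ m) := by
        rw [← pow_succ', Nat.sub_add_cancel h2m]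
    _ ≤ _ := mul_le_mul_of_nonneg_left hfin hA

theorem small_comb {a : Fin n → ℕ} {P B : ℕ} {y : Fin n → ℚ}
    (hy : y ∈ Submodule.span ℚ (hardSet a P B)) (hy0 : y ≠ 0) (hLP : Lb n B + 1 ≤ P) :
    ∃ (u : Fin n → ℤ) (kk : ℤ), (∀ i, u i ≠ 0 → y i ≠ 0) ∧ (∃ i, u i ≠ 0) ∧
      |∑ i, (u i : ℝ) * √(a i : ℝ) - kk| * 2 ^ P ≤ 2 ^ Lb n B ∧
      ∑ i, |(u i : ℝ)| * √(a i : ℝ) + |(kk : ℝ)| ≤ 2 ^ Wb n B (∑ i, Nat.size (a i)) := by
  classical
  set s0 : ℕ := ∑ i, Nat.size (a i) with hs0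
  set W : ℕ := Wb n B s0 with hW
  set S : Finset (Fin n) := Finset.univ.filter fun i => y i ≠ 0 with hS
  have hSm : ∀ i, i ∉ S → y i = 0 := by
    intro i hi
    by_contra h
    exact hi (Finset.mem_filter.2 ⟨Finset.mem_univ i, h⟩)
  obtain ⟨p, f, g, hfg⟩ := Submodule.mem_span_set'.1 hy
  have hg : ∀ j : Fin p, ∃ z : Fin n → ℤ, (∀ i, |z i| ≤ 2 ^ B) ∧ NearZ a P z ∧
      ((g j : Fin n → ℚ) = fun i => (z i : ℚ)) := fun j => (g j).2
  choose z hzB hzN hzg using hg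
  have hk : ∀ j, ∃ k : ℤ, |∑ i, (z j i : ℝ) * √(a i : ℝ) - k| * 2 ^ P < 1 := hzN
  choose k hk using hk
  -- integral coefficients
  obtain ⟨N, hN0, hNv⟩ : ∃ N : ℕ, N ≠ 0 ∧ ∀ j, ∃ v : ℤ, (v : ℚ) = N * f j := by
    refine ⟨∏ j, (f j).den, Finset.prod_ne_zero_iff.2 fun j _ => (f j).den_nz, fun j => ?_⟩
    obtain ⟨c, hc⟩ := Finset.dvd_prod_of_mem (fun j => (f j).den) (Finset.mem_univ j)
    refine ⟨c * (f j).num, ?_⟩
    rw [hc]
    push_cast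
    have h3 : (f j) * (f j).den = (f j).num := Rat.mul_den_eq_num (f j)
    rw [← h3]
    ring
  choose v hv using hNv
  let h : Fin p → Fin n → ℤ := fun j i => z j i
  have hcomb : ∀ i, ((∑ j, v j * h j i : ℤ) : ℚ) = N * y i := by
    intro i
    have h3 : y i = ∑ j, f j * (z j i : ℚ) := by
      rw [← hfg, Finset.sum_apply]
      refine Finset.sum_congr rfl fun j _ => ?_
      rw [Pi.smul_apply, hzg j, smul_eq_mul]
    rw [h3, Finset.mul_sum]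
    push_cast
    refine Finset.sum_congr rfl fun j _ => ?_
    rw [hv j]
    show (N : ℚ) * f j * ((z j i : ℤ) : ℚ) = _
    ring
  have hN0' : (N : ℚ) ≠ 0 := Nat.cast_ne_zero.2 hN0
  have hrel : Rel h S v := by
    intro i hi
    have h3 := hcomb i
    rw [hSm i hi, mul_zero] at h3
    exact_mod_cast h3
  have hnon : ∃ i, ∑ j, v j * h j i ≠ 0 := by
    obtain ⟨i, hi⟩ := Function.ne_iff.1 hy0
    refine ⟨i, fun h3 => ?_⟩
    have h4 := hcomb i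
    rw [h3, Int.cast_zero] at h4
    have hi' : y i ≠ 0 := hi
    exact (mul_ne_zero hN0' hi') h4.symm
  have hhb : ∀ j i, |h j i| ≤ ((2 ^ B : ℕ) : ℤ) := by
    intro j i
    have h3 := hzB j i
    push_cast
    exact h3
  obtain ⟨K, l, hKc, hlK, hlr, hln, hlb⟩ := circ h S hhb ⟨v, hrel, hnon⟩
  rw [Fintype.card_fin] at hKc
  rw [Fintype.card_fin] at hlb
  -- the small combination
  set u : Fin n → ℤ := fun i => ∑ j, l j * h j i with hu
  have huS : ∀ i, u i ≠ 0 → i ∈ S := by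
    intro i hi
    by_contra h3
    exact hi (hlr i h3)
  set kk : ℤ := ∑ j, l j * k j with hkk
  have hlsum : (∑ j, |(l j : ℝ)|) ≤ 2 ^ Lb n B := by
    have h3 : ∑ j, |(l j : ℝ)| = ∑ j ∈ K, |(l j : ℝ)| := by
      refine (Finset.sum_subset (Finset.subset_univ K) fun j _ hj => ?_).symm
      rw [hlK j hj]
      simp
    rw [h3]
    have h4 : ∀ j ∈ K, |(l j : ℝ)| ≤
        ((K.card.factorial * (n * (2 ^ B) ^ 2 + 1) ^ K.card : ℕ) : ℝ) := by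
      intro j _
      have h5 := hlb j
      have h6 : ((|l j| : ℤ) : ℝ) ≤
          (((K.card.factorial * (n * (2 ^ B) ^ 2 + 1) ^ K.card : ℕ) : ℤ) : ℝ) := by
        exact_mod_cast h5
      rw [Int.cast_abs, Int.cast_natCast] at h6
      exact h6
    refine (Finset.sum_le_sum h4).trans ?_
    rw [Finset.sum_const, nsmul_eq_mul]
    have h7 := fac_bound (B := B) hKc
    exact_mod_cast h7
  have hdiff : ∑ i, (u i : ℝ) * √(a i : ℝ) - kk =
      ∑ j, (l j : ℝ) * (∑ i, (z j i : ℝ) * √(a i : ℝ) - k j) := by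
    simp only [hu, hkk]
    push_cast
    simp only [mul_sub, Finset.sum_sub_distrib, Finset.mul_sum, Finset.sum_mul]
    rw [Finset.sum_comm]
    congr 1
    refine Finset.sum_congr rfl fun j _ => Finset.sum_congr rfl fun i _ => ?_
    show (l j : ℝ) * ((z j i : ℤ) : ℝ) * √(a i : ℝ) = _
    ring
  have hclose : |∑ i, (u i : ℝ) * √(a i : ℝ) - kk| * 2 ^ P ≤ 2 ^ Lb n B := by
    rw [hdiff]
    have h3 := Finset.abs_sum_le_sum_abs
      (fun j => (l j : ℝ) * (∑ i, (z j i : ℝ) * √(a i : ℝ) - k j)) Finset.univ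
    have h4 : (0 : ℝ) ≤ 2 ^ P := by positivity
    refine (mul_le_mul_of_nonneg_right h3 h4).trans (le_trans ?_ hlsum)
    rw [Finset.sum_mul]
    refine Finset.sum_le_sum fun j _ => ?_
    rw [abs_mul, mul_assoc]
    exact mul_le_of_le_one_right (abs_nonneg _) (hk j).le
  -- sizes
  have hcoef : ∀ i, |(u i : ℝ)| ≤ 2 ^ (Lb n B + B) := by
    intro i
    simp only [hu]
    push_cast
    refine (Finset.abs_sum_le_sum_abs _ _).trans ?_
    rw [pow_add]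
    refine le_trans ?_ (mul_le_mul_of_nonneg_right hlsum (by positivity))
    rw [Finset.sum_mul]
    refine Finset.sum_le_sum fun j _ => ?_
    rw [abs_mul]
    refine mul_le_mul_of_nonneg_left ?_ (abs_nonneg _)
    have h3 := hhb j i
    have h4 : ((|h j i| : ℤ) : ℝ) ≤ (((2 ^ B : ℕ) : ℤ) : ℝ) := by exact_mod_cast h3
    rw [Int.cast_abs] at h4
    push_cast at h4
    exact h4
  have hsq : ∑ i, √(a i : ℝ) ≤ 2 ^ s0 := sqsum' (N := a) fun i => le_rfl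
  have hU : ∑ i, |(u i : ℝ)| * √(a i : ℝ) ≤ 2 ^ (Lb n B + B + s0) := by
    rw [pow_add _ (Lb n B + B) s0]
    refine le_trans ?_ (mul_le_mul_of_nonneg_left hsq (by positivity))
    rw [Finset.mul_sum]
    exact Finset.sum_le_sum fun i _ => mul_le_mul_of_nonneg_right (hcoef i) (Real.sqrt_nonneg _)
  have hlt1 : |∑ i, (u i : ℝ) * √(a i : ℝ) - kk| ≤ 1 := by
    by_contra h3
    rw [not_le] at h3
    have h4 : (2 : ℝ) ^ Lb n B < 2 ^ P := pow_lt_pow_right₀ (by norm_num) (by omega)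
    have h5 : (0 : ℝ) < 2 ^ P := by positivity
    nlinarith
  have hkabs : |(kk : ℝ)| ≤ 2 ^ (Lb n B + B + s0) + 1 := by
    have h3 : |∑ i, (u i : ℝ) * √(a i : ℝ)| ≤ 2 ^ (Lb n B + B + s0) := by
      refine (Finset.abs_sum_le_sum_abs _ _).trans (le_trans (le_of_eq ?_) hU)
      refine Finset.sum_congr rfl fun i _ => ?_
      rw [abs_mul, abs_of_nonneg (Real.sqrt_nonneg _)]
    have h4 : |(kk : ℝ)| ≤ |∑ i, (u i : ℝ) * √(a i : ℝ)| +
        |∑ i, (u i : ℝ) * √(a i : ℝ) - kk| := by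
      have := abs_sub (∑ i, (u i : ℝ) * √(a i : ℝ)) (∑ i, (u i : ℝ) * √(a i : ℝ) - kk)
      have e : ∑ i, (u i : ℝ) * √(a i : ℝ) - (∑ i, (u i : ℝ) * √(a i : ℝ) - kk) = kk := by ring
      rw [e] at this
      exact this
    linarith
  have hSb : ∑ i, |(u i : ℝ)| * √(a i : ℝ) + |(kk : ℝ)| ≤ 2 ^ W := by
    have e : (2 : ℝ) ^ W = 4 * 2 ^ (Lb n B + B + s0) := by
      rw [hW]
      unfold Wb
      rw [pow_add]
      ring
    have h3 : (1 : ℝ) ≤ 2 ^ (Lb n B + B + s0) := one_le_pow₀ (by norm_num)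
    rw [e]
    linarith
  exact ⟨u, kk, fun i hi => (Finset.mem_filter.1 (huS i hi)).2, hln, hclose, hSb⟩

theorem span_rk {a : Fin n → ℕ} {J : Finset (Fin n)} (h1 : ∀ i ∈ J, ¬ IsSquare (a i))
    (h2 : ∀ i ∈ J, ∀ j ∈ J, i ≠ j → ¬ IsSquare (a i * a j)) {m B : ℕ} {y : Fin n → ℚ}
    (hy : y ∈ Submodule.span ℚ
      (hardSet a (Wb n B (2 * ∑ i, Nat.size (a i)) * 2 ^ (m + 1)) B)) {S : Finset (Fin n)}
    (hSJ : S ⊆ J) (hS : Rk a J m S) (hyS : ∀ i ∉ S, y i = 0) : y = 0 := by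
  classical
  by_contra hy0
  set s0 : ℕ := ∑ i, Nat.size (a i) with hs0
  set W : ℕ := Wb n B (2 * s0) with hW
  set P : ℕ := W * 2 ^ (m + 1) with hP
  have h2m : 1 ≤ 2 ^ m := Nat.one_le_pow _ _ (by norm_num)
  have hPe : P = W * 2 ^ m + W * 2 ^ m := by
    rw [hP, pow_succ]
    ring
  have hWW : W * 1 ≤ W * 2 ^ m := Nat.mul_le_mul_left _ h2m
  have hLW : Lb n B + 1 ≤ W := by
    rw [hW]
    unfold Wb
    omega
  obtain ⟨u, kk, hu, hln, hclose, hSb⟩ := small_comb hy hy0 (by omega)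
  have huS : ∀ i, u i ≠ 0 → i ∈ S := by
    intro i hi
    by_contra h3
    exact hu i hi (hyS i h3)
  have hr : Rk a J m (Finset.univ.filter fun i => u i ≠ 0) :=
    hS.mono fun i hi => huS i (Finset.mem_filter.1 hi).2
  have key := sep_rk h1 h2 (fun i hi => hSJ (huS i hi)) hr hln kk
    (one_le_pow₀ (by norm_num)) hSb
  have hW2 : (2 : ℝ) ^ s0 * 2 ^ Wb n B s0 = 2 ^ W := by
    rw [← pow_add]
    congr 1
    rw [hW]
    unfold Wb
    omega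
  rw [← hs0, hW2, ← pow_mul] at key
  have h3 : (2 : ℝ) ^ P ≤ 2 ^ (Lb n B) * 2 ^ (W * 2 ^ m) := by
    have h4 : (2 : ℝ) ^ P * 1 ≤ 2 ^ P * (|∑ i, (u i : ℝ) * √(a i : ℝ) - kk| *
        2 ^ (W * 2 ^ m)) := mul_le_mul_of_nonneg_left key (by positivity)
    have h5 : |∑ i, (u i : ℝ) * √(a i : ℝ) - kk| * 2 ^ P * 2 ^ (W * 2 ^ m) ≤
        2 ^ (Lb n B) * 2 ^ (W * 2 ^ m) :=
      mul_le_mul_of_nonneg_right hclose (by positivity)
    calc (2 : ℝ) ^ P = 2 ^ P * 1 := (mul_one _).symm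
      _ ≤ _ := h4
      _ = |∑ i, (u i : ℝ) * √(a i : ℝ) - kk| * 2 ^ P * 2 ^ (W * 2 ^ m) := by ring
      _ ≤ _ := h5
  rw [← pow_add] at h3
  have h4 : P ≤ Lb n B + W * 2 ^ m := by
    by_contra h5
    rw [not_le] at h5
    exact absurd h3 (not_le.2 (pow_lt_pow_right₀ (by norm_num) h5))
  omega

end Pool.Agent.H41.RC
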