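import Mathlib

/-!
# Integral combinations of products of square roots: separation by the number of generators

`Rep Q x t`: `x` is an integral combination of products of square roots of members of the list `Q`, and the sum of the absolute
values of the terms is at most `t`. A nonzero such `x` is at least `t ^ (-(2 ^ Q.length - 1))` (`rep_sep`); no independence of
the square roots is needed.
-/

set_option autoImplicit false

namespace Pool.Agent.H41.RC

/-- `x` is an integral combination of products of square roots of members of `Q`, of size at most `t` -/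
def Rep : List ℕ → ℝ → ℝ → Prop
  | [], x, t => ∃ k : ℤ, x = k ∧ |(k : ℝ)| ≤ t
  | q :: Q, x, t => ∃ g h u v : ℝ, Rep Q g u ∧ Rep Q h v ∧ x = g + h * √(q : ℝ) ∧
      u + v * √(q : ℝ) ≤ t

theorem rep_abs : ∀ {Q : List ℕ} {x t : ℝ}, Rep Q x t → |x| ≤ t
  | [], x, t, ⟨k, hk, ht⟩ => by rw [hk]; exact ht
  | q :: Q, x, t, ⟨g, h, u, v, hg, hh, hx, ht⟩ => by
    have h1 := rep_abs hg
    have h2 := rep_abs hh
    have h3 := Real.sqrt_nonneg (q : ℝ)
    rw [hx]
    refine (abs_add_le _ _).trans (le_trans ?_ ht)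
    rw [abs_mul, abs_of_nonneg h3]
    exact add_le_add h1 (mul_le_mul_of_nonneg_right h2 h3)

theorem rep_nonneg {Q : List ℕ} {x t : ℝ} (h : Rep Q x t) : 0 ≤ t :=
  (abs_nonneg x).trans (rep_abs h)

theorem rep_mono {Q : List ℕ} {x t t' : ℝ} (h : Rep Q x t) (ht : t ≤ t') : Rep Q x t' := by
  cases Q with
  | nil =>
    obtain ⟨k, h1, h2⟩ := h
    exact ⟨k, h1, h2.trans ht⟩
  | cons q Q =>
    obtain ⟨g, h', u, v, h1, h2, h3, h4⟩ := h
    exact ⟨g, h', u, v, h1, h2, h3, h4.trans ht⟩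

theorem rep_int (k : ℤ) : ∀ Q : List ℕ, Rep Q (k : ℝ) |(k : ℝ)|
  | [] => ⟨k, rfl, le_rfl⟩
  | q :: Q => by
    have h0 := rep_int 0 Q
    refine ⟨k, ((0 : ℤ) : ℝ), |(k : ℝ)|, |((0 : ℤ) : ℝ)|, rep_int k Q, ?_, ?_, ?_⟩
    · exact rep_zero_aux Q
    · push_cast
      ring
    · simp
where
  rep_zero_aux : ∀ Q : List ℕ, Rep Q ((0 : ℤ) : ℝ) |((0 : ℤ) : ℝ)|
    | [] => ⟨0, rfl, le_rfl⟩
    | q :: Q => ⟨((0 : ℤ) : ℝ), ((0 : ℤ) : ℝ), |((0 : ℤ) : ℝ)|, |((0 : ℤ) : ℝ)|, rep_zero_aux Q,
        rep_zero_aux Q, by simp, by simp⟩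

theorem rep_zero (Q : List ℕ) : Rep Q 0 0 := by
  have h := rep_int 0 Q
  simpa using h

theorem rep_add : ∀ {Q : List ℕ} {x y t s : ℝ}, Rep Q x t → Rep Q y s → Rep Q (x + y) (t + s)
  | [], x, y, t, s, ⟨k, hk, ht⟩, ⟨l, hl, hs⟩ => by
    refine ⟨k + l, by rw [hk, hl]; push_cast; ring, ?_⟩
    push_cast
    exact (abs_add_le _ _).trans (add_le_add ht hs)
  | q :: Q, x, y, t, s, ⟨g, h, u, v, hg, hh, hx, ht⟩, ⟨g', h', u', v', hg', hh', hy, hs⟩ => by
    refine ⟨g + g', h + h', u + u', v + v', rep_add hg hg', rep_add hh hh', ?_, ?_⟩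
    · rw [hx, hy]
      ring
    · have : u + u' + (v + v') * √(q : ℝ) = (u + v * √(q : ℝ)) + (u' + v' * √(q : ℝ)) := by ring
      rw [this]
      exact add_le_add ht hs

theorem rep_neg : ∀ {Q : List ℕ} {x t : ℝ}, Rep Q x t → Rep Q (-x) t
  | [], x, t, ⟨k, hk, ht⟩ => ⟨-k, by rw [hk]; push_cast; ring, by push_cast; rwa [abs_neg]⟩
  | q :: Q, x, t, ⟨g, h, u, v, hg, hh, hx, ht⟩ =>
    ⟨-g, -h, u, v, rep_neg hg, rep_neg hh, by rw [hx]; ring, ht⟩

theorem rep_mul : ∀ {Q : List ℕ} {x y t s : ℝ}, Rep Q x t → Rep Q y s → Rep Q (x * y) (t * s)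
  | [], x, y, t, s, ⟨k, hk, ht⟩, ⟨l, hl, hs⟩ => by
    refine ⟨k * l, by rw [hk, hl]; push_cast; ring, ?_⟩
    push_cast
    rw [abs_mul]
    exact mul_le_mul ht hs (abs_nonneg _) ((abs_nonneg _).trans ht)
  | q :: Q, x, y, t, s, ⟨g, h, u, v, hg, hh, hx, ht⟩, ⟨g', h', u', v', hg', hh', hy, hs⟩ => by
    have e1 : √(q : ℝ) * √(q : ℝ) = q := Real.mul_self_sqrt (Nat.cast_nonneg q)
    have hq : Rep Q (q : ℝ) (q : ℝ) := by
      have := rep_int (q : ℤ) Q
      rw [Int.cast_natCast, abs_of_nonneg (Nat.cast_nonneg q)] at this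
      exact this
    refine ⟨g * g' + q * (h * h'), g * h' + h * g', u * u' + q * (v * v'), u * v' + v * u',
      rep_add (rep_mul hg hg') (rep_mul hq (rep_mul hh hh')),
      rep_add (rep_mul hg hh') (rep_mul hh hg'), ?_, ?_⟩
    · rw [hx, hy]
      linear_combination (h * h') * e1
    · have e2 : u * u' + q * (v * v') + (u * v' + v * u') * √(q : ℝ) =
          (u + v * √(q : ℝ)) * (u' + v' * √(q : ℝ)) := by
        linear_combination (-(v * v')) * e1
      rw [e2]
      have h3 := Real.sqrt_nonneg (q : ℝ)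
      have h4 := rep_nonneg hg'
      have h5 := rep_nonneg hh'
      have h6 := rep_nonneg hg
      have h7 := rep_nonneg hh
      exact mul_le_mul ht hs (by positivity) ((by positivity : 0 ≤ u + v * √(q : ℝ)).trans ht)

theorem rep_sum {ι : Type} (s : Finset ι) {Q : List ℕ} {f t : ι → ℝ} (h : ∀ i ∈ s, Rep Q (f i) (t i)) :
    Rep Q (∑ i ∈ s, f i) (∑ i ∈ s, t i) := by
  classical
  induction s using Finset.induction_on with
  | empty => simpa using rep_zero Q
  | insert i s hi ih =>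
    rw [Finset.sum_insert hi, Finset.sum_insert hi]
    exact rep_add (h i (Finset.mem_insert_self _ _))
      (ih fun j hj => h j (Finset.mem_insert_of_mem hj))

theorem rep_prod {n : ℕ} (a : Fin n → ℕ) (U : Finset (Fin n)) : ∀ l : List (Fin n),
    Rep (l.map a) ((l.map fun i => if i ∈ U then √(a i : ℝ) else 1).prod)
      ((l.map fun i => if i ∈ U then √(a i : ℝ) else 1).prod)
  | [] => ⟨1, by simp, by simp⟩
  | i :: l => by
    have ih := rep_prod a U l
    rw [List.map_cons, List.map_cons, List.prod_cons]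
    by_cases hi : i ∈ U
    · rw [if_pos hi]
      exact ⟨0, _, 0, _, rep_zero _, ih, by ring, le_of_eq (by ring)⟩
    · rw [if_neg hi]
      exact ⟨_, 0, _, 0, ih, rep_zero _, by ring, le_of_eq (by ring)⟩

theorem rep_sep : ∀ {Q : List ℕ} {x t : ℝ}, Rep Q x t → x ≠ 0 → 1 ≤ t →
    1 ≤ |x| * t ^ (2 ^ Q.length - 1)
  | [], x, t, ⟨k, hk, _⟩, hx, _ => by
    have hk0 : k ≠ 0 := by
      intro h
      apply hx
      rw [hk, h]
      simp
    have h1 : (1 : ℤ) ≤ |k| := Int.one_le_abs hk0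
    have h2 : (1 : ℝ) ≤ |(k : ℝ)| := by exact_mod_cast h1
    rw [hk]
    simpa using h2
  | q :: Q, x, t, ⟨g, h, u, v, hg, hh, hx, ht⟩, hx0, ht1 => by
    have hp : (2 : ℕ) ^ (q :: Q).length = 2 * 2 ^ Q.length := by
      rw [List.length_cons, pow_succ]
      ring
    have hr : 1 ≤ 2 ^ Q.length := Nat.one_le_pow _ _ (by norm_num)
    have h3 := Real.sqrt_nonneg (q : ℝ)
    have hu := rep_nonneg hg
    have hv := rep_nonneg hh
    by_cases hy : g - h * √(q : ℝ) = 0
    · have hg0 : g ≠ 0 := by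
        intro h0
        apply hx0
        rw [hx]
        have : h * √(q : ℝ) = 0 := by linarith
        rw [h0, this, add_zero]
      have hut : u ≤ t := by
        have : 0 ≤ v * √(q : ℝ) := mul_nonneg hv h3
        linarith
      have ih := rep_sep (rep_mono hg hut) hg0 ht1
      have hxg : x = 2 * g := by
        rw [hx]
        linarith
      have h4 : |g| ≤ |x| := by
        rw [hxg, abs_mul]
        have : (0 : ℝ) ≤ |g| := abs_nonneg g
        rw [abs_of_pos (by norm_num : (0 : ℝ) < 2)]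
        linarith
      have h5 : t ^ (2 ^ Q.length - 1) ≤ t ^ (2 ^ (q :: Q).length - 1) :=
        pow_le_pow_right₀ ht1 (by rw [hp]; omega)
      exact ih.trans (mul_le_mul h4 h5 (by positivity) (abs_nonneg _))
    · have e1 : √(q : ℝ) * √(q : ℝ) = q := Real.mul_self_sqrt (Nat.cast_nonneg q)
      have hq : Rep Q (q : ℝ) (q : ℝ) := by
        have := rep_int (q : ℤ) Q
        rw [Int.cast_natCast, abs_of_nonneg (Nat.cast_nonneg q)] at this
        exact this
      have hz : Rep Q (x * (g - h * √(q : ℝ))) (t * t) := by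
        have h4 := rep_add (rep_mul hg hg) (rep_neg (rep_mul hq (rep_mul hh hh)))
        have e2 : g * g + -(q * (h * h)) = x * (g - h * √(q : ℝ)) := by
          rw [hx]
          linear_combination (h * h) * e1
        rw [e2] at h4
        refine rep_mono h4 ?_
        have h5 : (u + v * √(q : ℝ)) * (u + v * √(q : ℝ)) ≤ t * t :=
          mul_le_mul ht ht (by positivity) ((by positivity : 0 ≤ u + v * √(q : ℝ)).trans ht)
        refine le_trans ?_ h5
        have h6 : 0 ≤ u * v * √(q : ℝ) := by positivity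
        have e3 : (u + v * √(q : ℝ)) * (u + v * √(q : ℝ)) =
            u * u + q * (v * v) + 2 * (u * v * √(q : ℝ)) := by
          linear_combination (v * v) * e1
        rw [e3]
        linarith
      have ih := rep_sep hz (mul_ne_zero hx0 hy) (by nlinarith)
      have h4 : |g - h * √(q : ℝ)| ≤ t := by
        have h5 := abs_sub g (h * √(q : ℝ))
        rw [abs_mul h, abs_of_nonneg h3] at h5
        have h6 := rep_abs hg
        have h7 := mul_le_mul_of_nonneg_right (rep_abs hh) h3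
        linarith
      have e4 : t ^ (2 ^ (q :: Q).length - 1) = t * (t * t) ^ (2 ^ Q.length - 1) := by
        rw [hp]
        have e5 : 2 * 2 ^ Q.length - 1 = 2 * (2 ^ Q.length - 1) + 1 := by omega
        rw [e5, pow_succ, pow_mul, pow_two]
        ring
      rw [abs_mul] at ih
      rw [e4]
      calc (1 : ℝ) ≤ |x| * |g - h * √(q : ℝ)| * (t * t) ^ (2 ^ Q.length - 1) := ih
        _ ≤ |x| * t * (t * t) ^ (2 ^ Q.length - 1) := by
            refine mul_le_mul_of_nonneg_right ?_ (by positivity)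
            exact mul_le_mul_of_nonneg_left h4 (abs_nonneg _)
        _ = |x| * (t * (t * t) ^ (2 ^ Q.length - 1)) := by ring

end Pool.Agent.H41.RC
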