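import Pool.Agent.H41.RC.Hyp
import Pool.Agent.H41.RC.CodeMain

/-!
# All hard coefficient vectors of a list lie in one subspace
-/

set_option autoImplicit false

namespace Pool.Agent.H41.RC

open Pool.Agent.H92.SR Pool.Agent.H92.SR.Tr Pool.Agent.H8.SS

variable {n : ℕ}

/-- no nonzero vector of `V` is supported on at most `m` elements of `J` -/
def Far (J : Finset (Fin n)) (m : ℕ) (V : Submodule ℚ (Fin n → ℚ)) : Prop :=
  ∀ y ∈ V, y ≠ 0 → (∀ i ∉ J, y i = 0) → m < (Finset.univ.filter fun i => y i ≠ 0).card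

theorem far_finrank {J : Finset (Fin n)} {m : ℕ} {V : Submodule ℚ (Fin n → ℚ)} (h : Far J m V)
    (hm : m ≤ J.card) : Module.finrank ℚ V + m ≤ n := by
  classical
  obtain ⟨S, hSJ, hSm⟩ := Finset.exists_subset_card_eq hm
  let f : V →ₗ[ℚ] ({i // i ∉ S} → ℚ) :=
    { toFun := fun y i => (y : Fin n → ℚ) i
      map_add' := fun _ _ => rfl
      map_smul' := fun _ _ => rfl }
  have hf : Function.Injective f := by
    rw [injective_iff_map_eq_zero]
    intro y hy
    by_contra h0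
    have h1 : (y : Fin n → ℚ) ≠ 0 := fun h2 => h0 (Subtype.ext h2)
    have h2 : ∀ i ∉ S, (y : Fin n → ℚ) i = 0 := fun i hi => congrFun hy ⟨i, hi⟩
    have h3 := h y y.2 h1 fun i hi => h2 i fun h4 => hi (hSJ h4)
    have h4 : (Finset.univ.filter fun i => (y : Fin n → ℚ) i ≠ 0) ⊆ S := by
      intro i hi
      rw [Finset.mem_filter] at hi
      by_contra h5
      exact hi.2 (h2 i h5)
    have h5 := Finset.card_le_card h4
    omega
  have h1 := LinearMap.finrank_le_finrank_of_injective hf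
  rw [Module.finrank_fintype_fun_eq_card] at h1
  have h2 : Fintype.card {i // i ∉ S} = n - m := by
    rw [Fintype.card_subtype_compl, Fintype.card_fin, Fintype.card_coe, hSm]
  rw [h2] at h1
  have h3 : J.card ≤ n := by
    have := Finset.card_le_univ J
    rwa [Fintype.card_fin] at this
  omega

theorem far_moment {J : Finset (Fin n)} {m : ℕ} {V : Submodule ℚ (Fin n → ℚ)} (h : Far J m V)
    (h1m : 1 ≤ m) (hm : m ≤ J.card) (τ : Finset ℕ)
    (hτ : ∀ t ∈ τ, (fun i : Fin n => (t : ℚ) ^ (i : ℕ)) ∈ V) : τ.card + m ≤ n := by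
  classical
  by_contra hcon
  rw [not_le] at hcon
  have hd := far_finrank h hm
  have hJn : J.card ≤ n := by
    have := Finset.card_le_univ J
    rwa [Fintype.card_fin] at this
  obtain ⟨σ, hσ, hσc⟩ := Finset.exists_subset_card_eq (show n - m + 1 ≤ τ.card by omega)
  set d : ℕ := n - m + 1 with hd'
  have hdn : d ≤ n := by omega
  let e : Fin d ≃o σ := σ.orderIsoOfFin hσc
  let w : Fin d → V := fun j => ⟨fun i => ((e j : ℕ) : ℚ) ^ (i : ℕ), hτ _ (hσ (e j).2)⟩
  have hli : LinearIndependent ℚ w := by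
    rw [Fintype.linearIndependent_iff]
    intro g hg
    have hinj : Function.Injective fun j : Fin d => ((e j : ℕ) : ℚ) := by
      intro i j hij
      have h1 : ((e i : ℕ) : ℚ) = ((e j : ℕ) : ℚ) := hij
      have h2 : (e i : ℕ) = (e j : ℕ) := by exact_mod_cast h1
      exact e.injective (Subtype.ext h2)
    have hdet := Matrix.det_vandermonde_ne_zero_iff.2 hinj
    have hz : Matrix.vecMul g (Matrix.vandermonde fun j : Fin d => ((e j : ℕ) : ℚ)) = 0 := by
      funext i
      have h1 : (((∑ j, g j • w j : V) : Fin n → ℚ)) (Fin.castLE hdn i) = 0 := by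
        rw [hg]
        rfl
      rw [Submodule.coe_sum, Finset.sum_apply] at h1
      show ∑ j, g j * (Matrix.vandermonde fun j : Fin d => ((e j : ℕ) : ℚ)) j i = 0
      rw [← h1]
      rfl
    have h2 : g = 0 := by
      by_contra hg0
      exact hdet (Matrix.exists_vecMul_eq_zero_iff.1 ⟨g, hg0, hz⟩)
    intro i
    rw [h2]
    rfl
  have h3 := hli.fintype_card_le_finrank
  rw [Fintype.card_fin] at h3
  omega

/-- the indicator vector -/
def ind1 (S : Finset (Fin n)) : Fin n → ℚ := fun i => if i ∈ S then 1 else 0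

theorem far_code {J : Finset (Fin n)} {m : ℕ} {V : Submodule ℚ (Fin n → ℚ)} (h : Far J m V)
    {S S' : Finset (Fin n)} (hS : (fun i => if i ∈ S then (1 : ℚ) else 0) ∈ V)
    (hS' : (fun i => if i ∈ S' then (1 : ℚ) else 0) ∈ V)
    (hJ : symmDiff S S' ⊆ J) (hm : (symmDiff S S').card ≤ m) : S = S' := by
  classical
  by_contra hne
  have h1 := V.sub_mem hS hS'
  have hval : ∀ i, ((fun i => if i ∈ S then (1 : ℚ) else 0) -
      (fun i => if i ∈ S' then (1 : ℚ) else 0)) i ≠ 0 ↔ i ∈ symmDiff S S' := by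
    intro i
    show (if i ∈ S then (1 : ℚ) else 0) - (if i ∈ S' then (1 : ℚ) else 0) ≠ 0 ↔ _
    rw [Finset.mem_symmDiff]
    by_cases h2 : i ∈ S <;> by_cases h3 : i ∈ S' <;> simp [h2, h3]
  have h2 := h _ h1 (by
    intro h0
    apply hne
    ext i
    have h3 := hval i
    rw [h0] at h3
    have h4 : i ∉ symmDiff S S' := fun h5 => (h3.2 h5) rfl
    rw [Finset.mem_symmDiff, not_or, not_and, not_and, not_not, not_not] at h4
    exact ⟨h4.1, h4.2⟩) (by
    intro i hi
    by_contra h3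
    exact hi (hJ ((hval i).1 h3)))
  have h3 : (Finset.univ.filter fun i => ((fun i => if i ∈ S then (1 : ℚ) else 0) -
      (fun i => if i ∈ S' then (1 : ℚ) else 0)) i ≠ 0) = symmDiff S S' := by
    ext i
    rw [Finset.mem_filter]
    simp only [Finset.mem_univ, true_and]
    exact hval i
  rw [h3] at h2
  omega

theorem size_sq {z B x : ℕ} (hz : z ≤ 2 ^ B) : Nat.size (z ^ 2 * x) ≤ 2 * B + Nat.size x + 1 := by
  rw [Nat.size_le]
  have h1 : z ^ 2 ≤ 2 ^ (2 * B) := by
    calc z ^ 2 ≤ (2 ^ B) ^ 2 := Nat.pow_le_pow_left hz 2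
      _ = 2 ^ (2 * B) := by rw [← pow_mul, mul_comm]
  have h2 : x < 2 ^ Nat.size x := Nat.lt_size_self x
  have h3 : z ^ 2 * x ≤ 2 ^ (2 * B) * 2 ^ Nat.size x := Nat.mul_le_mul h1 h2.le
  rw [← pow_add] at h3
  exact h3.trans_lt (Nat.pow_lt_pow_right (by norm_num) (Nat.lt_succ_self _))

/-- the polynomial of the sizes -/
noncomputable def Rp : Polynomial ℕ := 12 * (Polynomial.X + 1) ^ 2

theorem Rp_eval (x : ℕ) : Rp.eval x = 12 * (x + 1) ^ 2 := by
  simp [Rp]

theorem Wb_le {n B s0 s : ℕ} (hs : n + s0 + B ≤ s) : 2 * Wb n B s0 ≤ 5 * (s + 1) ^ 2 + (s + 1) := by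
  unfold Wb Lb
  obtain ⟨r, rfl⟩ := Nat.exists_eq_add_of_le hs
  nlinarith [Nat.zero_le (n * s0), Nat.zero_le (n * B), Nat.zero_le (n * r), Nat.zero_le (s0 * B),
    Nat.zero_le (s0 * r), Nat.zero_le (B * r), Nat.zero_le (n * n), Nat.zero_le (s0 * s0),
    Nat.zero_le (B * B), Nat.zero_le (r * r)]

end Pool.Agent.H41.RC
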