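import Pool.Agent.H92.SR.Fin1

/-!
# Separation by one square class

`co c x` is the coefficient of `√c` in `√x`; `cls S` are the square classes other than `1` of the nonzero elements of `S`;
`Sharp S`: at most two classes, and any two different elements of `S` have different coefficients at every class of `S`. Sets
with at most two elements are sharp, and so are sets whose products of two elements are squares.
-/

set_option autoImplicit false

namespace Pool.Agent.H41.RC

open Pool.Agent.H92.SR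

/-- the coefficient of `√c` in `√x` -/
noncomputable def co (c x : ℕ) : ℤ := if sf x = c then (rt x : ℤ) else 0

theorem rt_zero : rt 0 = 0 := by
  have h := sf_spec 0
  rcases Nat.mul_eq_zero.1 h.1 with h3 | h3
  · exact (pow_eq_zero_iff two_ne_zero).1 h3
  · exact absurd h3 h.2.ne_zero

theorem rt_pos {x : ℕ} (h : x ≠ 0) : 0 < rt x := by
  rcases Nat.eq_zero_or_pos (rt x) with h1 | h1
  · exfalso
    apply h
    rw [← (sf_spec x).1, h1]
    simp
  · exact h1

theorem co_zero (c : ℕ) : co c 0 = 0 := by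
  unfold co
  rw [rt_zero]
  simp

theorem co_nonneg (c x : ℕ) : 0 ≤ co c x := by
  unfold co
  split_ifs <;> simp

theorem sqrt_co {D : Finset ℕ} {x : ℕ} (h : x ≠ 0 → sf x ∈ D) :
    √(x : ℝ) = ∑ c ∈ D, (co c x : ℝ) * √(c : ℝ) := by
  by_cases hx : x = 0
  · subst hx
    simp [co_zero]
  · unfold co
    rw [Finset.sum_eq_single (sf x)]
    · rw [if_pos rfl]
      push_cast
      exact sqrt_cls x
    · intro c _ hc
      rw [if_neg (Ne.symm hc)]
      simp
    · intro h'
      exact absurd (h hx) h'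

theorem sepf {ι : Type} (d d' : ι → ℕ) (k : ℤ) (F : Finset ι) {D : Finset ℕ}
    (h1 : 1 ∈ D) (hD : ∀ c ∈ D, Squarefree c) (hd : ∀ i ∈ F, d i ≠ 0 → sf (d i) ∈ D)
    (hd' : ∀ i ∈ F, d' i ≠ 0 → sf (d' i) ∈ D)
    (hc : ∃ c ∈ D, (∑ i ∈ F, (co c (d i) - co c (d' i))) - (if c = 1 then k else 0) ≠ 0)
    {S : ℝ} (hS1 : 1 ≤ S) (hS : ∑ i ∈ F, (√(d i : ℝ) + √(d' i : ℝ)) + |(k : ℝ)| ≤ S) :
    1 ≤ |∑ i ∈ F, (√(d i : ℝ) - √(d' i : ℝ)) - k| * S ^ (2 ^ D.card - 1) := by
  have e3 : (k : ℝ) = ∑ c ∈ D, (if c = 1 then (k : ℝ) else 0) * √(c : ℝ) := by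
    rw [Finset.sum_eq_single 1]
    · simp
    · intro c _ hc
      rw [if_neg hc, zero_mul]
    · intro h
      exact absurd h1 h
  have e4 : |(k : ℝ)| = ∑ c ∈ D, (if c = 1 then |(k : ℝ)| else 0) * √(c : ℝ) := by
    rw [Finset.sum_eq_single 1]
    · simp
    · intro c _ hc
      rw [if_neg hc, zero_mul]
    · intro h
      exact absurd h1 h
  have e2 : ∀ i ∈ F, √(d i : ℝ) - √(d' i : ℝ) =
      ∑ c ∈ D, ((co c (d i) : ℝ) - (co c (d' i) : ℝ)) * √(c : ℝ) := by
    intro i hi
    rw [sqrt_co (hd i hi), sqrt_co (hd' i hi), ← Finset.sum_sub_distrib]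
    refine Finset.sum_congr rfl fun c _ => ?_
    ring
  have e5 : ∀ i ∈ F, √(d i : ℝ) + √(d' i : ℝ) =
      ∑ c ∈ D, ((co c (d i) : ℝ) + (co c (d' i) : ℝ)) * √(c : ℝ) := by
    intro i hi
    rw [sqrt_co (hd i hi), sqrt_co (hd' i hi), ← Finset.sum_add_distrib]
    refine Finset.sum_congr rfl fun c _ => ?_
    ring
  have e1 : ∑ i ∈ F, (√(d i : ℝ) - √(d' i : ℝ)) - k = ∑ c ∈ D,
      (((∑ i ∈ F, (co c (d i) - co c (d' i))) - (if c = 1 then k else 0) : ℤ) : ℝ) * √(c : ℝ) := by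
    calc ∑ i ∈ F, (√(d i : ℝ) - √(d' i : ℝ)) - k
        = ∑ c ∈ D, ∑ i ∈ F, ((co c (d i) : ℝ) - (co c (d' i) : ℝ)) * √(c : ℝ) -
          ∑ c ∈ D, (if c = 1 then (k : ℝ) else 0) * √(c : ℝ) := by
          rw [← e3, Finset.sum_congr rfl e2, Finset.sum_comm]
      _ = _ := by
          rw [← Finset.sum_sub_distrib]
          refine Finset.sum_congr rfl fun c _ => ?_
          rw [← Finset.sum_mul, ← sub_mul]
          by_cases h : c = 1
          · rw [if_pos h, if_pos h]
            push_cast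
            rfl
          · rw [if_neg h, if_neg h]
            push_cast
            rfl
  have e6 : ∑ c ∈ D, |(((∑ i ∈ F, (co c (d i) - co c (d' i))) - (if c = 1 then k else 0) : ℤ) : ℝ)|
      * √(c : ℝ) ≤ S := by
    refine le_trans ?_ hS
    rw [e4, Finset.sum_congr rfl e5, Finset.sum_comm, ← Finset.sum_add_distrib]
    refine Finset.sum_le_sum fun c _ => ?_
    rw [← Finset.sum_mul, ← add_mul]
    refine mul_le_mul_of_nonneg_right ?_ (Real.sqrt_nonneg _)
    have e7 : |((∑ i ∈ F, (co c (d i) - co c (d' i)) : ℤ) : ℝ)| ≤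
        ∑ i ∈ F, ((co c (d i) : ℝ) + (co c (d' i) : ℝ)) := by
      push_cast
      refine (Finset.abs_sum_le_sum_abs _ _).trans (Finset.sum_le_sum fun i _ => ?_)
      have a1 : (0 : ℝ) ≤ co c (d i) := by exact_mod_cast co_nonneg c (d i)
      have a2 : (0 : ℝ) ≤ co c (d' i) := by exact_mod_cast co_nonneg c (d' i)
      rw [abs_le]
      constructor <;> linarith
    by_cases h : c = 1
    · rw [if_pos h, if_pos h, Int.cast_sub]
      exact (abs_sub _ _).trans (add_le_add e7 le_rfl)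
    · rw [if_neg h, if_neg h, sub_zero, add_zero]
      exact e7
  have h2 := sep1 hD hc hS1 e6
  rw [← e1] at h2
  exact h2

/-- the square classes other than `1` of the nonzero elements -/
noncomputable def cls (S : Finset ℕ) : Finset ℕ := ((S.filter fun x => x ≠ 0).image sf).erase 1

theorem mem_cls {S : Finset ℕ} {c : ℕ} : c ∈ cls S ↔ c ≠ 1 ∧ ∃ x ∈ S, x ≠ 0 ∧ sf x = c := by
  unfold cls
  rw [Finset.mem_erase, Finset.mem_image]
  constructor
  · rintro ⟨h, x, hx, rfl⟩
    rw [Finset.mem_filter] at hx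
    exact ⟨h, x, hx.1, hx.2, rfl⟩
  · rintro ⟨h, x, hx, h0, rfl⟩
    exact ⟨h, x, Finset.mem_filter.2 ⟨hx, h0⟩, rfl⟩

/-- at most two classes, and different elements have different coefficients at every class -/
def Sharp (S : Finset ℕ) : Prop :=
  (cls S).card ≤ 2 ∧ ∀ x ∈ S, ∀ y ∈ S, x ≠ y → ∀ c ∈ cls S, co c x ≠ co c y

theorem co_ne {x y : ℕ} (hx : x ≠ 0) (h : x ≠ y) : co (sf x) x ≠ co (sf x) y := by
  unfold co
  rw [if_pos rfl]
  have h1 := rt_pos hx
  split_ifs with h2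
  · intro h3
    apply h
    have h4 : rt x = rt y := by exact_mod_cast h3
    rw [← (sf_spec x).1, ← (sf_spec y).1, h2, h4]
  · intro h3
    have h4 : rt x = 0 := by exact_mod_cast h3
    omega

theorem sharp_pair {S : Finset ℕ} (h : S.card ≤ 2) : Sharp S := by
  refine ⟨?_, ?_⟩
  · unfold cls
    exact (Finset.card_erase_le.trans (Finset.card_image_le.trans (Finset.card_filter_le _ _))).trans h
  · intro x hx y hy hxy c hc
    obtain ⟨-, z, hz, hz0, rfl⟩ := mem_cls.1 hc
    have h1 : z = x ∨ z = y := by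
      by_contra hno
      push Not at hno
      have h2 : ({x, y, z} : Finset ℕ).card ≤ 2 := by
        refine (Finset.card_le_card ?_).trans h
        intro w hw
        simp only [Finset.mem_insert, Finset.mem_singleton] at hw
        rcases hw with rfl | rfl | rfl
        · exact hx
        · exact hy
        · exact hz
      rw [Finset.card_eq_three.2 ⟨x, y, z, hxy, hno.1.symm, hno.2.symm, rfl⟩] at h2
      omega
    rcases h1 with rfl | rfl
    · exact co_ne hz0 hxy
    · exact (co_ne hz0 hxy.symm).symm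

theorem sf_eq {x y : ℕ} (hx : x ≠ 0) (hy : y ≠ 0) (h : IsSquare (x * y)) : sf x = sf y := by
  obtain ⟨z, hz⟩ := h
  by_contra hne
  have h1 : √(x : ℝ) * √(y : ℝ) = z := by
    rw [← Real.sqrt_mul (Nat.cast_nonneg x)]
    have h2 : ((x * y : ℕ) : ℝ) = ((z * z : ℕ) : ℝ) := by rw [hz]
    push_cast at h2
    rw [h2, Real.sqrt_mul_self (Nat.cast_nonneg z)]
  have h3 : (y : ℝ) * √(x : ℝ) - z * √(y : ℝ) = 0 := by
    have h4 : √(y : ℝ) * √(y : ℝ) = y := Real.mul_self_sqrt (Nat.cast_nonneg y)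
    rw [← h1]
    have h5 : (y : ℝ) * √(x : ℝ) = √(y : ℝ) * √(y : ℝ) * √(x : ℝ) := by rw [h4]
    rw [h5]
    ring
  rw [sqrt_cls x, sqrt_cls y] at h3
  have h4 := ind (D := {sf x, sf y}) (by
    intro d hd
    rw [Finset.mem_insert, Finset.mem_singleton] at hd
    rcases hd with rfl | rfl
    · exact (sf_spec _).2
    · exact (sf_spec _).2) (fun c => if c = sf x then ((y * rt x : ℕ) : ℤ) else -((z * rt y : ℕ) : ℤ)) (by
    rw [Finset.sum_pair hne, if_pos rfl, if_neg (Ne.symm hne)]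
    push_cast
    linarith) (sf x) (Finset.mem_insert_self _ _)
  rw [if_pos rfl] at h4
  have h5 : y * rt x = 0 := by exact_mod_cast h4
  rcases Nat.mul_eq_zero.1 h5 with h6 | h6
  · exact hy h6
  · exact (rt_pos hx).ne' h6

theorem sharp_sq {S : Finset ℕ} (h : ∀ x ∈ S, ∀ y ∈ S, IsSquare (x * y)) : Sharp S := by
  refine ⟨?_, ?_⟩
  · refine le_trans (Finset.card_le_one.2 ?_) one_le_two
    intro a ha b hb
    obtain ⟨-, x, hx, hx0, rfl⟩ := mem_cls.1 ha
    obtain ⟨-, y, hy, hy0, rfl⟩ := mem_cls.1 hb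
    exact sf_eq hx0 hy0 (h x hx y hy)
  · intro x hx y hy hxy c hc
    obtain ⟨-, z, hz, hz0, rfl⟩ := mem_cls.1 hc
    by_cases hx0 : x = 0
    · have hy0 : y ≠ 0 := fun h0 => hxy (hx0.trans h0.symm)
      rw [← sf_eq hy0 hz0 (h y hy z hz)]
      exact (co_ne hy0 hxy.symm).symm
    · rw [← sf_eq hx0 hz0 (h x hx z hz)]
      exact co_ne hx0 hxy

end Pool.Agent.H41.RC
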