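import Pool.Agent.H41.RC.Subs

/-!
# Outside one subspace every instance over a list of radicands is easy
-/

set_option autoImplicit false

namespace Pool.Agent.H41.RC

open Pool.Agent.H92.SR Pool.Agent.H92.SR.Tr Pool.Agent.H8.SS

open Classical in
theorem subMain : ∃ (c : Prog) (T : List ℕ → ℤ → ℕ) (q : Polynomial ℕ) (Λ : ℕ), 1 ≤ Λ ∧
    (∀ (L : List ℕ) (k : ℤ),
      Eval c (encS L k) (bit (decide ((k : ℝ) ≤ (L.map fun a : ℕ => √(a : ℝ)).sum))) (T L k)) ∧
    ∀ (n : ℕ) (a : Fin n → ℕ) (J : Finset (Fin n)), (∀ i ∈ J, ¬ IsSquare (a i)) →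
      (∀ i ∈ J, ∀ j ∈ J, i ≠ j → ¬ IsSquare (a i * a j)) →
      ∀ B : ℕ, ∃ V : ℕ → Submodule ℚ (Fin n → ℚ), Antitone V ∧ ∀ m : ℕ,
        (∀ z : Fin n → ℤ, (∀ i, |z i| ≤ 2 ^ B) → (fun i => (z i : ℚ)) ∉ V m → ∀ k : ℤ,
          1 ≤ |∑ i, (z i : ℝ) * √(a i : ℝ) - k| *
            2 ^ (q.eval (n + ∑ i, Nat.size (a i) + B) * 2 ^ m) ∧
          ((∀ i, 0 ≤ z i) → T (List.ofFn fun i => (z i).toNat ^ 2 * a i) k ≤
            q.eval (n + ∑ i, Nat.size (a i) + B + Nat.size k.natAbs) * Λ ^ m)) ∧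
        (∀ y ∈ V m, y ≠ 0 → (∀ i ∉ J, y i = 0) →
          m < (Finset.univ.filter fun i => y i ≠ 0).card) ∧
        (m ≤ J.card → Module.finrank ℚ (V m) + m ≤ n ∧
          (1 ≤ m → ∀ τ : Finset ℕ, (∀ t ∈ τ, (fun i : Fin n => (t : ℚ) ^ (i : ℕ)) ∈ V m) →
            τ.card + m ≤ n)) ∧
        (∀ E : Finset (Finset (Fin n)), (∀ X ∈ E, X ⊆ J) →
          (∀ X ∈ E, ∀ Y ∈ E, (symmDiff X Y).card ≤ m) →
          (Finset.univ.filter fun S : Finset (Fin n) =>
            (fun i => if i ∈ S then (1 : ℚ) else 0) ∈ V m).card * E.card ≤ 2 ^ n) ∧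
        (J.card ≤ 2 * m + 1 → (Finset.univ.filter fun S : Finset (Fin n) =>
            (fun i => if i ∈ S then (1 : ℚ) else 0) ∈ V m).card * 2 ^ J.card ≤
              2 * (m + 1) * 2 ^ n) := by
  obtain ⟨c, T, q, hE, hT1, -⟩ := tim0
  obtain ⟨c', q', h'⟩ := ge0 c T hE
  choose T' hT' hE' using h'
  have hΛ : 1 ≤ 2 ^ q.natDegree := Nat.one_le_pow _ _ (by norm_num)
  refine ⟨c', T', q.comp Rp + q'.comp Rp + Rp, 2 ^ q.natDegree, hΛ, hE', ?_⟩
  intro n a J h1 h2 B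
  set s0 : ℕ := ∑ i, Nat.size (a i) with hs0
  refine ⟨fun m => Submodule.span ℚ (hardSet a (Wb n B s0 * 2 ^ (m + 1)) B), ?_, ?_⟩
  · intro m m' hmm
    refine Submodule.span_mono (hardSet_mono (Nat.mul_le_mul_left _ ?_))
    exact Nat.pow_le_pow_right (by norm_num) (by omega)
  intro m
  show (∀ z : Fin n → ℤ, (∀ i, |z i| ≤ 2 ^ B) → (fun i => (z i : ℚ)) ∉
      Submodule.span ℚ (hardSet a (Wb n B s0 * 2 ^ (m + 1)) B) → ∀ k : ℤ, _) ∧ _
  set P : ℕ := Wb n B s0 * 2 ^ (m + 1) with hP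
  set V : Submodule ℚ (Fin n → ℚ) := Submodule.span ℚ (hardSet a P B) with hV
  have hfar : Far J m V := fun y hy hy0 hyJ => span_far h1 h2 hy hy0 hyJ
  have hcode : ∀ S ∈ (Finset.univ.filter fun S : Finset (Fin n) =>
      (fun i => if i ∈ S then (1 : ℚ) else 0) ∈ V),
      ∀ S' ∈ (Finset.univ.filter fun S : Finset (Fin n) =>
      (fun i => if i ∈ S then (1 : ℚ) else 0) ∈ V), symmDiff S S' ⊆ J →
      (symmDiff S S').card ≤ m → S = S' := by
    intro S hS S' hS' hJ hm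
    rw [Finset.mem_filter] at hS hS'
    exact far_code hfar hS.2 hS'.2 hJ hm
  refine ⟨?_, hfar, fun hm => ⟨far_finrank hfar hm, fun h1m τ hτ =>
    far_moment hfar h1m hm τ hτ⟩, fun E h3 h4 => anticode hcode E h3 h4,
    fun hJ => plotkin hcode hJ⟩
  intro z hz hzV k
  have hnot : ¬ NearZ a P z := fun hn => hzV (Submodule.subset_span ⟨z, hz, hn, rfl⟩)
  unfold NearZ at hnot
  push Not at hnot
  have hpow : P = 2 * Wb n B s0 * 2 ^ m := by
    rw [hP, pow_succ]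
    ring
  have h6 : 1 ≤ 2 ^ m := Nat.one_le_pow _ _ (by norm_num)
  have hev : ∀ (f : Polynomial ℕ) (x : ℕ), (f.comp Rp).eval x = f.eval (12 * (x + 1) ^ 2) := by
    intro f x
    rw [Polynomial.eval_comp, Rp_eval]
  refine ⟨?_, fun hz0 => ?_⟩
  rotate_left
  · set s : ℕ := n + s0 + B + Nat.size k.natAbs with hs
    have hzN : ∀ i, (z i).toNat ≤ 2 ^ B := by
      intro i
      have e1 := hz i
      rw [abs_of_nonneg (hz0 i)] at e1
      have e2 : ((z i).toNat : ℤ) = z i := Int.toNat_of_nonneg (hz0 i)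
      have e3 : ((z i).toNat : ℤ) ≤ ((2 ^ B : ℕ) : ℤ) := by
        rw [e2]
        push_cast
        exact e1
      exact_mod_cast e3
    set L : List ℕ := List.ofFn fun i => (z i).toNat ^ 2 * a i with hL
    have hb1 : bsz L k.natAbs ≤ n + (n * (2 * B + 1) + s0) + Nat.size k.natAbs := by
      unfold bsz
      rw [hL, List.length_ofFn, List.map_ofFn, List.sum_ofFn]
      have e1 : ∑ i, (Nat.size ∘ fun i => (z i).toNat ^ 2 * a i) i ≤
          ∑ i : Fin n, ((2 * B + 1) + Nat.size (a i)) := by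
        refine Finset.sum_le_sum fun i _ => ?_
        have := size_sq (x := a i) (hzN i)
        show Nat.size ((z i).toNat ^ 2 * a i) ≤ _
        omega
      have e2 : ∑ i : Fin n, ((2 * B + 1) + Nat.size (a i)) = n * (2 * B + 1) + s0 := by
        rw [Finset.sum_add_distrib, Finset.sum_const, Finset.card_univ, Fintype.card_fin,
          smul_eq_mul]
      omega
    have hb2 : n + (n * (2 * B + 1) + s0) + Nat.size k.natAbs ≤ 2 * (s + 1) ^ 2 := by
      rw [hs]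
      nlinarith [Nat.zero_le (n * s0), Nat.zero_le (n * B), Nat.zero_le (s0 * B),
        Nat.zero_le (n * Nat.size k.natAbs), Nat.zero_le (s0 * Nat.size k.natAbs),
        Nat.zero_le (B * Nat.size k.natAbs), Nat.zero_le (n * n), Nat.zero_le (s0 * s0),
        Nat.zero_le (B * B), Nat.zero_le (Nat.size k.natAbs * Nat.size k.natAbs)]
    have hW : 2 * Wb n B s0 ≤ 5 * (s + 1) ^ 2 + (s + 1) := Wb_le (by omega)
    have hEE : EE L k.natAbs = ∑ i, (z i : ℝ) * √(a i : ℝ) - (k.natAbs : ℕ) := by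
      rw [hL, EE_ofFn]
      congr 1
      refine Finset.sum_congr rfl fun i _ => ?_
      have e2 : (((z i).toNat : ℕ) : ℝ) = (z i : ℝ) := by
        have e3 : ((z i).toNat : ℤ) = z i := Int.toNat_of_nonneg (hz0 i)
        rw [← Int.cast_natCast, e3]
      have e4 : (((z i).toNat ^ 2 * a i : ℕ) : ℝ) = (z i : ℝ) ^ 2 * (a i : ℝ) := by
        rw [Nat.cast_mul, Nat.cast_pow, e2]
      have e5 : (0 : ℝ) ≤ (z i : ℝ) := by exact_mod_cast hz0 i
      rw [e4, Real.sqrt_mul (by positivity), Real.sqrt_sq e5]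
    have h3 : 1 ≤ |EE L k.natAbs| * 2 ^ P := by
      rw [hEE]
      have := hnot (k.natAbs : ℤ)
      rw [Int.cast_natCast] at this
      exact this
    have h4 := hT1 L k.natAbs _ h3
    have h5 : bsz L k.natAbs + P ≤ (12 * (s + 1) ^ 2) * 2 ^ m := by
      have e1 : P ≤ (5 * (s + 1) ^ 2 + (s + 1)) * 2 ^ m := by
        rw [hpow]
        exact Nat.mul_le_mul_right _ hW
      have e2 : bsz L k.natAbs ≤ 2 * (s + 1) ^ 2 * 2 ^ m :=
        (hb1.trans hb2).trans (Nat.le_mul_of_pos_right _ h6)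
      have e3 : s + 1 ≤ (s + 1) ^ 2 := by nlinarith
      calc bsz L k.natAbs + P ≤ 2 * (s + 1) ^ 2 * 2 ^ m + (5 * (s + 1) ^ 2 + (s + 1)) * 2 ^ m :=
            Nat.add_le_add e2 e1
        _ = (2 * (s + 1) ^ 2 + (5 * (s + 1) ^ 2 + (s + 1))) * 2 ^ m := by ring
        _ ≤ (12 * (s + 1) ^ 2) * 2 ^ m := Nat.mul_le_mul_right _ (by omega)
    have h8 : T L k.natAbs ≤ (q.comp Rp).eval s * (2 ^ q.natDegree) ^ m := by
      rw [hev]
      refine (h4.trans (poly_mono q h5)).trans ?_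
      refine (poly_scale q _ h6).trans (le_of_eq ?_)
      rw [← pow_mul, ← pow_mul, mul_comm m]
    have h9 := hT' L k
    have h10 : q'.eval (szs L k) ≤ (q'.comp Rp).eval s := by
      rw [hev]
      refine poly_mono q' ?_
      have e1 : szs L k ≤ 2 * (s + 1) ^ 2 := hb1.trans hb2
      have e2 : 2 * (s + 1) ^ 2 ≤ 12 * (s + 1) ^ 2 := Nat.mul_le_mul_right _ (by norm_num)
      exact e1.trans e2
    have h11 : (q'.comp Rp).eval s ≤ (q'.comp Rp).eval s * (2 ^ q.natDegree) ^ m :=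
      Nat.le_mul_of_pos_right _ (pow_pos hΛ m)
    rw [Polynomial.eval_add, Polynomial.eval_add, add_mul, add_mul]
    exact (h9.trans (Nat.add_le_add h8 (h10.trans h11))).trans (Nat.le_add_right _ _)
  · have h3 := hnot k
    refine h3.trans (mul_le_mul_of_nonneg_left ?_ (abs_nonneg _))
    refine pow_le_pow_right₀ (by norm_num) ?_
    rw [hpow]
    refine Nat.mul_le_mul_right _ ?_
    have hW : 2 * Wb n B s0 ≤ 5 * (n + s0 + B + 1) ^ 2 + (n + s0 + B + 1) := Wb_le le_rfl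
    have e3 : n + s0 + B + 1 ≤ (n + s0 + B + 1) ^ 2 := by nlinarith
    have e4 : 2 * Wb n B s0 ≤ 12 * (n + s0 + B + 1) ^ 2 := by omega
    rw [Polynomial.eval_add, Rp_eval]
    exact e4.trans (Nat.le_add_left _ _)

end Pool.Agent.H41.RC
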