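import Mathlib

/-!
# Product distributions: the maximum principle, the union bound and the mean

`maxp`: among the product distributions with atoms at most `θ ≥ 1 / 2` on the coordinates in `G` the probability of an event
is maximal for two-point distributions.
-/

set_option autoImplicit false

namespace Pool.Agent.H41.RC

theorem sum_split {n : ℕ} (A : Fin n → Finset ℕ) (i : Fin n) (f : (Fin n → ℕ) → ℝ) :
    ∑ x ∈ Fintype.piFinset A, f x = ∑ a ∈ A i,
      ∑ z ∈ Fintype.piFinset (Function.update A i {0}), f (Function.update z i a) := by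
  rw [← Finset.sum_product']
  refine Finset.sum_nbij' (fun x => (x i, Function.update x i 0))
    (fun p => Function.update p.2 i p.1) ?_ ?_ ?_ ?_ ?_
  · intro x hx
    rw [Fintype.mem_piFinset] at hx
    rw [Finset.mem_product, Fintype.mem_piFinset]
    refine ⟨hx i, fun j => ?_⟩
    by_cases h : j = i
    · subst h
      simp
    · change Function.update x i 0 j ∈ Function.update A i {0} j
      rw [Function.update_of_ne h, Function.update_of_ne h]
      exact hx j
  · intro p hp
    rw [Finset.mem_product, Fintype.mem_piFinset] at hp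
    rw [Fintype.mem_piFinset]
    intro j
    by_cases h : j = i
    · subst h
      rw [Function.update_self]
      exact hp.1
    · rw [Function.update_of_ne h]
      have := hp.2 j
      rwa [Function.update_of_ne h] at this
  · intro x _
    simp
  · intro p hp
    rw [Finset.mem_product, Fintype.mem_piFinset] at hp
    have h0 : p.2 i = 0 := by
      have := hp.2 i
      rwa [Function.update_self, Finset.mem_singleton] at this
    have h1 : Function.update p.2 i 0 = p.2 := by
      rw [← h0]
      exact Function.update_eq_self i p.2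
    simp [h1]
  · intro x _
    simp

open Classical in
/-- the probability as a function of the distribution of one coordinate -/
theorem prob_split {n : ℕ} (A : Fin n → Finset ℕ) (w : Fin n → ℕ → ℝ)
    (P : (Fin n → ℕ) → Prop) (i : Fin n) :
    ∑ x ∈ (Fintype.piFinset A).filter P, ∏ j, w j (x j) = ∑ a ∈ A i, w i a *
      ∑ z ∈ Fintype.piFinset (Function.update A i {0}),
        (if P (Function.update z i a) then ∏ j ∈ Finset.univ.erase i, w j (z j) else 0) := by
  rw [Finset.sum_filter, sum_split A i]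
  refine Finset.sum_congr rfl fun a _ => ?_
  rw [Finset.mul_sum]
  refine Finset.sum_congr rfl fun z _ => ?_
  by_cases h : P (Function.update z i a)
  · rw [if_pos h, if_pos h, ← Finset.mul_prod_erase Finset.univ _ (Finset.mem_univ i),
      Function.update_self]
    congr 1
    refine Finset.prod_congr rfl fun j hj => ?_
    rw [Function.update_of_ne (Finset.ne_of_mem_erase hj)]
  · rw [if_neg h, if_neg h, mul_zero]

/-- one coordinate, two points -/
theorem two_point (S : Finset ℕ) (w c : ℕ → ℝ) (h0 : ∀ a ∈ S, 0 ≤ w a) (h1 : ∑ a ∈ S, w a = 1)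
    {θ : ℝ} (hθ2 : 1 / 2 ≤ θ) (hθ1 : θ < 1) (hθ : ∀ a ∈ S, w a ≤ θ) :
    ∃ (S' : Finset ℕ) (w' : ℕ → ℝ), S' ⊆ S ∧ S'.card ≤ 2 ∧ (∀ a ∈ S', 0 ≤ w' a) ∧
      ∑ a ∈ S', w' a = 1 ∧ (∀ a ∈ S', w' a ≤ θ) ∧
      ∑ a ∈ S, w a * c a ≤ ∑ a ∈ S', w' a * c a := by
  have hne : S.Nonempty := by
    rw [Finset.nonempty_iff_ne_empty]
    rintro rfl
    simp at h1
  obtain ⟨u, hu, humax⟩ := Finset.exists_max_image S c hne
  have hne2 : (S.erase u).Nonempty := by
    rw [Finset.nonempty_iff_ne_empty]
    intro h
    have h2 := Finset.add_sum_erase S w hu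
    rw [h, Finset.sum_empty, add_zero, h1] at h2
    have := hθ u hu
    linarith
  obtain ⟨v, hv, hvmax⟩ := Finset.exists_max_image (S.erase u) c hne2
  have huv : u ≠ v := (Finset.ne_of_mem_erase hv).symm
  refine ⟨{u, v}, fun a => if a = u then θ else 1 - θ, ?_, Finset.card_le_two, ?_, ?_, ?_, ?_⟩
  · intro z hz
    rw [Finset.mem_insert, Finset.mem_singleton] at hz
    rcases hz with rfl | rfl
    · exact hu
    · exact Finset.mem_of_mem_erase hv
  · intro a _
    dsimp only
    split_ifs <;> linarith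
  · rw [Finset.sum_pair huv, if_pos rfl, if_neg huv.symm]
    ring
  · intro a _
    dsimp only
    split_ifs <;> linarith
  · rw [Finset.sum_pair huv]
    dsimp only
    rw [if_pos rfl, if_neg huv.symm, ← Finset.add_sum_erase S (fun a => w a * c a) hu]
    have h2 := Finset.add_sum_erase S w hu
    have h3 : ∑ a ∈ S.erase u, w a * c a ≤ ∑ a ∈ S.erase u, w a * c v :=
      Finset.sum_le_sum fun a ha =>
        mul_le_mul_of_nonneg_left (hvmax a ha) (h0 a (Finset.mem_of_mem_erase ha))
    rw [← Finset.sum_mul] at h3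
    have h4 : ∑ a ∈ S.erase u, w a = 1 - w u := by linarith
    rw [h4] at h3
    have h5 : c v ≤ c u := humax v (Finset.mem_of_mem_erase hv)
    have h6 := hθ u hu
    nlinarith

/-- one coordinate, one point -/
theorem one_point (S : Finset ℕ) (w c : ℕ → ℝ) (h0 : ∀ a ∈ S, 0 ≤ w a)
    (h1 : ∑ a ∈ S, w a = 1) :
    ∃ (S' : Finset ℕ) (w' : ℕ → ℝ), S' ⊆ S ∧ S'.card ≤ 2 ∧ (∀ a ∈ S', 0 ≤ w' a) ∧
      ∑ a ∈ S', w' a = 1 ∧ ∑ a ∈ S, w a * c a ≤ ∑ a ∈ S', w' a * c a := by
  have hne : S.Nonempty := by
    rw [Finset.nonempty_iff_ne_empty]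
    rintro rfl
    simp at h1
  obtain ⟨u, hu, humax⟩ := Finset.exists_max_image S c hne
  refine ⟨{u}, fun _ => 1, ?_, by simp, fun _ _ => zero_le_one, by simp, ?_⟩
  · intro z hz
    rw [Finset.mem_singleton] at hz
    rw [hz]
    exact hu
  · rw [Finset.sum_singleton, one_mul]
    calc ∑ a ∈ S, w a * c a ≤ ∑ a ∈ S, w a * c u :=
          Finset.sum_le_sum fun a ha => mul_le_mul_of_nonneg_left (humax a ha) (h0 a ha)
      _ = c u := by rw [← Finset.sum_mul, h1, one_mul]

open Classical in
theorem maxp {n : ℕ} (A : Fin n → Finset ℕ) (w : Fin n → ℕ → ℝ) (G : Finset (Fin n))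
    (h0 : ∀ i, ∀ a ∈ A i, 0 ≤ w i a) (h1 : ∀ i, ∑ a ∈ A i, w i a = 1)
    {θ : ℝ} (hθ2 : 1 / 2 ≤ θ) (hθ1 : θ < 1) (hθ : ∀ i ∈ G, ∀ a ∈ A i, w i a ≤ θ)
    (P : (Fin n → ℕ) → Prop) (I : Finset (Fin n)) :
    ∃ (A' : Fin n → Finset ℕ) (w' : Fin n → ℕ → ℝ), (∀ i, A' i ⊆ A i) ∧
      (∀ i ∈ I, (A' i).card ≤ 2) ∧ (∀ i, ∀ a ∈ A' i, 0 ≤ w' i a) ∧
      (∀ i, ∑ a ∈ A' i, w' i a = 1) ∧ (∀ i ∈ G, ∀ a ∈ A' i, w' i a ≤ θ) ∧
      ∑ x ∈ (Fintype.piFinset A).filter P, ∏ j, w j (x j) ≤
        ∑ x ∈ (Fintype.piFinset A').filter P, ∏ j, w' j (x j) := by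
  induction I using Finset.induction_on with
  | empty => exact ⟨A, w, fun i => subset_rfl, by simp, h0, h1, hθ, le_rfl⟩
  | insert i I hi ih =>
    obtain ⟨A', w', hA, hc, h0', h1', hθ', hle⟩ := ih
    set c : ℕ → ℝ := fun a => ∑ z ∈ Fintype.piFinset (Function.update A' i {0}),
      (if P (Function.update z i a) then ∏ j ∈ Finset.univ.erase i, w' j (z j) else 0) with hcdef
    have hstep : ∃ (S' : Finset ℕ) (v : ℕ → ℝ), S' ⊆ A' i ∧ S'.card ≤ 2 ∧ (∀ a ∈ S', 0 ≤ v a) ∧
        ∑ a ∈ S', v a = 1 ∧ (i ∈ G → ∀ a ∈ S', v a ≤ θ) ∧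
        ∑ a ∈ A' i, w' i a * c a ≤ ∑ a ∈ S', v a * c a := by
      by_cases hG : i ∈ G
      · obtain ⟨S', v, a1, a2, a3, a4, a5, a6⟩ :=
          two_point (A' i) (w' i) c (h0' i) (h1' i) hθ2 hθ1 (hθ' i hG)
        exact ⟨S', v, a1, a2, a3, a4, fun _ => a5, a6⟩
      · obtain ⟨S', v, a1, a2, a3, a4, a6⟩ := one_point (A' i) (w' i) c (h0' i) (h1' i)
        exact ⟨S', v, a1, a2, a3, a4, fun h => absurd h hG, a6⟩
    obtain ⟨S', v, b1, b2, b3, b4, b5, b6⟩ := hstep
    refine ⟨Function.update A' i S', Function.update w' i v, ?_, ?_, ?_, ?_, ?_, ?_⟩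
    · intro j
      by_cases h : j = i
      · subst h
        rw [Function.update_self]
        exact b1.trans (hA j)
      · rw [Function.update_of_ne h]
        exact hA j
    · intro j hj
      by_cases h : j = i
      · subst h
        rw [Function.update_self]
        exact b2
      · rw [Function.update_of_ne h]
        exact hc j (Finset.mem_of_mem_insert_of_ne hj h)
    · intro j
      by_cases h : j = i
      · subst h
        rw [Function.update_self, Function.update_self]
        exact b3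
      · rw [Function.update_of_ne h, Function.update_of_ne h]
        exact h0' j
    · intro j
      by_cases h : j = i
      · subst h
        rw [Function.update_self, Function.update_self]
        exact b4
      · rw [Function.update_of_ne h, Function.update_of_ne h]
        exact h1' j
    · intro j hj
      by_cases h : j = i
      · subst h
        rw [Function.update_self, Function.update_self]
        exact b5 hj
      · rw [Function.update_of_ne h, Function.update_of_ne h]
        exact hθ' j hj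
    · refine hle.trans ?_
      rw [prob_split A' w' P i, prob_split (Function.update A' i S') (Function.update w' i v) P i,
        Function.update_self, Function.update_self, Function.update_idem]
      refine b6.trans (le_of_eq ?_)
      refine Finset.sum_congr rfl fun a _ => ?_
      congr 1
      refine Finset.sum_congr rfl fun z _ => ?_
      by_cases h : P (Function.update z i a)
      · rw [if_pos h, if_pos h]
        refine Finset.prod_congr rfl fun j hj => ?_
        rw [Function.update_of_ne (Finset.ne_of_mem_erase hj)]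
      · rw [if_neg h, if_neg h]

open Classical in
theorem union_bound {α β : Type} (s : Finset α) (I : Finset β) (P : α → Prop)
    (Q : β → α → Prop) (W : α → ℝ) (hW : ∀ x ∈ s, 0 ≤ W x)
    (h : ∀ x ∈ s, P x → ∃ b ∈ I, Q b x) :
    ∑ x ∈ s.filter P, W x ≤ ∑ b ∈ I, ∑ x ∈ s.filter (Q b), W x := by
  simp only [Finset.sum_filter]
  rw [Finset.sum_comm]
  refine Finset.sum_le_sum fun x hx => ?_
  have hnn : ∀ b ∈ I, 0 ≤ if Q b x then W x else 0 := by
    intro b _
    split_ifs
    · exact hW x hx
    · exact le_rfl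
  by_cases hP : P x
  · rw [if_pos hP]
    obtain ⟨b, hb, hQ⟩ := h x hx hP
    have h2 := Finset.single_le_sum hnn hb
    rwa [if_pos hQ] at h2
  · rw [if_neg hP]
    exact Finset.sum_nonneg hnn

open Classical in
theorem avgW {α : Type} (B : Finset α) (W f : α → ℝ) (bd : ℕ → α → Prop) {Q L : ℝ} (hQ : 0 ≤ Q)
    (hL : 1 ≤ L) (hW : ∀ a ∈ B, 0 ≤ W a) (hW1 : ∑ a ∈ B, W a = 1) {M : ℕ} {p : ℕ → ℝ}
    (h1 : ∀ a ∈ B, ∀ m ≤ M, ¬ bd m a → f a ≤ Q * L ^ m) (h2 : ∀ a ∈ B, f a ≤ Q * L ^ M)
    (h3 : ∀ m ≤ M, ∑ a ∈ B.filter (bd m), W a ≤ p m) :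
    ∑ a ∈ B, W a * f a ≤
      Q * (1 + ∑ m ∈ Finset.range M, L ^ (m + 1) * p m + L ^ M * p M) := by
  have hL0 : 0 < L := by linarith
  have hp : ∀ a ∈ B, f a ≤ Q * (1 + ∑ m ∈ Finset.range M, (if bd m a then L ^ (m + 1) else 0) +
      (if bd M a then L ^ M else 0)) := by
    intro a ha
    have hnn : ∀ m ∈ Finset.range M, (0 : ℝ) ≤ if bd m a then L ^ (m + 1) else 0 := by
      intro m _
      split_ifs
      · positivity
      · exact le_rfl
    have hnn' : (0 : ℝ) ≤ if bd M a then L ^ M else 0 := by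
      split_ifs
      · positivity
      · exact le_rfl
    have hs := Finset.sum_nonneg hnn
    by_cases hex : ∃ m, m ≤ M ∧ ¬ bd m a
    · have h4 := Nat.find_spec hex
      have h5 := h1 a ha _ h4.1 h4.2
      refine h5.trans (mul_le_mul_of_nonneg_left ?_ hQ)
      rcases Nat.eq_zero_or_pos (Nat.find hex) with h6 | h6
      · rw [h6, pow_zero]
        linarith
      · have h7 : bd (Nat.find hex - 1) a := by
          by_contra h8
          exact Nat.find_min hex (Nat.sub_lt h6 one_pos) ⟨by omega, h8⟩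
        have h8 : Nat.find hex - 1 ∈ Finset.range M := by
          rw [Finset.mem_range]
          omega
        have h9 := Finset.single_le_sum hnn h8
        simp only [h7, if_true] at h9
        rw [Nat.sub_add_cancel h6] at h9
        linarith
    · push Not at hex
      have h4 := hex M le_rfl
      refine (h2 a ha).trans (mul_le_mul_of_nonneg_left ?_ hQ)
      rw [if_pos h4]
      linarith
  have hsum : ∑ a ∈ B, W a * f a ≤ ∑ a ∈ B, Q * (W a + ∑ m ∈ Finset.range M,
      L ^ (m + 1) * (if bd m a then W a else 0) + L ^ M * (if bd M a then W a else 0)) := by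
    refine Finset.sum_le_sum fun a ha => ?_
    refine (mul_le_mul_of_nonneg_left (hp a ha) (hW a ha)).trans (le_of_eq ?_)
    have e1 : ∀ m, L ^ (m + 1) * (if bd m a then W a else 0) =
        W a * (if bd m a then L ^ (m + 1) else 0) := by
      intro m
      split_ifs <;> ring
    have e2 : L ^ M * (if bd M a then W a else 0) = W a * (if bd M a then L ^ M else 0) := by
      split_ifs <;> ring
    rw [e2]
    simp only [e1]
    rw [← Finset.mul_sum]
    ring
  refine hsum.trans ?_
  rw [← Finset.mul_sum]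
  refine mul_le_mul_of_nonneg_left ?_ hQ
  rw [Finset.sum_add_distrib, Finset.sum_add_distrib, hW1, Finset.sum_comm]
  refine add_le_add (add_le_add le_rfl ?_) ?_
  · refine Finset.sum_le_sum fun m hm => ?_
    rw [← Finset.mul_sum, ← Finset.sum_filter]
    exact mul_le_mul_of_nonneg_left (h3 m (Finset.mem_range.1 hm).le) (by positivity)
  · rw [← Finset.mul_sum, ← Finset.sum_filter]
    exact mul_le_mul_of_nonneg_left (h3 M le_rfl) (by positivity)

end Pool.Agent.H41.RC
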