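import Pool.Agent.H41.RC.Tms
import Pool.Agent.H41.RC.WMax

/-!
# Bad lists for product distributions

The coordinates in `G` have atoms at most `θ`. `Jg A G`: the coordinates in `G` with a square class which no earlier
coordinate in `G` has. `PE`: some list `y` which differs from `x` in at most `ρ` places is bad. For fixed places `R` of the
changes and a fixed set `Z` of at most `ρ` coordinates (those whose new class is the class of a changed entry), and fixed
other coordinates, at most one choice of the coordinates in `J` is bad.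
-/

set_option autoImplicit false

namespace Pool.Agent.H41.RC

open Pool.Agent.H92.SR

variable {n : ℕ}

open Classical in
/-- the coordinates in `G` with a square class not seen before -/
noncomputable def Jg (A : Fin n → Finset ℕ) (G : Finset (Fin n)) : Finset (Fin n) :=
  G.filter fun i => ∃ c ∈ cls (A i), ∀ i' < i, i' ∈ G → c ∉ cls (A i')

theorem mem_Jg {A : Fin n → Finset ℕ} {G : Finset (Fin n)} {i : Fin n} : i ∈ Jg A G ↔ i ∈ G ∧
    ∃ c ∈ cls (A i), ∀ i' < i, i' ∈ G → c ∉ cls (A i') := by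
  unfold Jg
  rw [Finset.mem_filter]

theorem fewg (A : Fin n → Finset ℕ) (G : Finset (Fin n)) {i : Fin n} (hi : i ∈ G) {c : ℕ}
    (hc : c ∈ cls (A i)) : ∃ j ∈ Jg A G, c ∈ cls (A j) := by
  classical
  obtain ⟨j, hj, hmin⟩ := Finset.exists_min_image
    (G.filter fun i' : Fin n => c ∈ cls (A i')) (fun i' => i')
    ⟨i, Finset.mem_filter.2 ⟨hi, hc⟩⟩
  rw [Finset.mem_filter] at hj
  refine ⟨j, mem_Jg.2 ⟨hj.1, c, hj.2, fun i' hi' hG hc' => ?_⟩, hj.2⟩
  exact absurd (hmin i' (Finset.mem_filter.2 ⟨hG, hc'⟩)) (not_le.2 hi')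

/-- `c j` is a class of `A j` which no earlier set has -/
def New (A : Fin n → Finset ℕ) (G : Finset (Fin n)) (c : Fin n → ℕ) : Prop :=
  ∀ j ∈ Jg A G, c j ∈ cls (A j) ∧ ∀ i < j, i ∈ G → c j ∉ cls (A i)

theorem exists_new (A : Fin n → Finset ℕ) (G : Finset (Fin n)) : ∃ c, New A G c := by
  have h : ∀ j : Fin n, ∃ c : ℕ, j ∈ Jg A G →
      c ∈ cls (A j) ∧ ∀ i < j, i ∈ G → c ∉ cls (A i) := by
    intro j
    by_cases hj : j ∈ Jg A G
    · obtain ⟨-, c, hc, hn⟩ := mem_Jg.1 hj
      exact ⟨c, fun _ => ⟨hc, hn⟩⟩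
    · exact ⟨0, fun h => absurd h hj⟩
  choose c hc using h
  exact ⟨c, fun j hj => hc j hj⟩

theorem new_inj {A : Fin n → Finset ℕ} {G : Finset (Fin n)} {c : Fin n → ℕ} (hc : New A G c) :
    Set.InjOn c ↑(Jg A G) := by
  intro i hi j hj h
  have hi' : i ∈ Jg A G := hi
  have hj' : j ∈ Jg A G := hj
  by_contra hne
  rcases lt_or_gt_of_ne hne with h1 | h1
  · exact (hc j hj').2 i h1 (mem_Jg.1 hi').1 (h ▸ (hc i hi').1)
  · exact (hc i hi').2 j h1 (mem_Jg.1 hj').1 (h ▸ (hc j hj').1)

/-- some list `y ≤ N` which agrees with `x` off `R` and has no class `c j`, `j ∈ J`, on `R`, is bad -/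
def BR (N : Fin n → ℕ) (c : Fin n → ℕ) (R J : Finset (Fin n)) (p : ℕ) (x : Fin n → ℕ) : Prop :=
  ∃ y : Fin n → ℕ, (∀ i, y i ≤ N i) ∧ (∀ i, i ∉ R → y i = x i) ∧ badp p y ∧
    ∀ j ∈ J, ∀ i ∈ R, y i ≠ 0 → sf (y i) ≠ c j

open Classical in
theorem cntW (A : Fin n → Finset ℕ) (N : Fin n → ℕ) (G : Finset (Fin n)) (t : ℕ)
    (hS : ∀ i ∈ G, (cls (A i)).card ≤ t ∧
      ∀ x ∈ A i, ∀ y ∈ A i, x ≠ y → ∀ c ∈ cls (A i), co c x ≠ co c y)
    (w : Fin n → ℕ → ℝ) (hw0 : ∀ i, ∀ a ∈ A i, 0 ≤ w i a) (hw1 : ∀ i, ∑ a ∈ A i, w i a = 1)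
    {θ : ℝ} (hθ : ∀ i ∈ G, ∀ a ∈ A i, w i a ≤ θ)
    {c : Fin n → ℕ} (hc : New A G c) {J R : Finset (Fin n)} (hJ : J ⊆ Jg A G)
    (hJR : Disjoint J R) {u : ℕ} (hu : t * J.card + 2 * R.card + 1 ≤ u) :
    ∑ x ∈ (Fintype.piFinset A).filter (fun x =>
      BR N c R J ((∑ i, Nat.size (N i) + 2) * 2 ^ u) x), ∏ i, w i (x i) ≤ θ ^ J.card := by
  set B : Finset (Fin n → ℕ) := (Fintype.piFinset A).filter fun x =>
    BR N c R J ((∑ i, Nat.size (N i) + 2) * 2 ^ u) x with hB
  have hinj : Set.InjOn (fun (x : Fin n → ℕ) (i : Fin n) => if i ∈ J then 0 else x i) ↑B := by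
    intro x hx x' hx' he
    rw [Finset.mem_coe, hB, Finset.mem_filter] at hx hx'
    obtain ⟨hx, y, hyN, hyx, ⟨k₁, hk₁⟩, hyc⟩ := hx
    obtain ⟨hx', y', hyN', hyx', ⟨k₂, hk₂⟩, hyc'⟩ := hx'
    have hout : ∀ i, i ∉ J → x i = x' i := by
      intro i hi
      have := congrFun he i
      simp only [if_neg hi] at this
      exact this
    by_contra hne
    obtain ⟨i₀, hi₀⟩ := Function.ne_iff.1 hne
    obtain ⟨j, hj, hmax⟩ := Finset.exists_max_image
      (Finset.univ.filter fun i : Fin n => x i ≠ x' i) (fun i => i)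
      ⟨i₀, Finset.mem_filter.2 ⟨Finset.mem_univ _, hi₀⟩⟩
    have hj' : x j ≠ x' j := (Finset.mem_filter.1 hj).2
    have hjJ : j ∈ J := by
      by_contra h
      exact hj' (hout j h)
    have hKj := (mem_Jg.1 (hJ hjJ)).1
    obtain ⟨hcj, hnew⟩ := hc j (hJ hjJ)
    have hmx := Fintype.mem_piFinset.1 hx
    have hmx' := Fintype.mem_piFinset.1 hx'
    have hc1 : c j ≠ 1 := (mem_cls.1 hcj).1
    have hnR : ∀ i ∈ J, i ∉ R := fun i hi => Finset.disjoint_left.1 hJR hi
    have hyJ : ∀ i ∈ J, y i = x i := fun i hi => hyx i (hnR i hi)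
    have hyJ' : ∀ i ∈ J, y' i = x' i := fun i hi => hyx' i (hnR i hi)
    set D : Finset ℕ := insert 1 (J.biUnion (fun i => cls (A i)) ∪
      (R.image (fun i => sf (y i)) ∪ R.image fun i => sf (y' i))) with hDdef
    have hDm : ∀ z w : Fin n → ℕ, (∀ i, w i ∈ A i) → (∀ i ∈ J, z i = w i) →
        (∀ i ∈ R, sf (z i) ∈ R.image (fun i => sf (y i)) ∪ R.image fun i => sf (y' i)) →
        ∀ i ∈ J ∪ R, z i ≠ 0 → sf (z i) ∈ D := by
      intro z w hw hzw hzR i hi h0
      rw [hDdef]
      rcases Finset.mem_union.1 hi with hi | hi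
      · by_cases h : sf (z i) = 1
        · rw [h]
          exact Finset.mem_insert_self _ _
        · refine Finset.mem_insert_of_mem (Finset.mem_union_left _
            (Finset.mem_biUnion.2 ⟨i, hi, mem_cls.2 ⟨h, z i, ?_, h0, rfl⟩⟩))
          rw [hzw i hi]
          exact hw i
      · exact Finset.mem_insert_of_mem (Finset.mem_union_right _ (hzR i hi))
    have hDs : ∀ d ∈ D, Squarefree d := by
      intro d hd
      rw [hDdef, Finset.mem_insert, Finset.mem_union, Finset.mem_union, Finset.mem_biUnion,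
        Finset.mem_image, Finset.mem_image] at hd
      rcases hd with rfl | ⟨i, -, hi⟩ | ⟨i, -, rfl⟩ | ⟨i, -, rfl⟩
      · exact squarefree_one
      · obtain ⟨-, z, -, -, rfl⟩ := mem_cls.1 hi
        exact (sf_spec z).2
      · exact (sf_spec _).2
      · exact (sf_spec _).2
    have hcard : D.card ≤ u := by
      refine le_trans ?_ hu
      refine (Finset.card_insert_le _ _).trans (Nat.succ_le_succ ?_)
      refine (Finset.card_union_le _ _).trans ?_
      have h1 : (J.biUnion fun i => cls (A i)).card ≤ J.card * t :=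
        Finset.card_biUnion_le_card_mul _ _ t fun i hi => (hS i (mem_Jg.1 (hJ hi)).1).1
      have h2 : (R.image (fun i => sf (y i)) ∪ R.image fun i => sf (y' i)).card ≤
          R.card + R.card :=
        (Finset.card_union_le _ _).trans (add_le_add Finset.card_image_le Finset.card_image_le)
      rw [mul_comm] at h1
      omega
    have hzero : ∀ z : ℕ, (z ≠ 0 → sf z ≠ c j) → co (c j) z = 0 := by
      intro z hz
      unfold co
      split_ifs with h3
      · by_cases h4 : z = 0
        · rw [h4, rt_zero]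
          rfl
        · exact absurd h3 (hz h4)
      · rfl
    have hsum : (∑ i ∈ J ∪ R, (co (c j) (y i) - co (c j) (y' i))) -
        (if c j = 1 then ((k₁ : ℤ) - k₂) else 0) ≠ 0 := by
      rw [if_neg hc1, sub_zero, Finset.sum_union hJR]
      have hR0 : ∑ i ∈ R, (co (c j) (y i) - co (c j) (y' i)) = 0 := by
        refine Finset.sum_eq_zero fun i hi => ?_
        rw [hzero _ (hyc j hjJ i hi), hzero _ (hyc' j hjJ i hi), sub_zero]
      rw [hR0, add_zero, Finset.sum_eq_single j]
      · rw [hyJ j hjJ, hyJ' j hjJ]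
        have := (hS j hKj).2 _ (hmx j) _ (hmx' j) hj' (c j) hcj
        exact sub_ne_zero.2 this
      · intro i hi hij
        rw [hyJ i hi, hyJ' i hi]
        rcases lt_or_gt_of_ne hij with h | h
        · have h1 := hnew i h (mem_Jg.1 (hJ hi)).1
          have h2 : ∀ z ∈ A i, co (c j) z = 0 := by
            intro z hz
            refine hzero z fun h4 h3 => ?_
            exact h1 (mem_cls.2 ⟨hc1, z, hz, h4, h3⟩)
          rw [h2 _ (hmx i), h2 _ (hmx' i), sub_zero]
        · have h1 : x i = x' i := by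
            by_contra h2
            exact absurd (hmax i (Finset.mem_filter.2 ⟨Finset.mem_univ _, h2⟩)) (not_le.2 h)
          rw [h1, sub_self]
      · intro h
        exact absurd hjJ h
    -- the values
    rw [EE_ofFn] at hk₁ hk₂
    set V : ℝ := ∑ i, √(y i : ℝ) with hV
    set V' : ℝ := ∑ i, √(y' i : ℝ) with hV'
    set s0 : ℕ := ∑ i, Nat.size (N i) with hs0
    have hW : V ≤ 2 ^ s0 := sqsum' hyN
    have hW' : V' ≤ 2 ^ s0 := sqsum' hyN'
    have hV0 : 0 ≤ V := Finset.sum_nonneg fun i _ => Real.sqrt_nonneg _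
    have hV0' : 0 ≤ V' := Finset.sum_nonneg fun i _ => Real.sqrt_nonneg _
    have hp1 : (1 : ℝ) ≤ 2 ^ (1 + (s0 + 2) * 2 ^ u) := one_le_pow₀ (by norm_num)
    have ha1 : |V - k₁| < 1 := by
      have := mul_le_mul_of_nonneg_left hp1 (abs_nonneg (V - k₁))
      linarith
    have ha2 : |V' - k₂| < 1 := by
      have := mul_le_mul_of_nonneg_left hp1 (abs_nonneg (V' - k₂))
      linarith
    rw [abs_lt] at ha1 ha2
    have hone : (1 : ℝ) ≤ 2 ^ s0 := one_le_pow₀ (by norm_num)
    have hpow : (2 : ℝ) ^ (s0 + 2) = 4 * 2 ^ s0 := by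
      rw [pow_add]
      ring
    have hk0 : (0 : ℝ) ≤ k₁ := Nat.cast_nonneg _
    have hk0' : (0 : ℝ) ≤ k₂ := Nat.cast_nonneg _
    have hSb : ∑ i ∈ J ∪ R, (√(y i : ℝ) + √(y' i : ℝ)) + |(((k₁ : ℤ) - k₂ : ℤ) : ℝ)| ≤
        2 ^ (s0 + 2) := by
      have h1 : ∑ i ∈ J ∪ R, (√(y i : ℝ) + √(y' i : ℝ)) ≤ V + V' := by
        rw [Finset.sum_add_distrib]
        exact add_le_add
          (Finset.sum_le_sum_of_subset_of_nonneg (Finset.subset_univ _)
            fun i _ _ => Real.sqrt_nonneg _)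
          (Finset.sum_le_sum_of_subset_of_nonneg (Finset.subset_univ _)
            fun i _ _ => Real.sqrt_nonneg _)
      have h2 : |(((k₁ : ℤ) - k₂ : ℤ) : ℝ)| ≤ 2 ^ s0 + 1 := by
        push_cast
        rw [abs_le]
        constructor <;> linarith
      rw [hpow]
      linarith
    have hcD : c j ∈ D := by
      rw [hDdef]
      exact Finset.mem_insert_of_mem (Finset.mem_union_left _
        (Finset.mem_biUnion.2 ⟨j, hjJ, hcj⟩))
    have key := sepf y y' ((k₁ : ℤ) - k₂) (J ∪ R) (D := D) (Finset.mem_insert_self _ _) hDs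
      (hDm y x hmx hyJ fun i hi => Finset.mem_union_left _ (Finset.mem_image_of_mem _ hi))
      (hDm y' x' hmx' hyJ' fun i hi =>
        Finset.mem_union_right _ (Finset.mem_image.2 ⟨i, hi, rfl⟩))
      ⟨c j, hcD, hsum⟩ (one_le_pow₀ (by norm_num)) hSb
    have hval : ∑ i ∈ J ∪ R, (√(y i : ℝ) - √(y' i : ℝ)) - (((k₁ : ℤ) - k₂ : ℤ) : ℝ) =
        (V - k₁) - (V' - k₂) := by
      have h1 : ∑ i ∈ J ∪ R, (√(y i : ℝ) - √(y' i : ℝ)) = V - V' := by
        rw [hV, hV', ← Finset.sum_sub_distrib]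
        refine Finset.sum_subset (Finset.subset_univ _) fun i _ hi => ?_
        rw [Finset.mem_union, not_or] at hi
        rw [hyx i hi.2, hyx' i hi.2, hout i hi.1, sub_self]
      rw [h1]
      push_cast
      ring
    rw [hval] at key
    have hexp : ((2 : ℝ) ^ (s0 + 2)) ^ (2 ^ D.card - 1) ≤ 2 ^ ((s0 + 2) * 2 ^ u) := by
      rw [← pow_mul]
      refine pow_le_pow_right₀ (by norm_num) ?_
      have h1 : 2 ^ D.card ≤ 2 ^ u := Nat.pow_le_pow_right (by norm_num) hcard
      exact Nat.mul_le_mul_left _ ((Nat.sub_le _ _).trans h1)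
    have hlow : 1 ≤ |(V - k₁) - (V' - k₂)| * 2 ^ ((s0 + 2) * 2 ^ u) :=
      key.trans (mul_le_mul_of_nonneg_left hexp (abs_nonneg _))
    have hup : |(V - k₁) - (V' - k₂)| ≤ |V - k₁| + |V' - k₂| := abs_sub _ _
    rw [pow_add, pow_one] at hk₁ hk₂
    have hP : (0 : ℝ) < 2 ^ ((s0 + 2) * 2 ^ u) := by positivity
    have hup' := mul_le_mul_of_nonneg_right hup hP.le
    nlinarith
  -- the weights
  have e1 : ∀ x ∈ B, ∏ i, w i (x i) ≤ θ ^ J.card *
      ∏ i, (if i ∈ J then (fun _ => (1 : ℝ)) else w i) (if i ∈ J then 0 else x i) := by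
    intro x hx
    rw [hB, Finset.mem_filter] at hx
    have hmx := Fintype.mem_piFinset.1 hx.1
    have e2 : θ ^ J.card = ∏ i, (if i ∈ J then θ else 1) := by
      rw [Finset.prod_ite_mem, Finset.univ_inter, Finset.prod_const]
    rw [e2, ← Finset.prod_mul_distrib]
    refine Finset.prod_le_prod (fun i _ => hw0 i _ (hmx i)) fun i _ => ?_
    by_cases h : i ∈ J
    · rw [if_pos h, if_pos h, mul_one]
      exact hθ i (mem_Jg.1 (hJ h)).1 _ (hmx i)
    · rw [if_neg h, if_neg h, if_neg h, one_mul]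
  have hθJ : 0 ≤ θ ^ J.card := by
    rcases J.eq_empty_or_nonempty with h | ⟨j, hj⟩
    · rw [h, Finset.card_empty, pow_zero]
      exact zero_le_one
    · have hG := (mem_Jg.1 (hJ hj)).1
      have hne : (A j).Nonempty := by
        rw [Finset.nonempty_iff_ne_empty]
        intro h
        have := hw1 j
        rw [h, Finset.sum_empty] at this
        exact zero_ne_one this
      obtain ⟨a, ha⟩ := hne
      exact pow_nonneg ((hw0 j a ha).trans (hθ j hG a ha)) _
  have e3 : ∑ x ∈ B, ∏ i, (if i ∈ J then (fun _ => (1 : ℝ)) else w i)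
      (if i ∈ J then 0 else x i) ≤ 1 := by
    have e4 : ∑ x ∈ B, ∏ i, (if i ∈ J then (fun _ => (1 : ℝ)) else w i)
        (if i ∈ J then 0 else x i) =
        ∑ z ∈ B.image (fun (x : Fin n → ℕ) (i : Fin n) => if i ∈ J then 0 else x i),
          ∏ i, (if i ∈ J then (fun _ => (1 : ℝ)) else w i) (z i) :=
      (Finset.sum_image (f := fun z : Fin n → ℕ =>
        ∏ i, (if i ∈ J then (fun _ => (1 : ℝ)) else w i) (z i)) hinj).symm
    have e5 : ∑ z ∈ Fintype.piFinset (fun i => if i ∈ J then {0} else A i),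
        ∏ i, (if i ∈ J then (fun _ => (1 : ℝ)) else w i) (z i) = 1 := by
      rw [← Finset.prod_univ_sum]
      refine Finset.prod_eq_one fun i _ => ?_
      by_cases h : i ∈ J
      · rw [if_pos h, if_pos h, Finset.sum_singleton]
      · rw [if_neg h, if_neg h]
        exact hw1 i
    rw [e4]
    refine (Finset.sum_le_sum_of_subset_of_nonneg ?_ ?_).trans (le_of_eq e5)
    · intro z hz
      rw [Finset.mem_image] at hz
      obtain ⟨x, hx, rfl⟩ := hz
      rw [hB, Finset.mem_filter] at hx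
      rw [Fintype.mem_piFinset]
      intro i
      by_cases h : i ∈ J
      · simp [h]
      · simp only [if_neg h]
        exact Fintype.mem_piFinset.1 hx.1 i
    · intro z hz _
      rw [Fintype.mem_piFinset] at hz
      refine Finset.prod_nonneg fun i _ => ?_
      have hzi := hz i
      by_cases h : i ∈ J
      · rw [if_pos h]
        exact zero_le_one
      · rw [if_neg h]
        rw [if_neg h] at hzi
        exact hw0 i _ hzi
  refine (Finset.sum_le_sum e1).trans ?_
  rw [← Finset.mul_sum]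
  exact (mul_le_mul_of_nonneg_left e3 hθJ).trans (le_of_eq (mul_one _))

open Classical in
theorem card_small (ρ : ℕ) :
    ((Finset.univ : Finset (Finset (Fin n))).filter fun R => R.card ≤ ρ).card ≤ (n + 1) ^ ρ := by
  induction ρ with
  | zero =>
    rw [pow_zero]
    refine Finset.card_le_one.2 ?_
    intro a ha b hb
    rw [Finset.mem_filter] at ha hb
    rw [Finset.card_eq_zero.1 (Nat.le_zero.1 ha.2), Finset.card_eq_zero.1 (Nat.le_zero.1 hb.2)]
  | succ ρ ih =>
    have h1 : (Finset.univ : Finset (Finset (Fin n))).filter (fun R => R.card ≤ ρ + 1) ⊆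
        ((((Finset.univ : Finset (Finset (Fin n))).filter fun R => R.card ≤ ρ) ×ˢ
          (Finset.univ : Finset (Option (Fin n)))).image fun z =>
          z.1 ∪ (Finset.univ.filter fun i => z.2 = some i)) := by
      intro R hR
      rw [Finset.mem_filter] at hR
      rw [Finset.mem_image]
      rcases Finset.eq_empty_or_nonempty R with h | ⟨i, hi⟩
      · refine ⟨(∅, none), ?_, ?_⟩
        · rw [Finset.mem_product, Finset.mem_filter]
          exact ⟨⟨Finset.mem_univ _, by simp⟩, Finset.mem_univ _⟩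
        · rw [h]
          ext w
          simp
      · refine ⟨(R.erase i, some i), ?_, ?_⟩
        · rw [Finset.mem_product, Finset.mem_filter]
          refine ⟨⟨Finset.mem_univ _, ?_⟩, Finset.mem_univ _⟩
          rw [Finset.card_erase_of_mem hi]
          omega
        · ext w
          simp only [Finset.mem_union, Finset.mem_erase, Finset.mem_filter, Finset.mem_univ,
            true_and, Option.some.injEq]
          constructor
          · rintro (⟨-, h⟩ | rfl)
            · exact h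
            · exact hi
          · intro h
            by_cases hw : w = i
            · exact Or.inr hw.symm
            · exact Or.inl ⟨hw, h⟩
    refine (Finset.card_le_card h1).trans (Finset.card_image_le.trans ?_)
    rw [Finset.card_product, pow_succ]
    exact Nat.mul_le_mul ih (le_of_eq (by simp))

end Pool.Agent.H41.RC
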