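import Pool.Agent.H41.RC.WCnt

/-!
# Changes after the coins: the probability and the classes
-/

set_option autoImplicit false

namespace Pool.Agent.H41.RC

open Pool.Agent.H92.SR

variable {n : ℕ}

/-- the places where the lists differ -/
def dif (x y : Fin n → ℕ) : Finset (Fin n) := Finset.univ.filter fun i => y i ≠ x i

theorem mem_dif {x y : Fin n → ℕ} {i : Fin n} : i ∈ dif x y ↔ y i ≠ x i := by
  unfold dif
  rw [Finset.mem_filter]
  exact ⟨fun h => h.2, fun h => ⟨Finset.mem_univ _, h⟩⟩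

/-- some list `y ≤ N` at distance at most `ρ` from `x` is bad and has many new classes -/
def PE (A : Fin n → Finset ℕ) (N : Fin n → ℕ) (G : Finset (Fin n)) (t g ρ m : ℕ)
    (x : Fin n → ℕ) : Prop :=
  ∃ y : Fin n → ℕ, (∀ i, y i ≤ N i) ∧ (dif x y).card ≤ ρ ∧
    m + ρ * (2 * g * Nat.size n + 1) ≤ (Jg A G \ dif x y).card ∧
    badp ((∑ i, Nat.size (N i) + 2) * 2 ^ (t * (m + ρ * (2 * g * Nat.size n + 1)) + 2 * ρ + 1)) y

open Classical in
theorem cntE (A : Fin n → Finset ℕ) (N : Fin n → ℕ) (G : Finset (Fin n)) (t g : ℕ)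
    (hS : ∀ i ∈ G, (cls (A i)).card ≤ t ∧
      ∀ x ∈ A i, ∀ y ∈ A i, x ≠ y → ∀ c ∈ cls (A i), co c x ≠ co c y)
    (w : Fin n → ℕ → ℝ) (hw0 : ∀ i, ∀ a ∈ A i, 0 ≤ w i a) (hw1 : ∀ i, ∑ a ∈ A i, w i a = 1)
    {θ : ℝ} (hθ0 : 0 ≤ θ) (hθ1 : θ ≤ 1) (hθg : θ ^ g ≤ 1 / 2)
    (hθ : ∀ i ∈ G, ∀ a ∈ A i, w i a ≤ θ) (ρ m : ℕ) :
    ∑ x ∈ (Fintype.piFinset A).filter (fun x => PE A N G t g ρ m x), ∏ i, w i (x i) ≤ θ ^ m := by
  obtain ⟨c, hc⟩ := exists_new A G
  set m' : ℕ := m + ρ * (2 * g * Nat.size n + 1) with hm'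
  set p : ℕ := (∑ i, Nat.size (N i) + 2) * 2 ^ (t * m' + 2 * ρ + 1) with hp
  have hex : ∀ R : Finset (Fin n), ∃ J : Finset (Fin n), m' ≤ (Jg A G \ R).card →
      J ⊆ Jg A G \ R ∧ J.card = m' := by
    intro R
    by_cases h : m' ≤ (Jg A G \ R).card
    · obtain ⟨J, h1, h2⟩ := Finset.exists_subset_card_eq h
      exact ⟨J, fun _ => ⟨h1, h2⟩⟩
    · exact ⟨∅, fun h' => absurd h' h⟩
  choose JR hJR using hex
  set S : Finset (Finset (Fin n)) := Finset.univ.filter fun R => R.card ≤ ρ with hSdef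
  have hScard : S.card ≤ (n + 1) ^ ρ := card_small ρ
  have hW : ∀ x ∈ Fintype.piFinset A, 0 ≤ ∏ i, w i (x i) := fun x hx =>
    Finset.prod_nonneg fun i _ => hw0 i _ (Fintype.mem_piFinset.1 hx i)
  have hub := union_bound (Fintype.piFinset A)
    ((S.filter fun R => m' ≤ (Jg A G \ R).card) ×ˢ S) (fun x => PE A N G t g ρ m x)
    (fun b x => BR N c b.1 (JR b.1 \ b.2) p x) (fun x => ∏ i, w i (x i)) hW (by
      intro x _ hx
      obtain ⟨y, hyN, hyR, hyJ, hyb⟩ := hx
      obtain ⟨hJ1, hJ2⟩ := hJR _ hyJ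
      refine ⟨(dif x y, (JR (dif x y)).filter fun j => ∃ i ∈ dif x y, y i ≠ 0 ∧ sf (y i) = c j),
        ?_, ?_⟩
      · rw [Finset.mem_product]
        refine ⟨?_, ?_⟩
        · rw [Finset.mem_filter, hSdef, Finset.mem_filter]
          exact ⟨⟨Finset.mem_univ _, hyR⟩, hyJ⟩
        · rw [hSdef, Finset.mem_filter]
          refine ⟨Finset.mem_univ _, le_trans ?_ hyR⟩
          have h1 : Set.InjOn c ↑((JR (dif x y)).filter fun j =>
              ∃ i ∈ dif x y, y i ≠ 0 ∧ sf (y i) = c j) := by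
            refine (new_inj hc).mono fun j hj => ?_
            rw [Finset.mem_coe, Finset.mem_filter] at hj
            exact (Finset.mem_sdiff.1 (hJ1 hj.1)).1
          change ((JR (dif x y)).filter fun j =>
              ∃ i ∈ dif x y, y i ≠ 0 ∧ sf (y i) = c j).card ≤ (dif x y).card
          rw [← Finset.card_image_of_injOn h1]
          refine (Finset.card_le_card ?_).trans (Finset.card_image_le (s := dif x y)
            (f := fun i => sf (y i)))
          intro d hd
          rw [Finset.mem_image] at hd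
          obtain ⟨j, hj, rfl⟩ := hd
          rw [Finset.mem_filter] at hj
          obtain ⟨-, i, hi, -, h2⟩ := hj
          exact Finset.mem_image.2 ⟨i, hi, h2⟩
      · refine ⟨y, hyN, fun i hi => ?_, hyb, fun j hj i hi h0 h2 => ?_⟩
        · by_contra h3
          exact hi (mem_dif.2 h3)
        · rw [Finset.mem_sdiff] at hj
          exact hj.2 (Finset.mem_filter.2 ⟨hj.1, i, hi, h0, h2⟩))
  have hone : ∀ b ∈ (S.filter fun R => m' ≤ (Jg A G \ R).card) ×ˢ S,
      ∑ x ∈ (Fintype.piFinset A).filter (fun x => BR N c b.1 (JR b.1 \ b.2) p x),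
        ∏ i, w i (x i) ≤ θ ^ (m + ρ * (2 * g * Nat.size n)) := by
    intro b hb
    rw [Finset.mem_product, Finset.mem_filter, hSdef, Finset.mem_filter, Finset.mem_filter] at hb
    obtain ⟨hJ1, hJ2⟩ := hJR b.1 hb.1.2
    have h1 : (JR b.1 \ b.2).card ≤ m' :=
      (Finset.card_le_card Finset.sdiff_subset).trans (le_of_eq hJ2)
    have h2 : m' - ρ ≤ (JR b.1 \ b.2).card := by
      have := Finset.le_card_sdiff b.2 (JR b.1)
      have h3 := hb.2.2
      omega
    have h3 : m + ρ * (2 * g * Nat.size n) ≤ (JR b.1 \ b.2).card := by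
      refine le_trans ?_ h2
      have h4 : m' = m + ρ * (2 * g * Nat.size n) + ρ := by
        rw [hm']
        ring
      omega
    have h4 := cntW A N G t hS w hw0 hw1 hθ hc (J := JR b.1 \ b.2) (R := b.1)
      (fun j hj => (Finset.mem_sdiff.1 (hJ1 (Finset.mem_sdiff.1 hj).1)).1)
      (Finset.disjoint_left.2 fun j hj hjR =>
        (Finset.mem_sdiff.1 (hJ1 (Finset.mem_sdiff.1 hj).1)).2 hjR)
      (u := t * m' + 2 * ρ + 1) (by
        have h5 := Nat.mul_le_mul_left t h1
        have h6 := hb.1.1.2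
        omega)
    exact h4.trans (pow_le_pow_of_le_one hθ0 hθ1 h3)
  have htot : ∑ x ∈ (Fintype.piFinset A).filter (fun x => PE A N G t g ρ m x),
      ∏ i, w i (x i) ≤ ((n + 1 : ℕ) : ℝ) ^ (2 * ρ) * θ ^ (m + ρ * (2 * g * Nat.size n)) := by
    refine hub.trans ((Finset.sum_le_sum hone).trans ?_)
    rw [Finset.sum_const, nsmul_eq_mul, Finset.card_product]
    refine mul_le_mul_of_nonneg_right ?_ (pow_nonneg hθ0 _)
    have h1 : (S.filter fun R => m' ≤ (Jg A G \ R).card).card * S.card ≤ (n + 1) ^ (2 * ρ) := by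
      calc (S.filter fun R => m' ≤ (Jg A G \ R).card).card * S.card
          ≤ (n + 1) ^ ρ * (n + 1) ^ ρ :=
            Nat.mul_le_mul ((Finset.card_filter_le _ _).trans hScard) hScard
        _ = (n + 1) ^ (2 * ρ) := by
            rw [← pow_add]
            congr 1
            ring
    exact_mod_cast h1
  have hpw : ((n + 1 : ℕ) : ℝ) ^ (2 * ρ) * θ ^ (ρ * (2 * g * Nat.size n)) ≤ 1 := by
    have h1 : ((n + 1 : ℕ) : ℝ) ≤ 2 ^ Nat.size n := by
      exact_mod_cast (show n + 1 ≤ 2 ^ Nat.size n from Nat.lt_size_self n)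
    have h2 : ((n + 1 : ℕ) : ℝ) * θ ^ (g * Nat.size n) ≤ 1 := by
      have h3 : θ ^ (g * Nat.size n) ≤ (1 / 2) ^ Nat.size n := by
        rw [pow_mul]
        exact pow_le_pow_left₀ (pow_nonneg hθ0 _) hθg _
      calc ((n + 1 : ℕ) : ℝ) * θ ^ (g * Nat.size n)
          ≤ 2 ^ Nat.size n * (1 / 2) ^ Nat.size n :=
            mul_le_mul h1 h3 (pow_nonneg hθ0 _) (by positivity)
        _ = 1 := by
            rw [← mul_pow]
            norm_num
    have h4 : ((n + 1 : ℕ) : ℝ) ^ (2 * ρ) * θ ^ (ρ * (2 * g * Nat.size n)) =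
        (((n + 1 : ℕ) : ℝ) * θ ^ (g * Nat.size n)) ^ (2 * ρ) := by
      rw [mul_pow, ← pow_mul]
      congr 2
      ring
    rw [h4]
    exact pow_le_one₀ (by positivity) h2
  refine htot.trans ?_
  have h5 : ((n + 1 : ℕ) : ℝ) ^ (2 * ρ) * θ ^ (m + ρ * (2 * g * Nat.size n)) =
      θ ^ m * (((n + 1 : ℕ) : ℝ) ^ (2 * ρ) * θ ^ (ρ * (2 * g * Nat.size n))) := by
    rw [pow_add]
    ring
  rw [h5]
  exact (mul_le_mul_of_nonneg_left hpw (pow_nonneg hθ0 _)).trans (le_of_eq (mul_one _))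

/-- the classes of a list near the product -/
theorem few_near (A : Fin n → Finset ℕ) (G : Finset (Fin n)) (r t : ℕ)
    (hS : ∀ i ∈ G, (cls (A i)).card ≤ t) (hr : (Finset.univ \ G).card ≤ r) {x y : Fin n → ℕ}
    (hx : ∀ i, x i ∈ A i) : ∃ D : Finset ℕ, 1 ∈ D ∧ (∀ c ∈ D, Squarefree c) ∧
      (∀ i, y i ≠ 0 → sf (y i) ∈ D) ∧
      D.card ≤ t * (Jg A G \ dif x y).card + r + (t + 1) * (dif x y).card + 1 := by
  classical
  refine ⟨insert 1 ((Jg A G).biUnion (fun i => cls (A i)) ∪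
    ((Finset.univ \ G).image (fun i => sf (x i)) ∪
      (dif x y).image fun i => sf (y i))), Finset.mem_insert_self _ _, ?_, ?_, ?_⟩
  · intro d hd
    rw [Finset.mem_insert, Finset.mem_union, Finset.mem_union, Finset.mem_biUnion,
      Finset.mem_image, Finset.mem_image] at hd
    rcases hd with rfl | ⟨i, -, hi⟩ | ⟨i, -, rfl⟩ | ⟨i, -, rfl⟩
    · exact squarefree_one
    · obtain ⟨-, z, -, -, rfl⟩ := mem_cls.1 hi
      exact (sf_spec z).2
    · exact (sf_spec _).2
    · exact (sf_spec _).2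
  · intro i h0
    by_cases hi : i ∈ dif x y
    · exact Finset.mem_insert_of_mem (Finset.mem_union_right _ (Finset.mem_union_right _
        (Finset.mem_image.2 ⟨i, hi, rfl⟩)))
    · have hyx : y i = x i := by
        by_contra h
        exact hi (mem_dif.2 h)
      rw [hyx] at h0 ⊢
      by_cases h1 : sf (x i) = 1
      · rw [h1]
        exact Finset.mem_insert_self _ _
      · refine Finset.mem_insert_of_mem (Finset.mem_union.2 ?_)
        by_cases h : i ∈ G
        · left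
          obtain ⟨j, hj, hc⟩ := fewg A G h (mem_cls.2 ⟨h1, x i, hx i, h0, rfl⟩)
          exact Finset.mem_biUnion.2 ⟨j, hj, hc⟩
        · right
          exact Finset.mem_union_left _ (Finset.mem_image.2
            ⟨i, Finset.mem_sdiff.2 ⟨Finset.mem_univ _, h⟩, rfl⟩)
  · refine (Finset.card_insert_le _ _).trans (Nat.succ_le_succ ?_)
    refine (Finset.card_union_le _ _).trans ?_
    have h1 : ((Jg A G).biUnion fun i => cls (A i)).card ≤ (Jg A G).card * t :=
      Finset.card_biUnion_le_card_mul _ _ t fun i hi => hS i (mem_Jg.1 hi).1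
    have h2 : ((Finset.univ \ G).image (fun i => sf (x i)) ∪
        (dif x y).image fun i => sf (y i)).card ≤ r + (dif x y).card :=
      (Finset.card_union_le _ _).trans
        (add_le_add (Finset.card_image_le.trans hr) Finset.card_image_le)
    have h3 : (Jg A G).card ≤ (Jg A G \ dif x y).card + (dif x y).card := by
      have := Finset.le_card_sdiff (dif x y) (Jg A G)
      omega
    have h4 := Nat.mul_le_mul_left t h3
    rw [mul_comm] at h1
    have h5 : (t + 1) * (dif x y).card = t * (dif x y).card + (dif x y).card := by ring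
    rw [mul_add] at h4
    omega

end Pool.Agent.H41.RC
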