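import Pool.Agent.H41.RC.Tms

/-!
# The number of bits for lists with few square classes
-/

set_option autoImplicit false

namespace Pool.Agent.H41.RC

open Pool.Agent.H92.SR

theorem neg_logb_le {g : ℝ} {p : ℕ} (h : 1 ≤ g * 2 ^ p) : -Real.logb 2 g ≤ p := by
  have h2 : (0 : ℝ) < 2 ^ p := by positivity
  have hg : 0 < g := by
    by_contra hno
    have := mul_nonpos_of_nonpos_of_nonneg (not_lt.1 hno) h2.le
    linarith
  have h3 : 0 ≤ Real.logb 2 (g * 2 ^ p) := Real.logb_nonneg one_lt_two h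
  rw [Real.logb_mul hg.ne' h2.ne', Real.logb_pow, Real.logb_self_eq_one one_lt_two] at h3
  linarith

theorem neg_logb_nonpos {g : ℝ} (h : 1 ≤ g) : -Real.logb 2 g ≤ 0 := by
  have := Real.logb_nonneg one_lt_two h
  linarith

theorem few_log {n : ℕ} {N x : Fin n → ℕ} (h : ∀ i, x i ≤ N i) {D : Finset ℕ} (h1 : 1 ∈ D)
    (hD : ∀ c ∈ D, Squarefree c) (hx : ∀ i, x i ≠ 0 → sf (x i) ∈ D) (k : ℕ) :
    -Real.logb 2 |∑ i, √(x i : ℝ) - k| ≤ (((∑ i, Nat.size (N i) + 2) * 2 ^ D.card : ℕ) : ℝ) := by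
  have hnn : (0 : ℝ) ≤ (((∑ i, Nat.size (N i) + 2) * 2 ^ D.card : ℕ) : ℝ) := Nat.cast_nonneg _
  by_cases hsq : ∀ i, IsSquare (x i)
  · choose y hy using hsq
    have h2 : ∀ i, √(x i : ℝ) = y i := by
      intro i
      rw [hy i]
      push_cast
      exact Real.sqrt_mul_self (Nat.cast_nonneg _)
    simp only [h2]
    have h3 : ∑ i, (y i : ℝ) - k = ((∑ i, (y i : ℤ) - k : ℤ) : ℝ) := by push_cast; rfl
    rw [h3, ← Int.cast_abs]
    rcases eq_or_ne (∑ i, (y i : ℤ) - k) 0 with h4 | h4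
    · rw [h4]
      simp only [abs_zero, Int.cast_zero, Real.logb_zero, neg_zero]
      exact hnn
    · refine (neg_logb_nonpos ?_).trans hnn
      exact_mod_cast Int.one_le_abs h4
  · by_cases hg : 1 ≤ |∑ i, √(x i : ℝ) - k|
    · exact (neg_logb_nonpos hg).trans hnn
    · push Not at hsq hg
      obtain ⟨i, hna⟩ := hsq
      have h0 : x i ≠ 0 := fun h0 => hna ⟨0, by rw [h0]⟩
      have hs1 : sf (x i) ≠ 1 := by
        intro h2
        apply hna
        have h3 := (sf_spec (x i)).1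
        rw [h2, mul_one] at h3
        exact ⟨rt (x i), by rw [← pow_two, h3]⟩
      have hsum : (∑ j, (co (sf (x i)) (x j) - co (sf (x i)) ((fun _ : Fin n => 0) j))) -
          (if sf (x i) = 1 then (k : ℤ) else 0) ≠ 0 := by
        rw [if_neg hs1, sub_zero]
        have h2 : 0 < ∑ j, (co (sf (x i)) (x j) - co (sf (x i)) ((fun _ : Fin n => 0) j)) := by
          refine Finset.sum_pos' (fun j _ => ?_) ⟨i, Finset.mem_univ _, ?_⟩
          · rw [co_zero, sub_zero]
            exact co_nonneg _ _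
          · rw [co_zero, sub_zero]
            unfold co
            rw [if_pos rfl]
            exact_mod_cast rt_pos h0
        exact h2.ne'
      have hb : ∑ j, (√(x j : ℝ) + √(((fun _ : Fin n => 0) j : ℕ) : ℝ)) + |((k : ℤ) : ℝ)| ≤
          2 ^ (∑ i, Nat.size (N i) + 2) := by
        have h2 : ∑ j, (√(x j : ℝ) + √(((fun _ : Fin n => 0) j : ℕ) : ℝ)) = ∑ j, √(x j : ℝ) := by
          refine Finset.sum_congr rfl fun j _ => ?_
          simp
        rw [h2]
        have h3 := sqsum' h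
        have h4 : |((k : ℤ) : ℝ)| ≤ 2 ^ (∑ i, Nat.size (N i)) + 1 := by
          rw [Int.cast_natCast, abs_of_nonneg (Nat.cast_nonneg k)]
          rw [abs_lt] at hg
          linarith
        have h5 : (1 : ℝ) ≤ 2 ^ (∑ i, Nat.size (N i)) := one_le_pow₀ (by norm_num)
        have h6 : (2 : ℝ) ^ (∑ i, Nat.size (N i) + 2) = 4 * 2 ^ (∑ i, Nat.size (N i)) := by
          rw [pow_add]
          ring
        rw [h6]
        linarith
      have key := sepf x (fun _ : Fin n => 0) (k : ℤ) Finset.univ h1 hD (fun i _ => hx i)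
        (fun i _ h => absurd rfl h) ⟨_, hx i h0, hsum⟩ (one_le_pow₀ (by norm_num)) hb
      have hval : ∑ j, (√(x j : ℝ) - √(((fun _ : Fin n => 0) j : ℕ) : ℝ)) - ((k : ℤ) : ℝ) =
          ∑ j, √(x j : ℝ) - k := by
        congr 1
        refine Finset.sum_congr rfl fun j _ => ?_
        simp
      rw [hval, ← pow_mul] at key
      refine (neg_logb_le key).trans ?_
      exact_mod_cast Nat.mul_le_mul_left _ (Nat.sub_le _ _)

end Pool.Agent.H41.RC
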