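import Pool.Agent.H41.RC.WE
import Pool.Agent.H41.RC.WLog
import Pool.Agent.H8.SS.Ge

/-!
# The sum of square roots problem for product distributions
-/

set_option autoImplicit false

namespace Pool.Agent.H41.RC

open Pool.Agent.H92.SR Pool.Agent.H92.SR.Tr Pool.Agent.H8.SS

open Classical in
/-- `tms` for `≥` and integer thresholds -/
theorem tmz : ∃ (c : Prog) (T : List ℕ → ℤ → ℕ) (q : Polynomial ℕ) (Λ : ℕ), 1 ≤ Λ ∧
    (∀ (L : List ℕ) (k : ℤ),
      Eval c (encS L k) (bit (decide ((k : ℝ) ≤ (L.map fun a : ℕ => √(a : ℝ)).sum))) (T L k)) ∧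
    (∀ (n : ℕ) (N x : Fin n → ℕ), (∀ i, x i ≤ N i) → ∀ m : ℕ,
      ¬ bad (2 * (∑ i, Nat.size (N i) + 2)) m x → ∀ k : ℤ,
      T (List.ofFn x) k ≤ q.eval (n + ∑ i, Nat.size (N i) + Nat.size k.natAbs) * Λ ^ m) ∧
    ∀ (n : ℕ) (N x : Fin n → ℕ), (∀ i, x i ≤ N i) → ∀ D : Finset ℕ, 1 ∈ D →
      (∀ c ∈ D, Squarefree c) → (∀ i, x i ≠ 0 → sf (x i) ∈ D) → ∀ m : ℕ, D.card ≤ 2 * m →
      ∀ k : ℤ, T (List.ofFn x) k ≤
        q.eval (n + ∑ i, Nat.size (N i) + Nat.size k.natAbs) * Λ ^ m := by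
  obtain ⟨c, T, q, Λ, hΛ, hE, h1, h2⟩ := tms
  obtain ⟨c', q', h'⟩ := ge0 c T hE
  choose T' hT' hE' using h'
  have hb : ∀ (n : ℕ) (N x : Fin n → ℕ), (∀ i, x i ≤ N i) → ∀ (m : ℕ) (k : ℤ),
      T (List.ofFn x) k.natAbs ≤
        q.eval (n + ∑ i, Nat.size (N i) + Nat.size k.natAbs) * Λ ^ m →
      T' (List.ofFn x) k ≤
        (q + q').eval (n + ∑ i, Nat.size (N i) + Nat.size k.natAbs) * Λ ^ m := by
    intro n N x hN m k h
    have h3 := hT' (List.ofFn x) k
    have h4 : q'.eval (szs (List.ofFn x) k) ≤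
        q'.eval (n + ∑ i, Nat.size (N i) + Nat.size k.natAbs) := poly_mono q' (bsz_ofFn hN _)
    have h5 : q'.eval (n + ∑ i, Nat.size (N i) + Nat.size k.natAbs) ≤
        q'.eval (n + ∑ i, Nat.size (N i) + Nat.size k.natAbs) * Λ ^ m :=
      Nat.le_mul_of_pos_right _ (pow_pos hΛ m)
    rw [Polynomial.eval_add, add_mul]
    omega
  exact ⟨c', T', q + q', Λ, hΛ, hE', fun n N x hN m hm k => hb n N x hN m k (h1 n N x hN m hm _),
    fun n N x hN D h0 hD hx m hm k => hb n N x hN m k (h2 n N x hN D h0 hD hx m hm _)⟩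

/-- the geometric sum for the mean time -/
theorem geo {L θ : ℝ} (hL : 1 ≤ L) (hθ0 : 0 ≤ θ) (h : 2 * L * θ ≤ 1) (n : ℕ) :
    1 + ∑ m ∈ Finset.range n, L ^ (m + 1) * θ ^ m + L ^ n * θ ^ n ≤ 1 + 3 * L := by
  have h0 : 0 ≤ L * θ := mul_nonneg (by linarith) hθ0
  have h1 : L * θ ≤ 1 / 2 := by linarith
  have h2 : ∀ m : ℕ, ∑ m ∈ Finset.range m, L ^ (m + 1) * θ ^ m ≤ L * (2 - 2 * (1 / 2) ^ m) := by
    intro m
    induction m with
    | zero => simp
    | succ m ih =>
      rw [Finset.sum_range_succ]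
      have h3 : L ^ (m + 1) * θ ^ m = L * (L * θ) ^ m := by
        rw [mul_pow, pow_succ]
        ring
      have h4 : (L * θ) ^ m ≤ (1 / 2) ^ m := pow_le_pow_left₀ h0 h1 m
      have h5 : L * (L * θ) ^ m ≤ L * (1 / 2) ^ m := mul_le_mul_of_nonneg_left h4 (by linarith)
      rw [h3]
      have e : L * (2 - 2 * (1 / 2) ^ (m + 1)) = L * (2 - 2 * (1 / 2) ^ m) + L * (1 / 2) ^ m := by
        rw [pow_succ]
        ring
      rw [e]
      linarith
  have h3 := h2 n
  have h4 : (0 : ℝ) ≤ L * (2 * (1 / 2) ^ n) := by positivity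
  have h5 : L ^ n * θ ^ n ≤ 1 := by
    rw [← mul_pow]
    exact pow_le_one₀ h0 (by linarith)
  have h6 : L * (2 - 2 * (1 / 2) ^ n) = 2 * L - L * (2 * (1 / 2) ^ n) := by ring
  rw [h6] at h3
  linarith

/-- the sum for the moments of the number of bits -/
theorem geo3 {L θ : ℝ} (hL : 1 ≤ L) (hθ0 : 0 ≤ θ) (h : L * θ ≤ 1) (n : ℕ) :
    1 + ∑ m ∈ Finset.range n, L ^ (m + 1) * θ ^ m + L ^ n * θ ^ n ≤ L * (n + 2) := by
  have h0 : 0 ≤ L * θ := mul_nonneg (by linarith) hθ0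
  have h1 : ∀ m ∈ Finset.range n, L ^ (m + 1) * θ ^ m ≤ L := by
    intro m _
    have h3 : L ^ (m + 1) * θ ^ m = L * (L * θ) ^ m := by
      rw [mul_pow, pow_succ]
      ring
    have h4 : (L * θ) ^ m ≤ 1 := pow_le_one₀ h0 h
    rw [h3]
    exact (mul_le_mul_of_nonneg_left h4 (by linarith)).trans (le_of_eq (mul_one _))
  have h2 := Finset.sum_le_sum h1
  rw [Finset.sum_const, Finset.card_range, nsmul_eq_mul] at h2
  have h5 : L ^ n * θ ^ n ≤ 1 := by
    rw [← mul_pow]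
    exact pow_le_one₀ h0 h
  linarith

open Classical in
theorem mainW : ∃ (c : Prog) (T : List ℕ → ℤ → ℕ) (q : Polynomial ℕ) (Λ : ℕ), 1 ≤ Λ ∧
    (∀ (L : List ℕ) (k : ℤ),
      Eval c (encS L k) (bit (decide ((k : ℝ) ≤ (L.map fun a : ℕ => √(a : ℝ)).sum))) (T L k)) ∧
    ∀ (n : ℕ) (N : Fin n → ℕ) (A : Fin n → Finset ℕ) (w : Fin n → ℕ → ℝ),
      (∀ i, ∀ a ∈ A i, a ≤ N i ∧ 0 ≤ w i a) → (∀ i, ∑ a ∈ A i, w i a = 1) →
      ∀ (θ : ℝ) (g r : ℕ), 0 < θ → θ ^ g ≤ 1 / 2 →
        (Finset.univ.filter fun i => ∃ a ∈ A i, θ < w i a).card ≤ r →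
        (1 / 2 ≤ θ → ∀ ρ m : ℕ,
          ∑ x ∈ (Fintype.piFinset A).filter (fun x => ∃ (y : Fin n → ℕ) (k : ℤ),
            (∀ i, y i ≤ N i) ∧ (Finset.univ.filter fun i => y i ≠ x i).card ≤ ρ ∧
            q.eval (n + ∑ i, Nat.size (N i) + Nat.size k.natAbs) *
              Λ ^ (m + r + ρ * (2 * g * Nat.size n + 3)) < T (List.ofFn y) k),
            ∏ i, w i (x i) ≤ θ ^ m) ∧
        ((∀ i, ∀ x ∈ A i, ∀ y ∈ A i, IsSquare (x * y)) →
          (∀ ρ m : ℕ,
            ∑ x ∈ (Fintype.piFinset A).filter (fun x => ∃ (y : Fin n → ℕ) (k : ℤ),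
              (∀ i, y i ≤ N i) ∧ (Finset.univ.filter fun i => y i ≠ x i).card ≤ ρ ∧
              q.eval (n + ∑ i, Nat.size (N i) + Nat.size k.natAbs) *
                Λ ^ (m + r + ρ * (2 * g * Nat.size n + 3)) < T (List.ofFn y) k),
              ∏ i, w i (x i) ≤ θ ^ m) ∧
          ∀ (ρ : ℕ) (y : (Fin n → ℕ) → Fin n → ℕ) (κ : (Fin n → ℕ) → ℤ),
            (∀ x ∈ Fintype.piFinset A, (∀ i, y x i ≤ N i) ∧
              (Finset.univ.filter fun i => y x i ≠ x i).card ≤ ρ) →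
            (2 * Λ * θ ≤ 1 → ∀ B : ℕ,
              (∀ x ∈ Fintype.piFinset A, Nat.size (κ x).natAbs ≤ B) →
              ∑ x ∈ Fintype.piFinset A, (∏ i, w i (x i)) * (T (List.ofFn (y x)) (κ x) : ℝ) ≤
                ((q.eval (n + ∑ i, Nat.size (N i) + B) *
                  Λ ^ (r + ρ * (2 * g * Nat.size n + 3)) : ℕ) : ℝ)) ∧
            ∀ a : ℝ, 0 ≤ a → 2 ^ a * θ ≤ 1 →
              ∑ x ∈ Fintype.piFinset A, (∏ i, w i (x i)) *
                max 0 (-Real.logb 2 |∑ i, √(y x i : ℝ) - κ x|) ^ a ≤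
                (n + 2) * (8 * (∑ i, Nat.size (N i) + 2 : ℕ) *
                  2 ^ (r + ρ * (2 * g * Nat.size n + 3))) ^ a) := by
  obtain ⟨c, T, q, Λ, hΛ, hE, h1, h2⟩ := tmz
  have hΛ0 : 0 < Λ := hΛ
  have hΛr : (1 : ℝ) ≤ Λ := by exact_mod_cast hΛ
  set q' : Polynomial ℕ := q * Polynomial.C (Λ * (1 + 3 * Λ)) with hq'
  have hev : ∀ y : ℕ, q'.eval y = q.eval y * (Λ * (1 + 3 * Λ)) := by
    intro y
    rw [hq', Polynomial.eval_mul, Polynomial.eval_C]
  have hle : ∀ y : ℕ, q.eval y ≤ q'.eval y := by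
    intro y
    rw [hev]
    exact Nat.le_mul_of_pos_right _ (Nat.mul_pos hΛ0 (by omega))
  have hpw : ∀ a x y : ℕ, a * Λ ^ x * Λ ^ y = a * Λ ^ (x + y) := fun a x y => by
    rw [mul_assoc, ← pow_add]
  -- the time of the lists near a good list
  have hgood : ∀ (n : ℕ) (N : Fin n → ℕ) (A : Fin n → Finset ℕ) (G : Finset (Fin n))
      (g r ρ m : ℕ), (∀ i ∈ G, Sharp (A i)) → (Finset.univ \ G).card ≤ r →
      ∀ x y : Fin n → ℕ, (∀ i, x i ∈ A i) → (∀ i, y i ≤ N i) → (dif x y).card ≤ ρ →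
      ¬ PE A N G 2 g ρ m x → ∀ k : ℤ, T (List.ofFn y) k ≤
        q.eval (n + ∑ i, Nat.size (N i) + Nat.size k.natAbs) *
          Λ ^ (m + r + ρ * (2 * g * Nat.size n + 3)) := by
    intro n N A G g r ρ m hS hr x y hx hy hd hne k
    have e1 : m + r + ρ * (2 * g * Nat.size n + 3) =
        m + ρ * (2 * g * Nat.size n + 1) + ρ + (r + ρ) := by ring
    rcases Nat.lt_or_ge (Jg A G \ dif x y).card (m + ρ * (2 * g * Nat.size n + 1)) with hm | hm
    · obtain ⟨D, hD1, hD2, hD3, hD4⟩ := few_near (y := y) A G r 2 (fun i hi => (hS i hi).1) hr hx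
      exact h2 n N y hy D hD1 hD2 hD3 _ (by rw [e1]; omega) k
    · have hb : ¬ bad (2 * (∑ i, Nat.size (N i) + 2))
          (m + ρ * (2 * g * Nat.size n + 1) + ρ) y := by
        intro hb
        apply hne
        refine ⟨y, hy, hd, hm, ?_⟩
        unfold bad at hb
        have e2 : (∑ i, Nat.size (N i) + 2) *
            2 ^ (2 * (m + ρ * (2 * g * Nat.size n + 1)) + 2 * ρ + 1) =
            2 * (∑ i, Nat.size (N i) + 2) * 4 ^ (m + ρ * (2 * g * Nat.size n + 1) + ρ) := by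
          rw [pow_succ, ← mul_add, pow_mul]
          norm_num
          ring
        rw [e2]
        exact hb
      refine (h1 n N y hy _ hb k).trans (Nat.mul_le_mul_left _ (Nat.pow_le_pow_right hΛ0 ?_))
      rw [e1]
      exact Nat.le_add_right _ _
  -- the tail for sharp sets
  have htail : ∀ (n : ℕ) (N : Fin n → ℕ) (A : Fin n → Finset ℕ) (w : Fin n → ℕ → ℝ)
      (G : Finset (Fin n)) (θ : ℝ) (g r ρ m : ℕ), (∀ i, ∀ a ∈ A i, 0 ≤ w i a) →
      (∀ i, ∑ a ∈ A i, w i a = 1) → 0 ≤ θ → θ ≤ 1 → θ ^ g ≤ 1 / 2 →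
      (∀ i ∈ G, ∀ a ∈ A i, w i a ≤ θ) → (∀ i ∈ G, Sharp (A i)) →
      (Finset.univ \ G).card ≤ r →
      ∑ x ∈ (Fintype.piFinset A).filter (fun x => ∃ (y : Fin n → ℕ) (k : ℤ),
        (∀ i, y i ≤ N i) ∧ (Finset.univ.filter fun i => y i ≠ x i).card ≤ ρ ∧
        q'.eval (n + ∑ i, Nat.size (N i) + Nat.size k.natAbs) *
          Λ ^ (m + r + ρ * (2 * g * Nat.size n + 3)) < T (List.ofFn y) k),
        ∏ i, w i (x i) ≤ θ ^ m := by
    intro n N A w G θ g r ρ m hw0 hw1 hθ0 hθ1 hθg hθ hS hr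
    refine le_trans (Finset.sum_le_sum_of_subset_of_nonneg ?_ ?_)
      (cntE A N G 2 g hS w hw0 hw1 hθ0 hθ1 hθg hθ ρ m)
    · intro x hx
      rw [Finset.mem_filter] at hx ⊢
      refine ⟨hx.1, ?_⟩
      by_contra hb
      obtain ⟨y, k, hy, hd, hk⟩ := hx.2
      have h3 := hgood n N A G g r ρ m hS hr x y (Fintype.mem_piFinset.1 hx.1) hy hd hb k
      have h4 := Nat.mul_le_mul_right (Λ ^ (m + r + ρ * (2 * g * Nat.size n + 3)))
        (hle (n + ∑ i, Nat.size (N i) + Nat.size k.natAbs))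
      omega
    · intro x hx _
      exact Finset.prod_nonneg fun i _ =>
        hw0 i _ (Fintype.mem_piFinset.1 (Finset.mem_filter.1 hx).1 i)
  refine ⟨c, T, q', Λ, hΛ, hE, ?_⟩
  intro n N A w hNw hw1 θ g r hθpos hθg hr
  have hθ0 : 0 ≤ θ := hθpos.le
  have hθlt : θ < 1 := by
    by_contra h
    have := one_le_pow₀ (not_lt.1 h) (n := g)
    linarith
  have hw0 : ∀ i, ∀ a ∈ A i, 0 ≤ w i a := fun i a ha => (hNw i a ha).2
  set G : Finset (Fin n) := Finset.univ.filter fun i => ∀ a ∈ A i, w i a ≤ θ with hG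
  have hθG : ∀ i ∈ G, ∀ a ∈ A i, w i a ≤ θ := fun i hi => by
    rw [hG, Finset.mem_filter] at hi
    exact hi.2
  have hGr : (Finset.univ \ G).card ≤ r := by
    refine (Finset.card_le_card ?_).trans hr
    intro i hi
    rw [Finset.mem_sdiff, hG, Finset.mem_filter, not_and] at hi
    have h3 := hi.2 (Finset.mem_univ _)
    push Not at h3
    exact Finset.mem_filter.2 ⟨Finset.mem_univ _, h3⟩
  refine ⟨?_, ?_⟩
  · intro hθ2 ρ m
    obtain ⟨A', w', a1, a2, a3, a4, a5, a6⟩ := maxp A w G hw0 hw1 hθ2 hθlt hθG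
      (fun x => ∃ (y : Fin n → ℕ) (k : ℤ),
        (∀ i, y i ≤ N i) ∧ (Finset.univ.filter fun i => y i ≠ x i).card ≤ ρ ∧
        q'.eval (n + ∑ i, Nat.size (N i) + Nat.size k.natAbs) *
          Λ ^ (m + r + ρ * (2 * g * Nat.size n + 3)) < T (List.ofFn y) k) Finset.univ
    refine a6.trans ?_
    exact htail n N A' w' G θ g r ρ m a3 a4 hθ0 hθlt.le hθg a5
      (fun i _ => sharp_pair (a2 i (Finset.mem_univ _))) hGr
  · intro hsq
    refine ⟨fun ρ m => htail n N A w G θ g r ρ m hw0 hw1 hθ0 hθlt.le hθg hθG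
      (fun i _ => sharp_sq (hsq i)) hGr, ?_⟩
    intro ρ y κ hy
    have hcls1 : ∀ i, (cls (A i)).card ≤ 1 := by
      intro i
      refine Finset.card_le_one.2 ?_
      intro a ha b hb
      obtain ⟨-, x, hx, hx0, rfl⟩ := mem_cls.1 ha
      obtain ⟨-, y, hy, hy0, rfl⟩ := mem_cls.1 hb
      exact sf_eq hx0 hy0 (hsq i x hx y hy)
    have hJn : ∀ (R : Finset (Fin n)), (Jg A G \ R).card ≤ n := fun R =>
      (Finset.card_le_univ _).trans (le_of_eq (Fintype.card_fin n))
    have hW : ∀ x ∈ Fintype.piFinset A, 0 ≤ ∏ i, w i (x i) := fun x hx =>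
      Finset.prod_nonneg fun i _ => hw0 i _ (Fintype.mem_piFinset.1 hx i)
    have hW1 : ∑ x ∈ Fintype.piFinset A, ∏ i, w i (x i) = 1 := by
      rw [← Finset.prod_univ_sum]
      exact Finset.prod_eq_one fun i _ => hw1 i
    refine ⟨?_, ?_⟩
    · intro hΛθ B hκ
      have hS : ∀ i ∈ G, Sharp (A i) := fun i _ => sharp_sq (hsq i)
      have hQ : ∀ x ∈ Fintype.piFinset A,
          q.eval (n + ∑ i, Nat.size (N i) + Nat.size (κ x).natAbs) ≤
          q.eval (n + ∑ i, Nat.size (N i) + B) := fun x hx =>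
        poly_mono q (Nat.add_le_add_left (hκ x hx) _)
      have h3 := avgW (Fintype.piFinset A) (fun x => ∏ i, w i (x i))
        (fun x => (T (List.ofFn (y x)) (κ x) : ℝ))
        (fun m x => PE A N G 2 g ρ m x)
        (Q := ((q.eval (n + ∑ i, Nat.size (N i) + B) *
          Λ ^ (r + ρ * (2 * g * Nat.size n + 3) + 1) : ℕ) : ℝ))
        (L := (Λ : ℝ)) (M := n) (p := fun m => θ ^ m) (Nat.cast_nonneg _) hΛr hW hW1 ?_ ?_ ?_
      · refine h3.trans ((mul_le_mul_of_nonneg_left (geo hΛr hθ0 hΛθ n)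
          (Nat.cast_nonneg _)).trans (le_of_eq ?_))
        rw [hev]
        push_cast
        ring
      · intro x hx m _ hb
        obtain ⟨hy1, hy2⟩ := hy x hx
        have h4 := hgood n N A G g r ρ m hS hGr x (y x) (Fintype.mem_piFinset.1 hx) hy1 hy2 hb
          (κ x)
        have h5 : T (List.ofFn (y x)) (κ x) ≤ q.eval (n + ∑ i, Nat.size (N i) + B) *
            Λ ^ (r + ρ * (2 * g * Nat.size n + 3) + 1) * Λ ^ m := by
          refine h4.trans ?_
          rw [hpw]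
          exact Nat.mul_le_mul (hQ x hx) (Nat.pow_le_pow_right hΛ0 (by omega))
        exact_mod_cast h5
      · intro x hx
        obtain ⟨hy1, hy2⟩ := hy x hx
        obtain ⟨D, hD1, hD2, hD3, hD4⟩ :=
          few_near (y := y x) A G r 2 (fun i hi => (hS i hi).1) hGr (Fintype.mem_piFinset.1 hx)
        have h5 := hJn (dif x (y x))
        have h6 : (dif x (y x)).card ≤ ρ := hy2
        have h7 : ρ * (2 * g * Nat.size n + 3) = ρ * (2 * g * Nat.size n) + 3 * ρ := by ring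
        have h8 : T (List.ofFn (y x)) (κ x) ≤ q.eval (n + ∑ i, Nat.size (N i) + B) *
            Λ ^ (r + ρ * (2 * g * Nat.size n + 3) + 1) * Λ ^ n := by
          refine (h2 n N (y x) hy1 D hD1 hD2 hD3 (n + r + 3 * ρ + 1) (by omega) (κ x)).trans ?_
          rw [hpw]
          exact Nat.mul_le_mul (hQ x hx) (Nat.pow_le_pow_right hΛ0 (by omega))
        exact_mod_cast h8
      · intro m _
        exact cntE A N G 2 g hS w hw0 hw1 hθ0 hθlt.le hθg hθG ρ m
    · intro a ha h2θ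
      have hS : ∀ i ∈ G, (cls (A i)).card ≤ 1 ∧
          ∀ x ∈ A i, ∀ y ∈ A i, x ≠ y → ∀ c ∈ cls (A i), co c x ≠ co c y :=
        fun i _ => ⟨hcls1 i, (sharp_sq (hsq i)).2⟩
      set s : ℕ := ∑ i, Nat.size (N i) + 2 with hs
      set v : ℕ := ρ * (2 * g * Nat.size n + 3) with hv
      have hs2 : 2 ≤ s := by omega
      have hs2' : (2 : ℝ) ≤ s := by exact_mod_cast hs2
      have hneg : ∀ x : Fin n → ℕ, κ x < 0 →
          -Real.logb 2 |∑ i, √(y x i : ℝ) - κ x| ≤ 0 := by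
        intro x hx
        apply neg_logb_nonpos
        have h1 : (κ x : ℝ) ≤ -1 := by exact_mod_cast (by omega : κ x ≤ -1)
        have h2 : 0 ≤ ∑ i, √(y x i : ℝ) := Finset.sum_nonneg fun i _ => Real.sqrt_nonneg _
        rw [abs_of_nonneg (by linarith)]
        linarith
      have hpos : ∀ x : Fin n → ℕ, 0 ≤ κ x → (κ x : ℝ) = ((κ x).toNat : ℝ) := by
        intro x hx
        have h1 : ((κ x).toNat : ℤ) = κ x := Int.toNat_of_nonneg hx
        rw [← Int.cast_natCast, h1]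
      -- few classes
      have hfew : ∀ x ∈ Fintype.piFinset A, ∀ e : ℕ,
          (Jg A G \ dif x (y x)).card + r + 2 * ρ + 1 ≤ e →
          max 0 (-Real.logb 2 |∑ i, √(y x i : ℝ) - κ x|) ≤ (s : ℝ) * 2 ^ e := by
        intro x hx e he
        obtain ⟨hy1, hy2⟩ := hy x hx
        rw [Fintype.mem_piFinset] at hx
        have hnn : (0 : ℝ) ≤ (s : ℝ) * 2 ^ e := by positivity
        refine max_le hnn ?_
        rcases lt_or_ge (κ x) 0 with hk | hk
        · exact (hneg x hk).trans hnn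
        · rw [hpos x hk]
          obtain ⟨D, hD1, hD2, hD3, hD4⟩ :=
            few_near (y := y x) A G r 1 (fun i hi => (hS i hi).1) hGr hx
          have h6 : (dif x (y x)).card ≤ ρ := hy2
          refine (few_log (N := N) hy1 hD1 hD2 hD3 _).trans ?_
          rw [← hs]
          push_cast
          refine mul_le_mul_of_nonneg_left (pow_le_pow_right₀ (by norm_num) ?_) (by linarith)
          omega
      have h2a : (1 : ℝ) ≤ 2 ^ a := Real.one_le_rpow one_le_two ha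
      have hmono : ∀ (f : ℝ) (m : ℕ), 0 ≤ f → f ≤ 4 * s * 2 ^ (r + v) * 2 ^ m →
          f ^ a ≤ (4 * s * 2 ^ (r + v)) ^ a * ((2 : ℝ) ^ a) ^ m := by
        intro f m hf h
        have e1 : ((2 : ℝ) ^ a) ^ m = ((2 : ℝ) ^ m) ^ a := Real.rpow_pow_comm (by norm_num) a m
        rw [e1, ← Real.mul_rpow (by positivity) (by positivity)]
        exact Real.rpow_le_rpow hf h ha
      have h := avgW (Fintype.piFinset A) (fun x => ∏ i, w i (x i))
        (fun x => max 0 (-Real.logb 2 |∑ i, √(y x i : ℝ) - κ x|) ^ a)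
        (fun m x => PE A N G 1 g ρ m x) (Q := (4 * s * 2 ^ (r + v)) ^ a) (L := 2 ^ a)
        (M := n) (p := fun m => θ ^ m) (by positivity) h2a hW hW1 ?_ ?_ ?_
      · refine h.trans ((mul_le_mul_of_nonneg_left (geo3 h2a hθ0 h2θ n) (by positivity)).trans
          (le_of_eq ?_))
        have e1 : (8 * (s : ℝ) * 2 ^ (r + v)) ^ a =
            (4 * (s : ℝ) * 2 ^ (r + v)) ^ a * (2 : ℝ) ^ a := by
          rw [← Real.mul_rpow (by positivity) (by positivity)]
          congr 1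
          ring
        rw [e1]
        ring
      · intro x hx m _ hb
        refine hmono _ m (le_max_left _ _) ?_
        have hRnn : (0 : ℝ) ≤ 4 * s * 2 ^ (r + v) * 2 ^ m := by positivity
        rcases Nat.lt_or_ge (Jg A G \ dif x (y x)).card (m + ρ * (2 * g * Nat.size n + 1))
          with hm | hm
        · refine (hfew x hx (m + r + v) ?_).trans ?_
          · have e1 : v = ρ * (2 * g * Nat.size n + 1) + 2 * ρ := by
              rw [hv]
              ring
            omega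
          · have e2 : (2 : ℝ) ^ (m + r + v) = 2 ^ (r + v) * 2 ^ m := by
              rw [← pow_add]
              congr 1
              ring
            rw [e2]
            have e3 : (0 : ℝ) ≤ s * (2 ^ (r + v) * 2 ^ m) := by positivity
            linarith
        · refine max_le hRnn ?_
          rcases lt_or_ge (κ x) 0 with hk | hk
          · exact (hneg x hk).trans hRnn
          · obtain ⟨hy1, hy2⟩ := hy x hx
            rw [hpos x hk]
            have hb2 : ¬ badp (s * 2 ^ (1 * (m + ρ * (2 * g * Nat.size n + 1)) + 2 * ρ + 1))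
                (y x) := fun hb3 => hb ⟨y x, hy1, hy2, hm, hb3⟩
            unfold badp at hb2
            push Not at hb2
            have h1 := hb2 (κ x).toNat
            rw [EE_ofFn] at h1
            refine (neg_logb_le h1).trans ?_
            have e1 : 1 * (m + ρ * (2 * g * Nat.size n + 1)) + 2 * ρ + 1 = m + v + 1 := by
              rw [hv]
              ring
            rw [e1]
            push_cast
            have h2 : (1 : ℝ) ≤ 2 ^ (m + v) := one_le_pow₀ (by norm_num)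
            have h3 : (1 : ℝ) ≤ s * 2 ^ (m + v) := by nlinarith
            have h4 : (1 : ℝ) + s * 2 ^ (m + v + 1) ≤ 4 * s * 2 ^ (m + v) := by
              rw [pow_succ]
              linarith
            have h5 : (2 : ℝ) ^ (m + v) ≤ 2 ^ (r + v) * 2 ^ m := by
              rw [← pow_add]
              exact pow_le_pow_right₀ (by norm_num) (by omega)
            have h6 := mul_le_mul_of_nonneg_left h5 (show (0 : ℝ) ≤ 4 * s by linarith)
            linarith
      · intro x hx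
        refine hmono _ n (le_max_left _ _) ?_
        refine (hfew x hx (n + r + 2 * ρ + 1) (by have := hJn (dif x (y x)); omega)).trans ?_
        have e2 : (2 : ℝ) ^ (n + r + 2 * ρ + 1) ≤ 2 * (2 ^ (r + v) * 2 ^ n) := by
          rw [← pow_add, ← pow_succ']
          refine pow_le_pow_right₀ (by norm_num) ?_
          have e1 : v = ρ * (2 * g * Nat.size n + 1) + 2 * ρ := by
            rw [hv]
            ring
          omega
        have e3 := mul_le_mul_of_nonneg_left e2 (show (0 : ℝ) ≤ s by linarith)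
        have e4 : (0 : ℝ) ≤ s * (2 ^ (r + v) * 2 ^ n) := by positivity
        linarith
      · intro m _
        exact cntE A N G 1 g hS w hw0 hw1 hθ0 hθlt.le hθg hθG ρ m

end Pool.Agent.H41.RC
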